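import Mathlib

/-! # Combinatorics of the base four word sets -/

set_option autoImplicit false

namespace Pool.Agent.H806R3.Bes

open Finset

/-- number of elements of `X` (words of length `a`, coded as numbers below `4^a`) whose prefix of
length `j` is `v` -/
def cnt (a : ℕ) (X : Finset ℕ) (j v : ℕ) : ℕ := (X.filter (fun c => c / 4 ^ (a - j) = v)).card

/-- collision energy at level `j` -/
def en (a : ℕ) (X : Finset ℕ) (j : ℕ) : ℕ := ∑ v ∈ range (4 ^ j), (cnt a X j v) ^ 2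

/-- word sets with controlled cardinality and energy -/
structure Good (C a : ℕ) (X : Finset ℕ) : Prop where
  lt : ∀ c ∈ X, c < 4 ^ a
  card_le : X.card ≤ 2 ^ a
  energy : ∀ j ≤ a, en a X j * 2 ^ j ≤ C * 4 ^ a

/-- concatenation of word sets, the second having words of length `b` -/
def cat (b : ℕ) (X Y : Finset ℕ) : Finset ℕ := (X ×ˢ Y).image (fun p => p.1 * 4 ^ b + p.2)

lemma mem_cat {b : ℕ} {X Y : Finset ℕ} {c : ℕ} :
    c ∈ cat b X Y ↔ ∃ x ∈ X, ∃ y ∈ Y, c = x * 4 ^ b + y := by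
  unfold cat
  simp only [mem_image, mem_product, Prod.exists]
  constructor
  · rintro ⟨x, y, ⟨hx, hy⟩, h⟩; exact ⟨x, hx, y, hy, h.symm⟩
  · rintro ⟨x, hx, y, hy, h⟩; exact ⟨x, y, ⟨hx, hy⟩, h.symm⟩

lemma cat_inj {b x y x' y' : ℕ} (hy : y < 4 ^ b) (hy' : y' < 4 ^ b)
    (h : x * 4 ^ b + y = x' * 4 ^ b + y') : x = x' ∧ y = y' := by
  have e1 : (x * 4 ^ b + y) / 4 ^ b = x := by
    rw [mul_comm, Nat.mul_add_div (by positivity), Nat.div_eq_of_lt hy, add_zero]
  have e2 : (x' * 4 ^ b + y') / 4 ^ b = x' := by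
    rw [mul_comm, Nat.mul_add_div (by positivity), Nat.div_eq_of_lt hy', add_zero]
  have hx : x = x' := by rw [← e1, ← e2, h]
  subst hx
  exact ⟨rfl, Nat.add_left_cancel h⟩

lemma cat_injOn {b : ℕ} {X Y : Finset ℕ} (hY : ∀ y ∈ Y, y < 4 ^ b) :
    Set.InjOn (fun p : ℕ × ℕ => p.1 * 4 ^ b + p.2) ((X ×ˢ Y : Finset (ℕ × ℕ)) : Set (ℕ × ℕ)) := by
  rintro ⟨x, y⟩ h1 ⟨x', y'⟩ h2 h
  rw [mem_coe, mem_product] at h1 h2
  obtain ⟨h3, h4⟩ := cat_inj (hY _ h1.2) (hY _ h2.2) h
  exact Prod.ext h3 h4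

lemma card_cat {b : ℕ} {X Y : Finset ℕ} (hY : ∀ y ∈ Y, y < 4 ^ b) :
    (cat b X Y).card = X.card * Y.card := by
  unfold cat
  rw [card_image_of_injOn (cat_injOn hY), card_product]

lemma cat_lt {a b : ℕ} {X Y : Finset ℕ} (hX : ∀ x ∈ X, x < 4 ^ a) (hY : ∀ y ∈ Y, y < 4 ^ b) :
    ∀ c ∈ cat b X Y, c < 4 ^ (a + b) := by
  intro c hc
  obtain ⟨x, hx, y, hy, rfl⟩ := mem_cat.1 hc
  have h1 := hX x hx
  have h2 := hY y hy
  calc x * 4 ^ b + y < x * 4 ^ b + 4 ^ b := by omega
    _ = (x + 1) * 4 ^ b := by ring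
    _ ≤ 4 ^ a * 4 ^ b := Nat.mul_le_mul_right _ h1
    _ = 4 ^ (a + b) := by rw [pow_add]

lemma prefix_low {a b j x y : ℕ} (hj : j ≤ a) (hy : y < 4 ^ b) :
    (x * 4 ^ b + y) / 4 ^ (a + b - j) = x / 4 ^ (a - j) := by
  have : 4 ^ (a + b - j) = 4 ^ b * 4 ^ (a - j) := by rw [← pow_add]; congr 1; omega
  rw [this, ← Nat.div_div_eq_div_mul]
  congr 1
  rw [mul_comm, Nat.mul_add_div (by positivity), Nat.div_eq_of_lt hy, add_zero]

lemma prefix_high {a b i x y : ℕ} (hi : i ≤ b) :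
    (x * 4 ^ b + y) / 4 ^ (a + b - (a + i)) = x * 4 ^ i + y / 4 ^ (b - i) := by
  have h1 : a + b - (a + i) = b - i := by omega
  have h2 : x * 4 ^ b = 4 ^ (b - i) * (x * 4 ^ i) := by
    rw [mul_left_comm, ← pow_add]; congr 2; omega
  rw [h1, h2, Nat.mul_add_div (by positivity)]

lemma prefix_lt {b i y : ℕ} (hi : i ≤ b) (hy : y < 4 ^ b) : y / 4 ^ (b - i) < 4 ^ i := by
  rw [Nat.div_lt_iff_lt_mul (by positivity), ← pow_add]
  have : i + (b - i) = b := by omega
  rwa [this]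

lemma card_filter_cat {b : ℕ} {X Y : Finset ℕ} (hY : ∀ y ∈ Y, y < 4 ^ b) (P : ℕ → Prop)
    [DecidablePred P] :
    ((cat b X Y).filter P).card
      = ((X ×ˢ Y).filter (fun p => P (p.1 * 4 ^ b + p.2))).card := by
  unfold cat
  rw [filter_image, card_image_of_injOn]
  exact (cat_injOn hY).mono (by exact_mod_cast filter_subset _ _)

lemma cnt_low {a b j : ℕ} {X Y : Finset ℕ} (hj : j ≤ a) (hY : ∀ y ∈ Y, y < 4 ^ b) (v : ℕ) :
    cnt (a + b) (cat b X Y) j v = cnt a X j v * Y.card := by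
  unfold cnt
  rw [card_filter_cat hY, ← card_product]
  congr 1
  ext ⟨x, y⟩
  simp only [mem_filter, mem_product]
  constructor
  · rintro ⟨⟨hx, hy⟩, h⟩
    rw [prefix_low hj (hY y hy)] at h
    exact ⟨⟨hx, h⟩, hy⟩
  · rintro ⟨⟨hx, h⟩, hy⟩
    exact ⟨⟨hx, hy⟩, by rw [prefix_low hj (hY y hy)]; exact h⟩

lemma cnt_high {a b i : ℕ} {X Y : Finset ℕ} (hi : i ≤ b) (hY : ∀ y ∈ Y, y < 4 ^ b) (x z : ℕ)
    (hz : z < 4 ^ i) :
    cnt (a + b) (cat b X Y) (a + i) (x * 4 ^ i + z) = if x ∈ X then cnt b Y i z else 0 := by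
  unfold cnt
  rw [card_filter_cat hY]
  have key : ∀ x' y' : ℕ, y' ∈ Y →
      ((x' * 4 ^ b + y') / 4 ^ (a + b - (a + i)) = x * 4 ^ i + z ↔
        x' = x ∧ y' / 4 ^ (b - i) = z) := by
    intro x' y' hy'
    rw [prefix_high hi]
    constructor
    · intro h
      exact cat_inj (prefix_lt hi (hY _ hy')) hz h
    · rintro ⟨rfl, rfl⟩; rfl
  split_ifs with hx
  · have : (X ×ˢ Y).filter (fun p : ℕ × ℕ =>
        (p.1 * 4 ^ b + p.2) / 4 ^ (a + b - (a + i)) = x * 4 ^ i + z)
        = {x} ×ˢ (Y.filter (fun y => y / 4 ^ (b - i) = z)) := by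
      ext ⟨x', y'⟩
      simp only [mem_filter, mem_product, mem_singleton]
      constructor
      · rintro ⟨⟨h1, h2⟩, h3⟩
        obtain ⟨h4, h5⟩ := (key x' y' h2).1 h3
        exact ⟨h4, h2, h5⟩
      · rintro ⟨h4, h2, h5⟩
        subst h4
        exact ⟨⟨hx, h2⟩, (key x' y' h2).2 ⟨rfl, h5⟩⟩
    rw [this, card_product, card_singleton, one_mul]
  · rw [card_eq_zero, filter_eq_empty_iff]
    rintro ⟨x', y'⟩ h1 h2
    rw [mem_product] at h1
    obtain ⟨h4, -⟩ := (key x' y' h1.2).1 h2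
    exact hx (h4 ▸ h1.1)

lemma en_low {a b j : ℕ} {X Y : Finset ℕ} (hj : j ≤ a) (hY : ∀ y ∈ Y, y < 4 ^ b) :
    en (a + b) (cat b X Y) j = en a X j * Y.card ^ 2 := by
  unfold en
  rw [sum_mul]
  refine sum_congr rfl fun v _ => ?_
  rw [cnt_low hj hY, mul_pow]

lemma en_high {a b i : ℕ} {X Y : Finset ℕ} (hi : i ≤ b) (hX : ∀ x ∈ X, x < 4 ^ a)
    (hY : ∀ y ∈ Y, y < 4 ^ b) :
    en (a + b) (cat b X Y) (a + i) = X.card * en b Y i := by
  have h1 : en (a + b) (cat b X Y) (a + i)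
      = ∑ p ∈ range (4 ^ a) ×ˢ range (4 ^ i),
        (if p.1 ∈ X then cnt b Y i p.2 else 0) ^ 2 := by
    unfold en
    symm
    refine sum_nbij' (fun p : ℕ × ℕ => p.1 * 4 ^ i + p.2)
      (fun v : ℕ => (v / 4 ^ i, v % 4 ^ i)) ?_ ?_ ?_ ?_ ?_
    · rintro ⟨x, z⟩ h
      rw [mem_product, mem_range, mem_range] at h
      rw [mem_range]
      exact cat_lt (X := {x}) (Y := {z}) (by simpa using h.1) (by simpa using h.2) _
        (mem_cat.2 ⟨x, by simp, z, by simp, rfl⟩)
    · intro v hv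
      rw [mem_range, pow_add] at hv
      rw [mem_product, mem_range, mem_range]
      exact ⟨(Nat.div_lt_iff_lt_mul (by positivity)).2 hv, Nat.mod_lt _ (by positivity)⟩
    · rintro ⟨x, z⟩ h
      rw [mem_product, mem_range, mem_range] at h
      simp only [Prod.mk.injEq]
      constructor
      · rw [mul_comm, Nat.mul_add_div (by positivity), Nat.div_eq_of_lt h.2, add_zero]
      · rw [mul_comm, Nat.mul_add_mod, Nat.mod_eq_of_lt h.2]
    · intro v _
      simp only
      rw [mul_comm]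
      exact Nat.div_add_mod v (4 ^ i)
    · rintro ⟨x, z⟩ h
      rw [mem_product, mem_range, mem_range] at h
      simp only
      rw [cnt_high hi hY x z h.2]
  rw [h1, sum_product]
  have h2 : ∀ x ∈ range (4 ^ a), ∑ z ∈ range (4 ^ i), (if x ∈ X then cnt b Y i z else 0) ^ 2
      = if x ∈ X then en b Y i else 0 := by
    intro x _
    split_ifs with hx
    · rfl
    · simp
  rw [sum_congr rfl h2, ← sum_filter, sum_const, smul_eq_mul]
  congr 2
  ext x
  simp only [mem_filter, mem_range]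
  exact ⟨fun h => h.2, fun h => ⟨hX x h, h⟩⟩

lemma Good.cat {C a b : ℕ} {X Y : Finset ℕ} (hX : Good C a X) (hY : Good C b Y) :
    Good C (a + b) (cat b X Y) where
  lt := cat_lt hX.lt hY.lt
  card_le := by
    rw [card_cat hY.lt, pow_add]
    exact Nat.mul_le_mul hX.card_le hY.card_le
  energy := by
    intro j hj
    rcases le_total j a with h | h
    · rw [en_low h hY.lt]
      have h1 := hX.energy j h
      have h2 : Y.card ^ 2 ≤ 4 ^ b := by
        calc Y.card ^ 2 ≤ (2 ^ b) ^ 2 := Nat.pow_le_pow_left hY.card_le 2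
          _ = 4 ^ b := by rw [← pow_mul, mul_comm, pow_mul]; norm_num
      calc en a X j * Y.card ^ 2 * 2 ^ j = (en a X j * 2 ^ j) * Y.card ^ 2 := by ring
        _ ≤ (C * 4 ^ a) * 4 ^ b := Nat.mul_le_mul h1 h2
        _ = C * 4 ^ (a + b) := by rw [pow_add]; ring
    · obtain ⟨i, rfl⟩ := Nat.exists_eq_add_of_le h
      have hi : i ≤ b := by omega
      rw [en_high hi hX.lt hY.lt]
      have h1 := hY.energy i hi
      have h2 := hX.card_le
      calc X.card * en b Y i * 2 ^ (a + i) = (X.card * 2 ^ a) * (en b Y i * 2 ^ i) := by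
            rw [pow_add]; ring
        _ ≤ (2 ^ a * 2 ^ a) * (C * 4 ^ b) := Nat.mul_le_mul (Nat.mul_le_mul_right _ h2) h1
        _ = C * 4 ^ (a + b) := by
            rw [← mul_pow, pow_add]; ring

lemma Good.mono {C a : ℕ} {X X' : Finset ℕ} (hX : Good C a X) (h : X' ⊆ X) : Good C a X' where
  lt := fun c hc => hX.lt c (h hc)
  card_le := (card_le_card h).trans hX.card_le
  energy := by
    intro j hj
    refine le_trans (Nat.mul_le_mul_right _ ?_) (hX.energy j hj)
    refine sum_le_sum fun v _ => Nat.pow_le_pow_left ?_ 2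
    exact card_le_card (filter_subset_filter _ h)

lemma Good.weaken {C C' a : ℕ} {X : Finset ℕ} (hX : Good C a X) (h : C ≤ C') : Good C' a X where
  lt := hX.lt
  card_le := hX.card_le
  energy := fun j hj => (hX.energy j hj).trans (Nat.mul_le_mul_right _ h)

lemma good_zero : Good 1 0 {0} where
  lt := by simp
  card_le := by simp
  energy := by
    intro j hj
    obtain rfl : j = 0 := by omega
    decide

lemma good_two : Good 1 1 {0, 1} where
  lt := by decide
  card_le := by decide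
  energy := by
    intro j hj
    interval_cases j <;> decide

/-- words in the letters `0, 1` of length `a` -/
def bin : ℕ → Finset ℕ
  | 0 => {0}
  | a + 1 => cat 1 (bin a) {0, 1}

lemma good_bin (a : ℕ) : Good 1 a (bin a) := by
  induction a with
  | zero => exact good_zero
  | succ a ih => exact ih.cat good_two

lemma card_bin (a : ℕ) : (bin a).card = 2 ^ a := by
  induction a with
  | zero => rfl
  | succ a ih =>
    rw [bin, card_cat (by decide), ih]
    rfl

lemma zero_mem_bin (a : ℕ) : 0 ∈ bin a := by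
  induction a with
  | zero => simp [bin]
  | succ a ih => exact mem_cat.2 ⟨0, ih, 0, by simp, by simp⟩

/-- the words which have a hit: `0^{2m}` followed by a free word of length `m` -/
def hit (m : ℕ) : Finset ℕ := range (4 ^ m)

/-- the words in the letters `0, 1` which do not start with `0^m` -/
def non (m : ℕ) : Finset ℕ := cat (2 * m) ((bin m).erase 0) (bin (2 * m))

lemma cnt_le_pow (a : ℕ) (X : Finset ℕ) (j v : ℕ) : cnt a X j v ≤ 4 ^ (a - j) := by
  unfold cnt
  have : X.filter (fun c => c / 4 ^ (a - j) = v)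
      ⊆ Ico (v * 4 ^ (a - j)) (v * 4 ^ (a - j) + 4 ^ (a - j)) := by
    intro c hc
    rw [mem_filter] at hc
    rw [mem_Ico]
    have h1 := Nat.div_add_mod c (4 ^ (a - j))
    have h2 := Nat.mod_lt c (show 0 < 4 ^ (a - j) by positivity)
    rw [hc.2] at h1
    rw [mul_comm v]
    omega
  refine (card_le_card this).trans ?_
  rw [Nat.card_Ico]
  exact (Nat.add_sub_cancel_left ..).le

lemma en_le (a : ℕ) (X : Finset ℕ) (j M : ℕ) (h : ∀ v, cnt a X j v ≤ M) :
    en a X j ≤ M * X.card := by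
  unfold en
  calc ∑ v ∈ range (4 ^ j), (cnt a X j v) ^ 2 ≤ ∑ v ∈ range (4 ^ j), M * cnt a X j v := by
        refine sum_le_sum fun v _ => ?_
        rw [sq]
        exact Nat.mul_le_mul_right _ (h v)
    _ = M * ∑ v ∈ range (4 ^ j), cnt a X j v := by rw [mul_sum]
    _ ≤ M * X.card := by
        refine Nat.mul_le_mul_left _ ?_
        unfold cnt
        have hd : ∀ v ∈ range (4 ^ j), ∀ w ∈ range (4 ^ j), v ≠ w →
            Disjoint (X.filter (fun c => c / 4 ^ (a - j) = v))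
              (X.filter (fun c => c / 4 ^ (a - j) = w)) := by
          intro v _ w _ hvw
          rw [disjoint_filter]
          intro c _ h1 h2
          exact hvw (h1.symm.trans h2)
        rw [← card_biUnion hd]
        refine card_le_card ?_
        intro c hc
        rw [mem_biUnion] at hc
        obtain ⟨v, _, hv⟩ := hc
        exact (mem_filter.1 hv).1

lemma good_hit (m : ℕ) : Good 1 (m + 2 * m) (hit m) where
  lt := by
    intro c hc
    rw [hit, mem_range] at hc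
    exact lt_of_lt_of_le hc (Nat.pow_le_pow_right (by norm_num) (by omega))
  card_le := by
    rw [hit, card_range]
    calc 4 ^ m = 2 ^ (2 * m) := by rw [pow_mul]; norm_num
      _ ≤ 2 ^ (m + 2 * m) := Nat.pow_le_pow_right (by norm_num) (by omega)
  energy := by
    intro j hj
    have hcard : (hit m).card = 4 ^ m := by rw [hit, card_range]
    rcases le_total j (2 * m) with h | h
    · have h1 := en_le (m + 2 * m) (hit m) j (4 ^ m) (fun v => by
        unfold cnt
        refine (card_filter_le _ _).trans hcard.le)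
      rw [hcard] at h1
      calc en (m + 2 * m) (hit m) j * 2 ^ j ≤ (4 ^ m * 4 ^ m) * 2 ^ (2 * m) :=
            Nat.mul_le_mul h1 (Nat.pow_le_pow_right (by norm_num) h)
        _ = 1 * 4 ^ (m + 2 * m) := by
            have : 2 ^ (2 * m) = 4 ^ m := by rw [pow_mul]; norm_num
            rw [this, one_mul, ← pow_add, ← pow_add]
            congr 1; omega
    · have h1 := en_le (m + 2 * m) (hit m) j (4 ^ (m + 2 * m - j)) (fun v => cnt_le_pow _ _ _ _)
      rw [hcard] at h1
      obtain ⟨i, rfl⟩ := Nat.exists_eq_add_of_le h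
      have hi : i ≤ m := by omega
      have e1 : m + 2 * m - (2 * m + i) = m - i := by omega
      rw [e1] at h1
      calc en (m + 2 * m) (hit m) (2 * m + i) * 2 ^ (2 * m + i)
          ≤ (4 ^ (m - i) * 4 ^ m) * 2 ^ (2 * m + i) := Nat.mul_le_mul_right _ h1
        _ ≤ 1 * 4 ^ (m + 2 * m) := by
            have e2 : ∀ k : ℕ, 4 ^ k = 2 ^ (2 * k) := fun k => by rw [pow_mul]; norm_num
            rw [e2, e2, e2, one_mul, ← pow_add, ← pow_add]
            exact Nat.pow_le_pow_right (by norm_num) (by omega)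

lemma non_subset (m : ℕ) : non m ⊆ cat (2 * m) (bin m) (bin (2 * m)) := by
  intro c hc
  obtain ⟨x, hx, y, hy, h⟩ := mem_cat.1 hc
  exact mem_cat.2 ⟨x, (mem_erase.1 hx).2, y, hy, h⟩

lemma good_non (m : ℕ) : Good 1 (m + 2 * m) (non m) :=
  ((good_bin m).cat (good_bin (2 * m))).mono (non_subset m)

lemma card_non (m : ℕ) : (non m).card + 4 ^ m = 2 ^ (m + 2 * m) := by
  unfold non
  rw [card_cat (good_bin (2 * m)).lt, card_erase_of_mem (zero_mem_bin m), card_bin, card_bin]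
  have h1 : 2 ^ (2 * m) = 4 ^ m := by rw [pow_mul]; norm_num
  have h2 : 1 ≤ 2 ^ m := Nat.one_le_two_pow
  rw [pow_add, h1, Nat.sub_mul, one_mul]
  have : 4 ^ m ≤ 2 ^ m * 4 ^ m := Nat.le_mul_of_pos_left _ (by positivity)
  omega

lemma disj (m : ℕ) : Disjoint (hit m) (non m) := by
  rw [disjoint_left]
  intro c h1 h2
  rw [hit, mem_range] at h1
  obtain ⟨x, hx, y, _, rfl⟩ := mem_cat.1 h2
  have hx0 : 1 ≤ x := Nat.one_le_iff_ne_zero.2 (mem_erase.1 hx).1
  have h3 : 4 ^ (2 * m) ≤ x * 4 ^ (2 * m) := Nat.le_mul_of_pos_left _ hx0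
  have h4 : 4 ^ m ≤ 4 ^ (2 * m) := Nat.pow_le_pow_right (by norm_num) (by omega)
  omega

/-- all words of one stage -/
def stage (m : ℕ) : Finset ℕ := hit m ∪ non m

lemma card_stage (m : ℕ) : (stage m).card = 2 ^ (m + 2 * m) := by
  unfold stage
  rw [card_union_of_disjoint (disj m), hit, card_range, ← card_non m]
  ring

lemma good_stage (m : ℕ) : Good 4 (m + 2 * m) (stage m) where
  lt := by
    intro c hc
    rcases mem_union.1 hc with h | h
    · exact (good_hit m).lt c h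
    · exact (good_non m).lt c h
  card_le := (card_stage m).le
  energy := by
    intro j hj
    have h1 := (good_hit m).energy j hj
    have h2 := (good_non m).energy j hj
    have h3 : en (m + 2 * m) (stage m) j
        ≤ 2 * en (m + 2 * m) (hit m) j + 2 * en (m + 2 * m) (non m) j := by
      unfold en
      rw [mul_sum, mul_sum, ← sum_add_distrib]
      refine sum_le_sum fun v _ => ?_
      have hle : cnt (m + 2 * m) (stage m) j v
          ≤ cnt (m + 2 * m) (hit m) j v + cnt (m + 2 * m) (non m) j v := by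
        unfold cnt stage
        rw [filter_union]
        exact card_union_le _ _
      have : (cnt (m + 2 * m) (stage m) j v) ^ 2
          ≤ (cnt (m + 2 * m) (hit m) j v + cnt (m + 2 * m) (non m) j v) ^ 2 :=
        Nat.pow_le_pow_left hle 2
      refine this.trans ?_
      zify
      nlinarith [sq_nonneg ((cnt (m + 2 * m) (hit m) j v : ℤ) - cnt (m + 2 * m) (non m) j v)]
    calc en (m + 2 * m) (stage m) j * 2 ^ j
        ≤ (2 * en (m + 2 * m) (hit m) j + 2 * en (m + 2 * m) (non m) j) * 2 ^ j :=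
          Nat.mul_le_mul_right _ h3
      _ = 2 * (en (m + 2 * m) (hit m) j * 2 ^ j) + 2 * (en (m + 2 * m) (non m) j * 2 ^ j) := by
          ring
      _ ≤ 4 * 4 ^ (m + 2 * m) := by omega

/-- length of `N` stages -/
def lev (m : ℕ) : ℕ → ℕ
  | 0 => 0
  | N + 1 => (m + 2 * m) + lev m N

/-- all words of `N` stages -/
def full (m : ℕ) : ℕ → Finset ℕ
  | 0 => {0}
  | N + 1 => cat (lev m N) (stage m) (full m N)

/-- the words of `N` stages having a hit in some stage -/
def good (m : ℕ) : ℕ → Finset ℕ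
  | 0 => ∅
  | N + 1 => cat (lev m N) (hit m) (full m N) ∪ cat (lev m N) (non m) (good m N)

lemma good_full (m N : ℕ) : Good 4 (lev m N) (full m N) := by
  induction N with
  | zero => exact good_zero.weaken (by norm_num)
  | succ N ih => exact (good_stage m).cat ih

lemma card_full (m N : ℕ) : (full m N).card = 2 ^ lev m N := by
  induction N with
  | zero => rfl
  | succ N ih => rw [full, lev, card_cat (good_full m N).lt, ih, card_stage, ← pow_add]

lemma cat_mono {b : ℕ} {X X' Y Y' : Finset ℕ} (h1 : X ⊆ X') (h2 : Y ⊆ Y') :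
    cat b X Y ⊆ cat b X' Y' := by
  intro c hc
  obtain ⟨x, hx, y, hy, h⟩ := mem_cat.1 hc
  exact mem_cat.2 ⟨x, h1 hx, y, h2 hy, h⟩

lemma good_subset (m N : ℕ) : good m N ⊆ full m N := by
  induction N with
  | zero => exact empty_subset _
  | succ N ih =>
    rw [good, full]
    refine union_subset (cat_mono subset_union_left subset_rfl)
      (cat_mono subset_union_right ih)

lemma good_good (m N : ℕ) : Good 4 (lev m N) (good m N) := (good_full m N).mono (good_subset m N)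

lemma card_good (m N : ℕ) : (good m N).card + (non m).card ^ N = 2 ^ lev m N := by
  induction N with
  | zero => simp [good, lev]
  | succ N ih =>
    have hdis : Disjoint (cat (lev m N) (hit m) (full m N)) (cat (lev m N) (non m) (good m N)) := by
      rw [disjoint_left]
      intro c h1 h2
      obtain ⟨x, hx, y, hy, h⟩ := mem_cat.1 h1
      obtain ⟨x', hx', y', hy', h'⟩ := mem_cat.1 h2
      have := (cat_inj ((good_full m N).lt y hy) ((good_good m N).lt y' hy')
        (h.symm.trans h')).1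
      subst this
      exact disjoint_left.1 (disj m) hx hx'
    rw [good, card_union_of_disjoint hdis, card_cat (good_full m N).lt,
      card_cat (good_good m N).lt, card_full, lev, pow_add 2, ← card_non m, hit, card_range]
    calc 4 ^ m * 2 ^ lev m N + (non m).card * (good m N).card + (non m).card ^ (N + 1)
        = 4 ^ m * 2 ^ lev m N + (non m).card * ((good m N).card + (non m).card ^ N) := by ring
      _ = ((non m).card + 4 ^ m) * 2 ^ lev m N := by rw [ih]; ring

/-! ### Coverings -/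

/-- `X` is covered by cylinders with small total weight -/
def Cov (a : ℕ) (X : Finset ℕ) (ε : ℝ) : Prop :=
  ∃ V : Finset (ℕ × ℕ), (∀ p ∈ V, p.1 ≤ a) ∧ ∑ p ∈ V, (1 / 2 : ℝ) ^ p.1 ≤ ε ∧
    ∀ c ∈ X, ∃ p ∈ V, c / 4 ^ (a - p.1) = p.2

lemma Cov.mono {a : ℕ} {X : Finset ℕ} {ε ε' : ℝ} (h : Cov a X ε) (hle : ε ≤ ε') : Cov a X ε' := by
  obtain ⟨V, h1, h2, h3⟩ := h
  exact ⟨V, h1, h2.trans hle, h3⟩

lemma Cov.union {a : ℕ} {X Y : Finset ℕ} {ε δ : ℝ} (hX : Cov a X ε) (hY : Cov a Y δ) :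
    Cov a (X ∪ Y) (ε + δ) := by
  obtain ⟨V, h1, h2, h3⟩ := hX
  obtain ⟨W, k1, k2, k3⟩ := hY
  refine ⟨V ∪ W, ?_, ?_, ?_⟩
  · intro p hp
    rcases mem_union.1 hp with h | h
    · exact h1 p h
    · exact k1 p h
  · have := sum_union_inter (s₁ := V) (s₂ := W) (f := fun p : ℕ × ℕ => (1 / 2 : ℝ) ^ p.1)
    have h0 : 0 ≤ ∑ p ∈ V ∩ W, (1 / 2 : ℝ) ^ p.1 := sum_nonneg fun p _ => by positivity
    linarith
  · intro c hc
    rcases mem_union.1 hc with h | h
    · obtain ⟨p, hp, he⟩ := h3 c h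
      exact ⟨p, mem_union_left _ hp, he⟩
    · obtain ⟨p, hp, he⟩ := k3 c h
      exact ⟨p, mem_union_right _ hp, he⟩

lemma Cov.cat {a b : ℕ} {X Y : Finset ℕ} {ε : ℝ} (hY : Cov b Y ε) :
    Cov (a + b) (cat b X Y) (X.card * (1 / 2) ^ a * ε) := by
  obtain ⟨V, h1, h2, h3⟩ := hY
  refine ⟨(X ×ˢ V).image (fun q => (a + q.2.1, q.1 * 4 ^ q.2.1 + q.2.2)), ?_, ?_, ?_⟩
  · intro p hp
    rw [mem_image] at hp
    obtain ⟨⟨x, l, v⟩, hq, rfl⟩ := hp
    have := h1 _ (mem_product.1 hq).2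
    simp only at this ⊢
    omega
  · refine (sum_image_le_of_nonneg ?_).trans ?_
    · intro q _; positivity
    · simp only
      rw [sum_product]
      simp only [pow_add, ← mul_sum, sum_const, nsmul_eq_mul]
      rw [mul_assoc]
      have hp1 : (0 : ℝ) ≤ (1 / 2) ^ a := by positivity
      have hp2 : (0 : ℝ) ≤ (X.card : ℝ) := by positivity
      rw [mul_left_comm]
      exact mul_le_mul_of_nonneg_left (mul_le_mul_of_nonneg_left h2 hp1) hp2
  · intro c hc
    obtain ⟨x, hx, y, hy, rfl⟩ := mem_cat.1 hc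
    obtain ⟨⟨l, v⟩, hp, he⟩ := h3 y hy
    refine ⟨(a + l, x * 4 ^ l + v), mem_image.2 ⟨(x, (l, v)), mem_product.2 ⟨hx, hp⟩, rfl⟩, ?_⟩
    simp only at he ⊢
    rw [prefix_high (h1 _ hp), he]

lemma cov_hit (m N : ℕ) : Cov (lev m (N + 1)) (cat (lev m N) (hit m) (full m N))
    ((1 / 2) ^ (2 * m)) := by
  refine ⟨{(2 * m, 0)}, ?_, by simp, ?_⟩
  · intro p hp
    rw [mem_singleton] at hp
    subst hp
    simp only [lev]; omega
  · intro c hc
    obtain ⟨x, hx, y, hy, rfl⟩ := mem_cat.1 hc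
    refine ⟨(2 * m, 0), by simp, ?_⟩
    simp only [lev]
    rw [prefix_low (by omega) ((good_full m N).lt y hy)]
    have : m + 2 * m - 2 * m = m := by omega
    rw [this]
    exact Nat.div_eq_of_lt (by simpa [hit] using hx)

lemma cov_good (m N : ℕ) : Cov (lev m N) (good m N) ((1 / 2) ^ m) := by
  induction N with
  | zero => exact ⟨∅, by simp, by simp, by simp [good]⟩
  | succ N ih =>
    rw [good]
    refine ((cov_hit m N).union (ih.cat (a := m + 2 * m) (X := non m))).mono ?_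
    have h1 : ((non m).card : ℝ) = 2 ^ (m + 2 * m) - 4 ^ m := by
      have := card_non m
      have h2 : ((non m).card : ℝ) + 4 ^ m = 2 ^ (m + 2 * m) := by exact_mod_cast this
      linarith
    rw [h1]
    have e1 : (1 / 2 : ℝ) ^ (2 * m) = (1 / 2) ^ m * (1 / 2) ^ m := by rw [two_mul, pow_add]
    have e2 : (4 : ℝ) ^ m = 2 ^ m * 2 ^ m := by rw [← mul_pow]; norm_num
    have e3 : (2 : ℝ) ^ m * (1 / 2) ^ m = 1 := by rw [← mul_pow]; norm_num
    have e4 : (2 : ℝ) ^ (m + 2 * m) = 2 ^ m * 2 ^ m * 2 ^ m := by rw [pow_add, two_mul, pow_add]; ring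
    have e5 : (1 / 2 : ℝ) ^ (m + 2 * m) = (1 / 2) ^ m * (1 / 2) ^ m * (1 / 2) ^ m := by
      rw [pow_add, two_mul, pow_add]; ring
    rw [e1, e2, e4, e5]
    set p : ℝ := (1 / 2) ^ m
    set q : ℝ := 2 ^ m
    have : (q * q * q - q * q) * (p * p * p) * p
        = (q * p) ^ 3 * p - (q * p) ^ 2 * (p * p) := by ring
    rw [this, e3]
    linarith

lemma exists_block (m : ℕ) (ε : ℝ) (hε : 0 < ε) : ∃ (b : ℕ) (G : Finset ℕ), Good 4 b G ∧
    (1 - ε) * 2 ^ b ≤ (G.card : ℝ) ∧ Cov b G ((1 / 2) ^ m) := by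
  -- the proportion of words without hit
  have h1 : ((non m).card : ℝ) = 2 ^ (m + 2 * m) - 4 ^ m := by
    have := card_non m
    have h2 : ((non m).card : ℝ) + 4 ^ m = 2 ^ (m + 2 * m) := by exact_mod_cast this
    linarith
  have h4 : (0 : ℝ) < 4 ^ m := by positivity
  set r : ℝ := ((non m).card : ℝ) / 2 ^ (m + 2 * m) with hr
  have hr0 : 0 ≤ r := by positivity
  have hr1 : r < 1 := by
    rw [hr, div_lt_one (by positivity), h1]; linarith
  obtain ⟨N, hN⟩ := exists_pow_lt_of_lt_one hε hr1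
  refine ⟨lev m N, good m N, good_good m N, ?_, cov_good m N⟩
  have hl : (2 : ℝ) ^ lev m N = (2 ^ (m + 2 * m)) ^ N := by
    induction N with
    | zero => simp [lev]
    | succ N ih =>
      rw [lev, pow_add 2]
      have : ∀ N : ℕ, (2 : ℝ) ^ lev m N = (2 ^ (m + 2 * m)) ^ N := by
        intro N
        induction N with
        | zero => simp [lev]
        | succ N ih => rw [lev, pow_add 2, ih, pow_succ, mul_comm]
      rw [this N, pow_succ (2 ^ (m + 2 * m) : ℝ) N, mul_comm]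
  have hc := card_good m N
  have hc' : ((good m N).card : ℝ) + ((non m).card : ℝ) ^ N = 2 ^ lev m N := by
    exact_mod_cast hc
  have h5 : ((non m).card : ℝ) ^ N ≤ ε * 2 ^ lev m N := by
    have h6 : ((non m).card : ℝ) ^ N = r ^ N * 2 ^ lev m N := by
      rw [hl, ← mul_pow, hr]
      congr 1
      field_simp
    rw [h6]
    exact mul_le_mul_of_nonneg_right hN.le (by positivity)
  linarith

/-- the sequence of word sets -/
theorem exists_seq : ∃ (a : ℕ → ℕ) (X : ℕ → Finset ℕ), ∀ k, Good 4 (a k) (X k) ∧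
    (2 : ℝ) ^ a k ≤ 2 * (X k).card ∧ Cov (a k) (X k) ((1 / 2) ^ k) ∧
    a k ≤ a (k + 1) ∧ ∀ c ∈ X (k + 1), c / 4 ^ (a (k + 1) - a k) ∈ X k := by
  let St : ℕ → Type := fun k => {p : ℕ × Finset ℕ // Good 4 p.1 p.2 ∧
    (1 / 2 + (1 / 2) ^ (k + 1)) * (2 : ℝ) ^ p.1 ≤ p.2.card ∧ Cov p.1 p.2 ((1 / 2) ^ k)}
  have hstep : ∀ k (s : St k), ∃ t : St (k + 1), s.1.1 ≤ t.1.1 ∧
      ∀ c ∈ t.1.2, c / 4 ^ (t.1.1 - s.1.1) ∈ s.1.2 := by
    rintro k ⟨⟨a, X⟩, hG, hc, hcov⟩
    simp only at hG hc hcov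
    obtain ⟨b, G, hG2, hc2, hcov2⟩ := exists_block (k + 1) ((1 / 2) ^ (k + 2)) (by positivity)
    refine ⟨⟨(a + b, cat b X G), hG.cat hG2, ?_, ?_⟩, ?_, ?_⟩
    · simp only
      rw [card_cat hG2.lt, pow_add 2]
      push_cast
      have h1 : (0 : ℝ) < 2 ^ a := by positivity
      have h2 : (0 : ℝ) < 2 ^ b := by positivity
      have e1 : (1 / 2 : ℝ) ^ (k + 1) = 2 * (1 / 2) ^ (k + 2) := by
        rw [pow_succ (1 / 2 : ℝ) (k + 1)]; ring
      have e3 : (1 / 2 : ℝ) ^ (k + 2) ≤ 1 / 4 := by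
        calc (1 / 2 : ℝ) ^ (k + 2) ≤ (1 / 2) ^ 2 :=
              pow_le_pow_of_le_one (by norm_num) (by norm_num) (by omega)
          _ = 1 / 4 := by norm_num
      have e0 : (0 : ℝ) < (1 / 2) ^ (k + 2) := by positivity
      rw [e1] at hc
      have e2 : (1 / 2 : ℝ) ^ (k + 1 + 1) = (1 / 2) ^ (k + 2) := rfl
      rw [e2]
      set t : ℝ := (1 / 2) ^ (k + 2)
      calc (1 / 2 + t) * (2 ^ a * 2 ^ b) ≤ ((1 / 2 + 2 * t) * 2 ^ a) * ((1 - t) * 2 ^ b) := by
            have : (1 / 2 + t) ≤ (1 / 2 + 2 * t) * (1 - t) := by nlinarith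
            calc (1 / 2 + t) * (2 ^ a * 2 ^ b) ≤ ((1 / 2 + 2 * t) * (1 - t)) * (2 ^ a * 2 ^ b) :=
                  mul_le_mul_of_nonneg_right this (by positivity)
              _ = ((1 / 2 + 2 * t) * 2 ^ a) * ((1 - t) * 2 ^ b) := by ring
        _ ≤ (X.card : ℝ) * G.card := by
            refine mul_le_mul hc hc2 ?_ (by positivity)
            have : 0 ≤ 1 - t := by linarith
            positivity
    · simp only
      refine (hcov2.cat (a := a) (X := X)).mono ?_
      have h1 : (X.card : ℝ) ≤ 2 ^ a := by exact_mod_cast hG.card_le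
      have h2 : (2 : ℝ) ^ a * (1 / 2) ^ a = 1 := by rw [← mul_pow]; norm_num
      calc (X.card : ℝ) * (1 / 2) ^ a * (1 / 2) ^ (k + 1)
          ≤ 2 ^ a * (1 / 2) ^ a * (1 / 2) ^ (k + 1) := by gcongr
        _ = (1 / 2) ^ (k + 1) := by rw [h2, one_mul]
    · simp only; omega
    · intro c hc3
      simp only at hc3 ⊢
      obtain ⟨x, hx, y, hy, rfl⟩ := mem_cat.1 hc3
      have h1 : a + b - a = b := by omega
      rw [h1, mul_comm, Nat.mul_add_div (by positivity), Nat.div_eq_of_lt (hG2.lt y hy), add_zero]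
      exact hx
  have h0 : St 0 := ⟨(0, {0}), good_zero.weaken (by norm_num), by norm_num,
    ⟨{(0, 0)}, by simp, by simp, by simp⟩⟩
  choose nxt hn1 hn2 using hstep
  let s : ∀ k, St k := fun k => Nat.rec h0 (fun k s => nxt k s) k
  refine ⟨fun k => (s k).1.1, fun k => (s k).1.2, fun k => ⟨(s k).2.1, ?_, (s k).2.2.2,
    hn1 k (s k), hn2 k (s k)⟩⟩
  have h1 := (s k).2.2.1
  have h2 : (0 : ℝ) < 2 ^ (s k).1.1 := by positivity
  have h3 : (0 : ℝ) < (1 / 2) ^ (k + 1) := by positivity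
  nlinarith [mul_pos h3 h2]

end Pool.Agent.H806R3.Bes
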