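import Mathlib
import Pool.Agent.H806R3.BesA

/-! # Telescoping averages -/

set_option autoImplicit false

namespace Pool.Agent.H806R3.Bes

open Finset MeasureTheory

/-- average of `u` over the interval coded by `v` at level `j` -/
noncomputable def avg (u : ℝ → ℝ) (j v : ℕ) : ℝ :=
  4 ^ j * ∫ x in ((v : ℝ) / 4 ^ j)..(((v : ℝ) + 1) / 4 ^ j), u x

lemma cs {f : ℝ → ℝ} (hf : Continuous f) {a b : ℝ} (hab : a < b) :
    (∫ x in a..b, f x) ^ 2 ≤ (b - a) * ∫ x in a..b, (f x) ^ 2 := by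
  set I := ∫ x in a..b, f x with hI
  set m := I / (b - a) with hm
  have hpos : 0 < b - a := by linarith
  have h0 : 0 ≤ ∫ x in a..b, (f x - m) ^ 2 :=
    intervalIntegral.integral_nonneg hab.le (fun x _ => sq_nonneg _)
  have h1 : ∫ x in a..b, (f x - m) ^ 2 = (∫ x in a..b, (f x) ^ 2) - 2 * m * I + m ^ 2 * (b - a) := by
    have h2 : ∀ x, (f x - m) ^ 2 = ((f x) ^ 2 - (2 * m) * f x) + m ^ 2 := fun x => by ring
    simp_rw [h2]
    rw [intervalIntegral.integral_add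
        ((by fun_prop : Continuous fun x => (f x) ^ 2 - 2 * m * f x).intervalIntegrable _ _)
        (continuous_const.intervalIntegrable _ _),
      intervalIntegral.integral_sub
        ((by fun_prop : Continuous fun x => (f x) ^ 2).intervalIntegrable _ _)
        ((by fun_prop : Continuous fun x => 2 * m * f x).intervalIntegrable _ _),
      intervalIntegral.integral_const_mul, intervalIntegral.integral_const, smul_eq_mul]
    ring
  rw [h1] at h0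
  have h3 : m * (b - a) = I := by rw [hm]; field_simp
  have h6 : m ^ 2 * (b - a) = m * I := by rw [sq, mul_assoc, h3]
  have h4 : 0 ≤ (∫ x in a..b, (f x) ^ 2) - m * I := by rw [h6] at h0; linarith
  have h5 : I ^ 2 = (b - a) * (m * I) := by rw [← h3]; ring
  rw [h5]
  exact mul_le_mul_of_nonneg_left (by linarith) hpos.le

lemma avg_parent {u : ℝ → ℝ} (hu : Continuous u) (j q : ℕ) :
    avg u j q = (1 / 4) * (avg u (j + 1) (4 * q) + avg u (j + 1) (4 * q + 1)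
      + avg u (j + 1) (4 * q + 2) + avg u (j + 1) (4 * q + 3)) := by
  unfold avg
  have hi : ∀ a b : ℝ, IntervalIntegrable u volume a b := fun a b => hu.intervalIntegrable a b
  have e : ∀ t : ℝ, t / 4 ^ (j + 1) = (t / 4) / 4 ^ j := fun t => by
    rw [pow_succ]; field_simp
  have hp : (0 : ℝ) < 4 ^ j := by positivity
  push_cast
  have e0 : (4 * (q : ℝ)) / 4 ^ (j + 1) = (q : ℝ) / 4 ^ j := by rw [e]; congr 1; ring
  have e4 : (4 * (q : ℝ) + 3 + 1) / 4 ^ (j + 1) = ((q : ℝ) + 1) / 4 ^ j := by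
    rw [e]; congr 1; ring
  have e12 : (4 * (q : ℝ) + 1 + 1) = 4 * (q : ℝ) + 2 := by ring
  have e23 : (4 * (q : ℝ) + 2 + 1) = 4 * (q : ℝ) + 3 := by ring
  rw [e0, e4, e12, e23]
  have h1 := intervalIntegral.integral_add_adjacent_intervals
    (hi ((q : ℝ) / 4 ^ j) ((4 * (q : ℝ) + 1) / 4 ^ (j + 1)))
    (hi ((4 * (q : ℝ) + 1) / 4 ^ (j + 1)) ((4 * (q : ℝ) + 2) / 4 ^ (j + 1)))
  have h2 := intervalIntegral.integral_add_adjacent_intervals
    (hi ((q : ℝ) / 4 ^ j) ((4 * (q : ℝ) + 2) / 4 ^ (j + 1)))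
    (hi ((4 * (q : ℝ) + 2) / 4 ^ (j + 1)) ((4 * (q : ℝ) + 3) / 4 ^ (j + 1)))
  have h3 := intervalIntegral.integral_add_adjacent_intervals
    (hi ((q : ℝ) / 4 ^ j) ((4 * (q : ℝ) + 3) / 4 ^ (j + 1)))
    (hi ((4 * (q : ℝ) + 3) / 4 ^ (j + 1)) (((q : ℝ) + 1) / 4 ^ j))
  rw [← h3, ← h2, ← h1, pow_succ]
  ring

lemma avg_diff {u : ℝ → ℝ} (hu : Continuous u) (j v : ℕ) :
    (avg u j (v + 1) - avg u j v) ^ 2 ≤ 4 ^ j *
      ∫ x in ((v : ℝ) / 4 ^ j)..(((v : ℝ) + 1) / 4 ^ j), (u (x + 1 / 4 ^ j) - u x) ^ 2 := by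
  have hp : (0 : ℝ) < 4 ^ j := by positivity
  have h1 : avg u j (v + 1) - avg u j v = 4 ^ j *
      ∫ x in ((v : ℝ) / 4 ^ j)..(((v : ℝ) + 1) / 4 ^ j), (u (x + 1 / 4 ^ j) - u x) := by
    rw [intervalIntegral.integral_sub
      ((by fun_prop : Continuous fun x => u (x + 1 / 4 ^ j)).intervalIntegrable _ _)
      (hu.intervalIntegrable _ _)]
    rw [intervalIntegral.integral_comp_add_right]
    unfold avg
    have e1 : (v : ℝ) / 4 ^ j + 1 / 4 ^ j = ((v : ℝ) + 1) / 4 ^ j := by ring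
    have e2 : ((v : ℝ) + 1) / 4 ^ j + 1 / 4 ^ j = ((v : ℝ) + 1 + 1) / 4 ^ j := by ring
    rw [e1, e2]
    push_cast
    ring
  rw [h1, mul_pow]
  have h2 := cs (f := fun x => u (x + 1 / 4 ^ j) - u x) (by fun_prop)
    (show (v : ℝ) / 4 ^ j < ((v : ℝ) + 1) / 4 ^ j by gcongr; linarith)
  have h3 : ((v : ℝ) + 1) / 4 ^ j - (v : ℝ) / 4 ^ j = 1 / 4 ^ j := by ring
  rw [h3] at h2
  calc ((4 : ℝ) ^ j) ^ 2 * (∫ x in ((v : ℝ) / 4 ^ j)..(((v : ℝ) + 1) / 4 ^ j),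
        (u (x + 1 / 4 ^ j) - u x)) ^ 2
      ≤ ((4 : ℝ) ^ j) ^ 2 * (1 / 4 ^ j * ∫ x in ((v : ℝ) / 4 ^ j)..(((v : ℝ) + 1) / 4 ^ j),
        (u (x + 1 / 4 ^ j) - u x) ^ 2) := mul_le_mul_of_nonneg_left h2 (by positivity)
    _ = _ := by field_simp

lemma quad (a b c : ℝ) :
    (-(3 * a + 2 * b + c) / 4) ^ 2 ≤ 3 * (a ^ 2 + b ^ 2 + c ^ 2) ∧
    ((a - 2 * b - c) / 4) ^ 2 ≤ 3 * (a ^ 2 + b ^ 2 + c ^ 2) ∧
    ((a + 2 * b - c) / 4) ^ 2 ≤ 3 * (a ^ 2 + b ^ 2 + c ^ 2) ∧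
    ((a + 2 * b + 3 * c) / 4) ^ 2 ≤ 3 * (a ^ 2 + b ^ 2 + c ^ 2) := by
  refine ⟨?_, ?_, ?_, ?_⟩
  · nlinarith [sq_nonneg (2 * a - 3 * b), sq_nonneg (a - 3 * c), sq_nonneg (b - 2 * c),
      sq_nonneg a, sq_nonneg b, sq_nonneg c]
  · nlinarith [sq_nonneg (2 * a + b), sq_nonneg (a + c), sq_nonneg (b - 2 * c),
      sq_nonneg a, sq_nonneg b, sq_nonneg c]
  · nlinarith [sq_nonneg (2 * a - b), sq_nonneg (a + c), sq_nonneg (b + 2 * c),
      sq_nonneg a, sq_nonneg b, sq_nonneg c]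
  · nlinarith [sq_nonneg (2 * a - b), sq_nonneg (3 * a - c), sq_nonneg (3 * b - 2 * c),
      sq_nonneg a, sq_nonneg b, sq_nonneg c]

/-- the difference between a child average and the parent average -/
noncomputable def gap (u : ℝ → ℝ) (j v : ℕ) : ℝ := |avg u (j + 1) v - avg u j (v / 4)|

lemma gap_sq {u : ℝ → ℝ} (hu : Continuous u) (j v : ℕ) :
    (gap u j v) ^ 2 ≤ 3 * 4 ^ (j + 1) *
      ∫ x in (((v / 4 : ℕ) : ℝ) / 4 ^ j)..((((v / 4 : ℕ) : ℝ) + 1) / 4 ^ j),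
        (u (x + 1 / 4 ^ (j + 1)) - u x) ^ 2 := by
  set q := v / 4 with hq
  set f : ℝ → ℝ := fun x => (u (x + 1 / 4 ^ (j + 1)) - u x) ^ 2 with hf
  have hfc : Continuous f := by rw [hf]; fun_prop
  have hi : ∀ a b : ℝ, IntervalIntegrable f volume a b := fun a b => hfc.intervalIntegrable a b
  have hd : ∀ i : ℕ, (avg u (j + 1) (4 * q + i + 1) - avg u (j + 1) (4 * q + i)) ^ 2 ≤
      4 ^ (j + 1) * ∫ x in ((4 * (q : ℝ) + i) / 4 ^ (j + 1))..((4 * (q : ℝ) + i + 1) / 4 ^ (j + 1)),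
        f x := by
    intro i
    have := avg_diff hu (j + 1) (4 * q + i)
    push_cast at this
    exact this
  have e : ∀ t : ℝ, t / 4 ^ (j + 1) = (t / 4) / 4 ^ j := fun t => by
    rw [pow_succ]; field_simp
  have d0 := hd 0
  have d1 := hd 1
  have d2 := hd 2
  push_cast at d0 d1 d2
  rw [add_zero, add_zero] at d0
  have e12 : (4 * (q : ℝ) + 1 + 1) = 4 * (q : ℝ) + 2 := by ring
  have e23 : (4 * (q : ℝ) + 2 + 1) = 4 * (q : ℝ) + 3 := by ring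
  rw [e12] at d1
  rw [e23] at d2
  have h1 := intervalIntegral.integral_add_adjacent_intervals
    (hi ((4 * (q : ℝ)) / 4 ^ (j + 1)) ((4 * (q : ℝ) + 1) / 4 ^ (j + 1)))
    (hi ((4 * (q : ℝ) + 1) / 4 ^ (j + 1)) ((4 * (q : ℝ) + 2) / 4 ^ (j + 1)))
  have h2 := intervalIntegral.integral_add_adjacent_intervals
    (hi ((4 * (q : ℝ)) / 4 ^ (j + 1)) ((4 * (q : ℝ) + 2) / 4 ^ (j + 1)))
    (hi ((4 * (q : ℝ) + 2) / 4 ^ (j + 1)) ((4 * (q : ℝ) + 3) / 4 ^ (j + 1)))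
  have h3 := intervalIntegral.integral_add_adjacent_intervals
    (hi ((4 * (q : ℝ)) / 4 ^ (j + 1)) ((4 * (q : ℝ) + 3) / 4 ^ (j + 1)))
    (hi ((4 * (q : ℝ) + 3) / 4 ^ (j + 1)) ((4 * (q : ℝ) + 4) / 4 ^ (j + 1)))
  have h4 : 0 ≤ ∫ x in ((4 * (q : ℝ) + 3) / 4 ^ (j + 1))..((4 * (q : ℝ) + 4) / 4 ^ (j + 1)), f x :=
    intervalIntegral.integral_nonneg (by gcongr; linarith) (fun x _ => by rw [hf]; positivity)
  have e0 : (4 * (q : ℝ)) / 4 ^ (j + 1) = (q : ℝ) / 4 ^ j := by rw [e]; congr 1; ring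
  have e4 : (4 * (q : ℝ) + 4) / 4 ^ (j + 1) = ((q : ℝ) + 1) / 4 ^ j := by
    rw [e]; congr 1; ring
  rw [e0] at h1 h2 h3 d0
  rw [e4] at h3 h4
  set A0 := avg u (j + 1) (4 * q) with hA0
  set A1 := avg u (j + 1) (4 * q + 1) with hA1
  set A2 := avg u (j + 1) (4 * q + 2) with hA2
  set A3 := avg u (j + 1) (4 * q + 3) with hA3
  have hpar : avg u j q = (1 / 4) * (A0 + A1 + A2 + A3) := avg_parent hu j q
  have hv : avg u (j + 1) v = A0 ∨ avg u (j + 1) v = A1 ∨ avg u (j + 1) v = A2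
      ∨ avg u (j + 1) v = A3 := by
    have hdm := Nat.div_add_mod v 4
    have hlt := Nat.mod_lt v (show 0 < 4 by norm_num)
    rw [← hq] at hdm
    have h5 : v = 4 * q ∨ v = 4 * q + 1 ∨ v = 4 * q + 2 ∨ v = 4 * q + 3 := by omega
    rcases h5 with h | h | h | h
    · left; rw [hA0, ← h]
    · right; left; rw [hA1, ← h]
    · right; right; left; rw [hA2, ← h]
    · right; right; right; rw [hA3, ← h]
  have hbound : (gap u j v) ^ 2 ≤ 3 * ((A1 - A0) ^ 2 + (A2 - A1) ^ 2 + (A3 - A2) ^ 2) := by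
    unfold gap
    rw [sq_abs, ← hq, hpar]
    have hq0 := quad (A1 - A0) (A2 - A1) (A3 - A2)
    rcases hv with h | h | h | h <;> rw [h]
    · convert hq0.1 using 2; ring
    · convert hq0.2.1 using 2; ring
    · convert hq0.2.2.1 using 2; ring
    · convert hq0.2.2.2 using 2; ring
  refine hbound.trans ?_
  have hp : (0 : ℝ) < 4 ^ (j + 1) := by positivity
  rw [← h3, ← h2, ← h1]
  nlinarith [mul_nonneg hp.le h4]

lemma sum_div_four (F : ℕ → ℝ) (n : ℕ) :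
    ∑ v ∈ range (4 * n), F (v / 4) = 4 * ∑ q ∈ range n, F q := by
  induction n with
  | zero => simp
  | succ n ih =>
    rw [show 4 * (n + 1) = 4 * n + 1 + 1 + 1 + 1 by ring, sum_range_succ, sum_range_succ,
      sum_range_succ, sum_range_succ, ih, sum_range_succ]
    have h0 : 4 * n / 4 = n := by omega
    have h1 : (4 * n + 1) / 4 = n := by omega
    have h2 : (4 * n + 1 + 1) / 4 = n := by omega
    have h3 : (4 * n + 1 + 1 + 1) / 4 = n := by omega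
    rw [h0, h1, h2, h3]
    ring

lemma sum_gap_sq {u : ℝ → ℝ} (hu : Continuous u) (j : ℕ) :
    ∑ v ∈ range (4 ^ (j + 1)), (gap u j v) ^ 2 ≤ 12 * 4 ^ (j + 1) *
      ∫ x in (0 : ℝ)..1, (u (x + 1 / 4 ^ (j + 1)) - u x) ^ 2 := by
  set f : ℝ → ℝ := fun x => (u (x + 1 / 4 ^ (j + 1)) - u x) ^ 2 with hf
  have hfc : Continuous f := by rw [hf]; fun_prop
  set F : ℕ → ℝ := fun q : ℕ =>
    3 * 4 ^ (j + 1) * ∫ x in ((q : ℝ) / 4 ^ j)..(((q : ℝ) + 1) / 4 ^ j), f x with hF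
  have h1 : ∑ v ∈ range (4 ^ (j + 1)), (gap u j v) ^ 2 ≤ ∑ v ∈ range (4 * 4 ^ j), F (v / 4) := by
    rw [← pow_succ']
    exact sum_le_sum fun v _ => gap_sq hu j v
  refine h1.trans (le_of_eq ?_)
  rw [sum_div_four F, hF]
  simp only
  rw [← mul_sum]
  have h2 := intervalIntegral.sum_integral_adjacent_intervals (μ := volume) (f := f)
    (a := fun k : ℕ => (k : ℝ) / 4 ^ j) (n := 4 ^ j) (fun k _ => hfc.intervalIntegrable _ _)
  push_cast at h2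
  rw [h2, zero_div, div_self (by positivity)]
  ring

/-- weighted sum of gaps over a word set -/
lemma sum_gap_words {u : ℝ → ℝ} (hu : Continuous u) {a : ℕ} {X : Finset ℕ} (hX : Good 4 a X)
    (j : ℕ) (hj : j + 1 ≤ a) {W : ℝ}
    (hW : ∫ x in (0 : ℝ)..1, (u (x + 1 / 4 ^ (j + 1)) - u x) ^ 2 ≤ W ^ 2) (hW0 : 0 ≤ W) :
    ∑ c ∈ X, gap u j (c / 4 ^ (a - (j + 1))) ≤ 2 ^ a * (7 * (Real.sqrt (2 ^ (j + 1)) * W)) := by
  have h1 : ∑ c ∈ X, gap u j (c / 4 ^ (a - (j + 1)))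
      = ∑ v ∈ range (4 ^ (j + 1)), (cnt a X (j + 1) v : ℝ) * gap u j v := by
    have hmaps : ∀ c ∈ X, c / 4 ^ (a - (j + 1)) ∈ range (4 ^ (j + 1)) := fun c hc =>
      mem_range.2 (prefix_lt hj (hX.lt c hc))
    rw [← sum_fiberwise_of_maps_to hmaps]
    refine sum_congr rfl fun v _ => ?_
    unfold cnt
    rw [← nsmul_eq_mul]
    refine sum_eq_card_nsmul ?_ 
    intro c hc
    rw [(mem_filter.1 hc).2]
  rw [h1]
  have h2 := sum_mul_sq_le_sq_mul_sq (range (4 ^ (j + 1)))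
    (fun v => (cnt a X (j + 1) v : ℝ)) (fun v => gap u j v)
  have h3 := sum_gap_sq hu j
  have h4 : (∑ v ∈ range (4 ^ (j + 1)), (cnt a X (j + 1) v : ℝ) ^ 2) * 2 ^ (j + 1)
      ≤ 4 * 4 ^ a := by
    have := hX.energy (j + 1) hj
    unfold en at this
    exact_mod_cast this
  set E := ∑ v ∈ range (4 ^ (j + 1)), (cnt a X (j + 1) v : ℝ) ^ 2 with hE
  have hE0 : 0 ≤ E := sum_nonneg fun v _ => by positivity
  have h2p : (0 : ℝ) < 2 ^ (j + 1) := by positivity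
  have hsq : Real.sqrt (2 ^ (j + 1)) ^ 2 = 2 ^ (j + 1) := Real.sq_sqrt h2p.le
  have h44 : (4 : ℝ) ^ (j + 1) = 2 ^ (j + 1) * 2 ^ (j + 1) := by rw [← mul_pow]; norm_num
  have h4a : (4 : ℝ) ^ a = 2 ^ a * 2 ^ a := by rw [← mul_pow]; norm_num
  have h5 : (∑ v ∈ range (4 ^ (j + 1)), (cnt a X (j + 1) v : ℝ) * gap u j v) ^ 2
      ≤ (2 ^ a * (7 * (Real.sqrt (2 ^ (j + 1)) * W))) ^ 2 := by
    refine h2.trans ?_
    calc E * ∑ v ∈ range (4 ^ (j + 1)), (gap u j v) ^ 2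
        ≤ E * (12 * 4 ^ (j + 1) * W ^ 2) := by
          refine mul_le_mul_of_nonneg_left (h3.trans ?_) hE0
          exact mul_le_mul_of_nonneg_left hW (by positivity)
      _ = (E * 2 ^ (j + 1)) * (12 * 2 ^ (j + 1) * W ^ 2) := by rw [h44]; ring
      _ ≤ (4 * 4 ^ a) * (12 * 2 ^ (j + 1) * W ^ 2) :=
          mul_le_mul_of_nonneg_right h4 (by positivity)
      _ = 48 * ((2 ^ a) ^ 2 * 2 ^ (j + 1) * W ^ 2) := by rw [h4a]; ring
      _ ≤ 49 * ((2 ^ a) ^ 2 * 2 ^ (j + 1) * W ^ 2) := by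
          have : 0 ≤ (2 ^ a) ^ 2 * 2 ^ (j + 1) * W ^ 2 := by positivity
          linarith
      _ = (2 ^ a * (7 * (Real.sqrt (2 ^ (j + 1)) * W))) ^ 2 := by
          rw [mul_pow, mul_pow, mul_pow, hsq]; ring
  exact le_of_sq_le_sq h5 (by positivity)

/-- the main telescoping bound -/
theorem sum_avg_le {u : ℝ → ℝ} (hu : Continuous u) {a : ℕ} {X : Finset ℕ} (hX : Good 4 a X)
    (W : ℕ → ℝ) (hW : ∀ j, ∫ x in (0 : ℝ)..1, (u (x + 1 / 4 ^ (j + 1)) - u x) ^ 2 ≤ W j ^ 2)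
    (hW0 : ∀ j, 0 ≤ W j) :
    ∑ c ∈ X, avg u a c ≤ 2 ^ a * (|avg u 0 0| +
      ∑ j ∈ range a, 7 * (Real.sqrt (2 ^ (j + 1)) * W j)) := by
  have hgoal : ∀ i ≤ a, ∑ c ∈ X, avg u i (c / 4 ^ (a - i)) ≤ 2 ^ a * (|avg u 0 0| +
      ∑ j ∈ range i, 7 * (Real.sqrt (2 ^ (j + 1)) * W j)) := by
    intro i
    induction i with
    | zero =>
      intro _
      simp only [range_zero, sum_empty, add_zero]
      have h0 : ∀ c ∈ X, avg u 0 (c / 4 ^ (a - 0)) ≤ |avg u 0 0| := by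
        intro c hc
        rw [Nat.sub_zero, Nat.div_eq_of_lt (hX.lt c hc)]
        exact le_abs_self _
      refine (sum_le_card_nsmul _ _ _ h0).trans ?_
      rw [nsmul_eq_mul]
      refine mul_le_mul_of_nonneg_right ?_ (abs_nonneg _)
      exact_mod_cast hX.card_le
    | succ i ih =>
      intro hi
      have ih' := ih (by omega)
      have hs := sum_gap_words hu hX i hi (hW i) (hW0 i)
      have h1 : ∀ c ∈ X, avg u (i + 1) (c / 4 ^ (a - (i + 1)))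
          ≤ avg u i (c / 4 ^ (a - i)) + gap u i (c / 4 ^ (a - (i + 1))) := by
        intro c _
        have h2 : c / 4 ^ (a - i) = c / 4 ^ (a - (i + 1)) / 4 := by
          rw [Nat.div_div_eq_div_mul, ← pow_succ]
          congr 2; omega
        rw [h2]
        unfold gap
        have := le_abs_self (avg u (i + 1) (c / 4 ^ (a - (i + 1)))
          - avg u i (c / 4 ^ (a - (i + 1)) / 4))
        linarith
      have h3 := sum_le_sum h1
      rw [sum_add_distrib] at h3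
      rw [sum_range_succ]
      have h4 : (2 : ℝ) ^ a * (|avg u 0 0| + (∑ j ∈ range i, 7 * (Real.sqrt (2 ^ (j + 1)) * W j)
          + 7 * (Real.sqrt (2 ^ (i + 1)) * W i)))
          = 2 ^ a * (|avg u 0 0| + ∑ j ∈ range i, 7 * (Real.sqrt (2 ^ (j + 1)) * W j))
            + 2 ^ a * (7 * (Real.sqrt (2 ^ (i + 1)) * W i)) := by ring
      rw [h4]
      linarith
  have := hgoal a le_rfl
  simpa using this

end Pool.Agent.H806R3.Bes
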