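import Mathlib
import Pool.Agent.H806R3.BesB

/-! # The Besov norm bound -/

set_option autoImplicit false

namespace Pool.Agent.H806R3.Bes

open Finset MeasureTheory
open scoped ENNReal

/-- modulus of continuity in `L²` -/
noncomputable def om (u : ℝ → ℝ) (h : ℝ) : ℝ≥0∞ := eLpNorm (fun x => u (x + h) - u x) 2 volume

/-- the integrand of the Besov seminorm for `α = 1/4`, `p = 2`, `q = 1` -/
noncomputable def ker (u : ℝ → ℝ) (h : ℝ) : ℝ≥0∞ :=
  om u h / ENNReal.ofReal (|h| ^ (1 / 4 : ℝ)) / ENNReal.ofReal |h|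

lemma memLp_shift {u : ℝ → ℝ} (hu : MemLp u 2 volume) (h : ℝ) :
    MemLp (fun x => u (x + h)) 2 volume :=
  hu.comp_measurePreserving (measurePreserving_add_right volume h)

lemma memLp_diff {u : ℝ → ℝ} (hu : MemLp u 2 volume) (h : ℝ) :
    MemLp (fun x => u (x + h) - u x) 2 volume := (memLp_shift hu h).sub hu

lemma om_ne_top {u : ℝ → ℝ} (hu : MemLp u 2 volume) (h : ℝ) : om u h ≠ ⊤ := (memLp_diff hu h).2.ne

lemma sq_toReal_eLpNorm {f : ℝ → ℝ} (hf : MemLp f 2 volume) :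
    (eLpNorm f 2 volume).toReal ^ 2 = ∫ x, (f x) ^ 2 := by
  rw [hf.eLpNorm_eq_integral_rpow_norm (by norm_num) (by norm_num)]
  have h0 : 0 ≤ ∫ x, ‖f x‖ ^ (2 : ℝ≥0∞).toReal := integral_nonneg fun x => by positivity
  rw [ENNReal.toReal_ofReal (by positivity)]
  have e : ((2 : ℝ≥0∞).toReal)⁻¹ = (1 / 2 : ℝ) := by norm_num
  rw [e, ← Real.sqrt_eq_rpow, Real.sq_sqrt h0]
  refine integral_congr_ae (Filter.Eventually.of_forall fun x => ?_)
  simp only [Real.norm_eq_abs]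
  norm_num

lemma setIntegral_le {f : ℝ → ℝ} (hf : MemLp f 2 volume) :
    ∫ x in (0 : ℝ)..1, (f x) ^ 2 ≤ (eLpNorm f 2 volume).toReal ^ 2 := by
  rw [sq_toReal_eLpNorm hf, intervalIntegral.integral_of_le zero_le_one]
  exact setIntegral_le_integral hf.integrable_sq (Filter.Eventually.of_forall fun x => sq_nonneg _)

lemma om_add {u : ℝ → ℝ} (hu : MemLp u 2 volume) (h k : ℝ) : om u (h + k) ≤ om u h + om u k := by
  unfold om
  have e : (fun x => u (x + (h + k)) - u x)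
      = (fun x => u (x + h) - u x) + ((fun y => u (y + k) - u y) ∘ (fun x => x + h)) := by
    funext x
    simp only [Pi.add_apply, Function.comp]
    rw [← add_assoc]; ring
  rw [e]
  refine (eLpNorm_add_le (memLp_diff hu h).1
    ((memLp_diff hu k).comp_measurePreserving (measurePreserving_add_right volume h)).1
    (by norm_num)).trans ?_
  rw [eLpNorm_comp_measurePreserving (memLp_diff hu k).1 (measurePreserving_add_right volume h)]

lemma measurable_om {u : ℝ → ℝ} (hu : Continuous u) : Measurable (om u) := by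
  have e : om u = fun h => (∫⁻ x, ‖u (x + h) - u x‖ₑ ^ (2 : ℝ≥0∞).toReal)
      ^ (1 / (2 : ℝ≥0∞).toReal) := by
    funext h
    unfold om
    rw [eLpNorm_eq_lintegral_rpow_enorm_toReal (by norm_num) (by norm_num)]
  rw [e]
  refine Measurable.pow_const ?_ _
  refine Measurable.lintegral_prod_right' (f := fun p : ℝ × ℝ =>
    ‖u (p.2 + p.1) - u p.2‖ₑ ^ (2 : ℝ≥0∞).toReal) ?_
  have : Measurable u := hu.measurable
  fun_prop

lemma om_avg {u : ℝ → ℝ} (hu : Continuous u) (hm : MemLp u 2 volume) {δ : ℝ} (hδ : 0 < δ) :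
    om u δ * ENNReal.ofReal (δ / 2) ≤ 2 * ∫⁻ h in Set.Ioo (δ / 4) (3 * δ / 4), om u h := by
  have h1 : ∫⁻ _ in Set.Ioo (δ / 4) (3 * δ / 4), om u δ = om u δ * ENNReal.ofReal (δ / 2) := by
    rw [setLIntegral_const, Real.volume_Ioo]
    congr 2; ring
  rw [← h1]
  have h2 : ∫⁻ _ in Set.Ioo (δ / 4) (3 * δ / 4), om u δ
      ≤ ∫⁻ h in Set.Ioo (δ / 4) (3 * δ / 4), (om u h + om u (δ - h)) := by
    refine lintegral_mono fun h => ?_
    have := om_add hm h (δ - h)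
    rwa [add_sub_cancel] at this
  refine h2.trans ?_
  rw [lintegral_add_left (measurable_om hu)]
  have h3 : ∫⁻ h in Set.Ioo (δ / 4) (3 * δ / 4), om u (δ - h)
      = ∫⁻ h in Set.Ioo (δ / 4) (3 * δ / 4), om u h := by
    have h4 := (Measure.measurePreserving_sub_left (volume : Measure ℝ) δ).setLIntegral_comp_preimage
      (measurableSet_Ioo (a := δ / 4) (b := 3 * δ / 4)) (measurable_om hu)
    have h5 : (fun x : ℝ => δ - x) ⁻¹' Set.Ioo (δ / 4) (3 * δ / 4)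
        = Set.Ioo (δ / 4) (3 * δ / 4) := by
      ext x
      simp only [Set.mem_preimage, Set.mem_Ioo]
      constructor <;> rintro ⟨a, b⟩ <;> constructor <;> linarith
    rw [h5] at h4
    exact h4
  rw [h3, two_mul]

lemma om_le_ker (u : ℝ → ℝ) {h δ : ℝ} (h0 : 0 < h) (hδ : h ≤ δ) :
    om u h ≤ ENNReal.ofReal (δ ^ (1 / 4 : ℝ)) * ENNReal.ofReal δ * ker u h := by
  unfold ker
  have e1 : ENNReal.ofReal (|h| ^ (1 / 4 : ℝ)) ≠ 0 := by
    rw [abs_of_pos h0]; exact (ENNReal.ofReal_pos.2 (by positivity)).ne'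
  have e2 : ENNReal.ofReal |h| ≠ 0 := by
    rw [abs_of_pos h0]; exact (ENNReal.ofReal_pos.2 h0).ne'
  have h1 : om u h = ENNReal.ofReal (|h| ^ (1 / 4 : ℝ)) * ENNReal.ofReal |h| *
      (om u h / ENNReal.ofReal (|h| ^ (1 / 4 : ℝ)) / ENNReal.ofReal |h|) := by
    rw [mul_assoc, ENNReal.mul_div_cancel e2 ENNReal.ofReal_ne_top,
      ENNReal.mul_div_cancel e1 ENNReal.ofReal_ne_top]
  calc om u h = _ := h1
    _ ≤ _ := by
      refine mul_le_mul_left ?_ _
      rw [abs_of_pos h0]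
      exact mul_le_mul' (ENNReal.ofReal_le_ofReal (Real.rpow_le_rpow h0.le hδ (by norm_num)))
        (ENNReal.ofReal_le_ofReal hδ)

lemma sqrt_rpow (k : ℕ) : Real.sqrt (2 ^ k) * ((1 / 4 ^ k : ℝ) ^ (1 / 4 : ℝ)) = 1 := by
  have h1 : (1 / 4 ^ k : ℝ) = (1 / 2 ^ k) ^ (2 : ℝ) := by
    rw [Real.rpow_two, div_pow, one_pow, ← pow_mul, mul_comm, pow_mul]; norm_num
  rw [h1, ← Real.rpow_mul (by positivity), Real.sqrt_eq_rpow]
  have h2 : (2 : ℝ) * (1 / 4) = 1 / 2 := by norm_num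
  rw [h2, ← Real.mul_rpow (by positivity) (by positivity), mul_one_div_cancel (by positivity),
    Real.one_rpow]

lemma term_le {u : ℝ → ℝ} (hu : Continuous u) (hm : MemLp u 2 volume) (k : ℕ) :
    ENNReal.ofReal (Real.sqrt (2 ^ k)) * om u (1 / 4 ^ k)
      ≤ 4 * ∫⁻ h in Set.Ioo (1 / 4 ^ (k + 1) : ℝ) (1 / 4 ^ k), ker u h := by
  set δ : ℝ := 1 / 4 ^ k with hδ
  have hδ0 : 0 < δ := by rw [hδ]; positivity
  have e4 : (1 / 4 ^ (k + 1) : ℝ) = δ / 4 := by rw [hδ, pow_succ]; field_simp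
  rw [e4]
  have h1 := om_avg hu hm hδ0
  have h2 : ∫⁻ h in Set.Ioo (δ / 4) (3 * δ / 4), om u h
      ≤ ENNReal.ofReal (δ ^ (1 / 4 : ℝ)) * ENNReal.ofReal δ *
        ∫⁻ h in Set.Ioo (δ / 4) δ, ker u h := by
    rw [← lintegral_const_mul' _ _ (ENNReal.mul_ne_top ENNReal.ofReal_ne_top ENNReal.ofReal_ne_top)]
    calc ∫⁻ h in Set.Ioo (δ / 4) (3 * δ / 4), om u h
        ≤ ∫⁻ h in Set.Ioo (δ / 4) (3 * δ / 4),
          ENNReal.ofReal (δ ^ (1 / 4 : ℝ)) * ENNReal.ofReal δ * ker u h := by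
          refine setLIntegral_mono' measurableSet_Ioo fun h hh => ?_
          exact om_le_ker u (by have := hh.1; linarith) (by have := hh.2; linarith)
      _ ≤ _ := lintegral_mono_set (Set.Ioo_subset_Ioo le_rfl (by linarith))
  set J := ∫⁻ h in Set.Ioo (δ / 4) δ, ker u h with hJ
  have h3 : ENNReal.ofReal (Real.sqrt (2 ^ k)) * ENNReal.ofReal (δ ^ (1 / 4 : ℝ)) = 1 := by
    rw [← ENNReal.ofReal_mul (Real.sqrt_nonneg _), sqrt_rpow, ENNReal.ofReal_one]
  have h4 : (ENNReal.ofReal (Real.sqrt (2 ^ k)) * om u δ) * ENNReal.ofReal (δ / 2)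
      ≤ (4 * J) * ENNReal.ofReal (δ / 2) := by
    calc (ENNReal.ofReal (Real.sqrt (2 ^ k)) * om u δ) * ENNReal.ofReal (δ / 2)
        = ENNReal.ofReal (Real.sqrt (2 ^ k)) * (om u δ * ENNReal.ofReal (δ / 2)) := by ring
      _ ≤ ENNReal.ofReal (Real.sqrt (2 ^ k)) *
          (2 * (ENNReal.ofReal (δ ^ (1 / 4 : ℝ)) * ENNReal.ofReal δ * J)) := by
          exact mul_le_mul' le_rfl (h1.trans (mul_le_mul' le_rfl h2))
      _ = (ENNReal.ofReal (Real.sqrt (2 ^ k)) * ENNReal.ofReal (δ ^ (1 / 4 : ℝ))) *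
          (2 * ENNReal.ofReal δ * J) := by ring
      _ = 2 * ENNReal.ofReal δ * J := by rw [h3, one_mul]
      _ = (4 * J) * ENNReal.ofReal (δ / 2) := by
          have : ENNReal.ofReal δ = 2 * ENNReal.ofReal (δ / 2) := by
            rw [← ENNReal.ofReal_ofNat 2, ← ENNReal.ofReal_mul (by norm_num)]
            congr 1; ring
          rw [this]; ring
  have h5 : ENNReal.ofReal (δ / 2) ≠ 0 := (ENNReal.ofReal_pos.2 (by positivity)).ne'
  exact (ENNReal.mul_le_mul_iff_left h5 ENNReal.ofReal_ne_top).1 h4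

lemma sum_term_le {u : ℝ → ℝ} (hu : Continuous u) (hm : MemLp u 2 volume) (a : ℕ) :
    ∑ j ∈ range a, ENNReal.ofReal (Real.sqrt (2 ^ (j + 1))) * om u (1 / 4 ^ (j + 1))
      ≤ 4 * ∫⁻ h, ker u h := by
  calc ∑ j ∈ range a, ENNReal.ofReal (Real.sqrt (2 ^ (j + 1))) * om u (1 / 4 ^ (j + 1))
      ≤ ∑ j ∈ range a, 4 * ∫⁻ h in Set.Ioo (1 / 4 ^ (j + 1 + 1) : ℝ) (1 / 4 ^ (j + 1)), ker u h :=
        sum_le_sum fun j _ => term_le hu hm (j + 1)
    _ = 4 * ∑ j ∈ range a, ∫⁻ h in Set.Ioo (1 / 4 ^ (j + 1 + 1) : ℝ) (1 / 4 ^ (j + 1)), ker u h := by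
        rw [mul_sum]
    _ ≤ 4 * ∫⁻ h, ker u h := by
        refine mul_le_mul' le_rfl ?_
        rw [← lintegral_biUnion_finset (μ := volume) (s := range a)
          (t := fun j : ℕ => Set.Ioo (1 / 4 ^ (j + 1 + 1) : ℝ) (1 / 4 ^ (j + 1)))
          ?_ (fun j _ => measurableSet_Ioo)]
        · exact setLIntegral_le_lintegral _ _
        · intro i _ j _ hij
          wlog hlt : i < j generalizing i j
          · exact (this ‹_› ‹_› hij.symm (by omega)).symm
          simp only [Function.onFun]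
          rw [Set.disjoint_left]
          rintro x ⟨h1, h2⟩ ⟨h3, h4⟩
          have h5 : (1 / 4 ^ (j + 1) : ℝ) ≤ 1 / 4 ^ (i + 1 + 1) := by
            apply one_div_le_one_div_of_le (by positivity)
            exact pow_le_pow_right₀ (by norm_num) (by omega)
          linarith

/-- The main estimate. -/
theorem quarter_le {u : ℝ → ℝ} (hu : Continuous u) (hm : MemLp u 2 volume) {a : ℕ} {X : Finset ℕ}
    (hX : Good 4 a X) (hcard : (2 : ℝ) ^ a ≤ 2 * X.card) (havg : ∀ c ∈ X, 1 / 2 ≤ avg u a c) :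
    ENNReal.ofReal (1 / 4) ≤ 28 * (eLpNorm u 2 volume + ∫⁻ h, ker u h) := by
  set W : ℕ → ℝ := fun j => (om u (1 / 4 ^ (j + 1))).toReal with hW
  have h1 := sum_avg_le hu hX W (fun j => by
    rw [hW]
    exact setIntegral_le (memLp_diff hm _)) (fun j => ENNReal.toReal_nonneg)
  have h2 : (X.card : ℝ) * (1 / 2) ≤ ∑ c ∈ X, avg u a c := by
    have := card_nsmul_le_sum X _ _ havg
    rwa [nsmul_eq_mul] at this
  have hp : (0 : ℝ) < 2 ^ a := by positivity
  have h3 : 1 / 4 ≤ |avg u 0 0| + ∑ j ∈ range a, 7 * (Real.sqrt (2 ^ (j + 1)) * W j) := by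
    have h4 : 2 ^ a * (1 / 4) ≤ 2 ^ a * (|avg u 0 0|
        + ∑ j ∈ range a, 7 * (Real.sqrt (2 ^ (j + 1)) * W j)) := by linarith
    exact le_of_mul_le_mul_left h4 hp
  have h5 : ENNReal.ofReal |avg u 0 0| ≤ eLpNorm u 2 volume := by
    have h6 := cs hu (zero_lt_one (α := ℝ))
    rw [sub_zero, one_mul] at h6
    have h7 : (avg u 0 0) ^ 2 ≤ (eLpNorm u 2 volume).toReal ^ 2 := by
      refine le_trans ?_ (setIntegral_le hm)
      unfold avg
      simpa using h6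
    have h8 := abs_le_of_sq_le_sq h7 ENNReal.toReal_nonneg
    rw [← ENNReal.ofReal_toReal hm.2.ne]
    exact ENNReal.ofReal_le_ofReal h8
  have h6 : ENNReal.ofReal (∑ j ∈ range a, 7 * (Real.sqrt (2 ^ (j + 1)) * W j))
      ≤ 28 * ∫⁻ h, ker u h := by
    rw [ENNReal.ofReal_sum_of_nonneg (fun j _ => by positivity)]
    calc ∑ j ∈ range a, ENNReal.ofReal (7 * (Real.sqrt (2 ^ (j + 1)) * W j))
        = 7 * ∑ j ∈ range a, ENNReal.ofReal (Real.sqrt (2 ^ (j + 1))) * om u (1 / 4 ^ (j + 1)) := by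
          rw [mul_sum]
          refine sum_congr rfl fun j _ => ?_
          rw [ENNReal.ofReal_mul (by norm_num), ENNReal.ofReal_mul (Real.sqrt_nonneg _), hW,
            ENNReal.ofReal_toReal (om_ne_top hm _)]
          norm_num
      _ ≤ 7 * (4 * ∫⁻ h, ker u h) := mul_le_mul' le_rfl (sum_term_le hu hm a)
      _ = 28 * ∫⁻ h, ker u h := by rw [← mul_assoc]; norm_num
  calc ENNReal.ofReal (1 / 4)
      ≤ ENNReal.ofReal (|avg u 0 0| + ∑ j ∈ range a, 7 * (Real.sqrt (2 ^ (j + 1)) * W j)) :=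
        ENNReal.ofReal_le_ofReal h3
    _ = ENNReal.ofReal |avg u 0 0|
        + ENNReal.ofReal (∑ j ∈ range a, 7 * (Real.sqrt (2 ^ (j + 1)) * W j)) :=
        ENNReal.ofReal_add (abs_nonneg _) (sum_nonneg fun j _ => by positivity)
    _ ≤ eLpNorm u 2 volume + 28 * ∫⁻ h, ker u h := add_le_add h5 h6
    _ ≤ 28 * (eLpNorm u 2 volume + ∫⁻ h, ker u h) := by
        rw [mul_add]
        refine add_le_add ?_ le_rfl
        exact le_mul_of_one_le_left bot_le (by norm_num)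

end Pool.Agent.H806R3.Bes
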