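import Mathlib
import Pool.Agent.H806R3.BesA

/-! # The word sets for all exponents `q < 2` -/

set_option autoImplicit false

namespace Pool.Agent.H806R3.Bes

open Finset

/-- stage parameter of epoch `k` -/
def tt (k : ℕ) : ℕ := k + Nat.log 2 (k + 1)

/-- number of stages of epoch `k` -/
def nn (k : ℕ) : ℕ := (k + 2) * 2 ^ tt k

/-- length of epoch `k` -/
def bb (k : ℕ) : ℕ := 1 + lev (tt k) (nn k)

/-- level at the end of epoch `k` -/
def AA : ℕ → ℕ
  | 0 => 0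
  | k + 1 => AA k + bb (k + 1)

/-- word set of epoch `k`: a free letter followed by the stages -/
def ZZ (k : ℕ) : Finset ℕ := cat (lev (tt k) (nn k)) (range 4) (good (tt k) (nn k))

/-- the word sets -/
def XX : ℕ → Finset ℕ
  | 0 => {0}
  | k + 1 => cat (bb (k + 1)) (XX k) (ZZ (k + 1))

lemma AA_strict (k : ℕ) : AA k < AA (k + 1) := by
  rw [AA, bb]; omega

lemma AA_mono : StrictMono AA := strictMono_nat_of_lt_succ AA_strict

lemma le_AA (j : ℕ) : ∃ k, j ≤ AA k := ⟨j, AA_mono.le_apply⟩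

/-- epoch of the level `j` -/
noncomputable def kap (j : ℕ) : ℕ := Nat.find (le_AA j)

lemma kap_le {j k : ℕ} (h : j ≤ AA k) : kap j ≤ k := Nat.find_min' _ h

lemma lt_kap {j k : ℕ} (h : AA k < j) : k + 1 ≤ kap j := by
  by_contra hc
  have h1 : kap j ≤ k := by omega
  have h2 : j ≤ AA (kap j) := Nat.find_spec (le_AA j)
  have h3 : AA (kap j) ≤ AA k := AA_mono.monotone h1
  omega

lemma ZZ_lt (k : ℕ) : ∀ c ∈ ZZ k, c < 4 ^ bb k := by
  unfold ZZ bb
  exact cat_lt (a := 1) (by intro x hx; simpa using mem_range.1 hx) (good_good _ _).lt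

lemma card_ZZ (k : ℕ) : (ZZ k).card = 4 * (good (tt k) (nn k)).card := by
  unfold ZZ
  rw [card_cat (good_good _ _).lt, card_range]

lemma XX_lt (k : ℕ) : ∀ c ∈ XX k, c < 4 ^ AA k := by
  induction k with
  | zero => intro c hc; simp [XX] at hc; subst hc; simp [AA]
  | succ k ih => exact cat_lt ih (ZZ_lt (k + 1))

lemma card_ZZ_le (k : ℕ) : (ZZ k).card ≤ 2 ^ (bb k + 1) := by
  rw [card_ZZ, bb]
  have := (good_good (tt k) (nn k)).card_le
  calc 4 * (good (tt k) (nn k)).card ≤ 4 * 2 ^ lev (tt k) (nn k) := Nat.mul_le_mul_left _ this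
    _ = 2 ^ (1 + lev (tt k) (nn k) + 1) := by rw [pow_succ, pow_add]; ring

lemma card_XX_le (k : ℕ) : (XX k).card ≤ 2 ^ (AA k + k) := by
  induction k with
  | zero => simp [XX, AA]
  | succ k ih =>
    rw [XX, card_cat (ZZ_lt (k + 1)), AA]
    calc (XX k).card * (ZZ (k + 1)).card ≤ 2 ^ (AA k + k) * 2 ^ (bb (k + 1) + 1) :=
          Nat.mul_le_mul ih (card_ZZ_le (k + 1))
      _ = 2 ^ (AA k + bb (k + 1) + (k + 1)) := by rw [← pow_add]; congr 1; omega

lemma energy_XX (k : ℕ) : ∀ j ≤ AA k, en (AA k) (XX k) j * 2 ^ (j + kap j)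
    ≤ 4 * 4 ^ (AA k + k) := by
  induction k with
  | zero =>
    intro j hj
    have h0 : AA 0 = 0 := rfl
    rw [h0] at hj
    obtain rfl : j = 0 := by omega
    have h1 : kap 0 = 0 := Nat.le_zero.1 (kap_le (k := 0) (by simp [AA]))
    rw [h1, h0]
    have : en 0 (XX 0) 0 = 1 := by decide
    rw [this]; norm_num
  | succ k ih =>
    intro j hj
    rw [XX, AA]
    rcases le_total j (AA k) with h | h
    · rw [en_low h (ZZ_lt (k + 1))]
      have h1 := ih j h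
      have h2 : (ZZ (k + 1)).card ^ 2 ≤ 4 ^ (bb (k + 1) + 1) := by
        calc (ZZ (k + 1)).card ^ 2 ≤ (2 ^ (bb (k + 1) + 1)) ^ 2 :=
              Nat.pow_le_pow_left (card_ZZ_le (k + 1)) 2
          _ = 4 ^ (bb (k + 1) + 1) := by rw [← pow_mul, mul_comm, pow_mul]; norm_num
      calc en (AA k) (XX k) j * (ZZ (k + 1)).card ^ 2 * 2 ^ (j + kap j)
          = (en (AA k) (XX k) j * 2 ^ (j + kap j)) * (ZZ (k + 1)).card ^ 2 := by ring
        _ ≤ (4 * 4 ^ (AA k + k)) * 4 ^ (bb (k + 1) + 1) := Nat.mul_le_mul h1 h2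
        _ = 4 * 4 ^ (AA k + bb (k + 1) + (k + 1)) := by
            rw [mul_assoc, ← pow_add]; congr 2; omega
    · rcases Nat.eq_or_lt_of_le h with h' | h'
      · -- `j = AA k`
        subst h'
        rw [en_low le_rfl (ZZ_lt (k + 1))]
        have h1 := ih (AA k) le_rfl
        have h2 : (ZZ (k + 1)).card ^ 2 ≤ 4 ^ (bb (k + 1) + 1) := by
          calc (ZZ (k + 1)).card ^ 2 ≤ (2 ^ (bb (k + 1) + 1)) ^ 2 :=
                Nat.pow_le_pow_left (card_ZZ_le (k + 1)) 2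
            _ = 4 ^ (bb (k + 1) + 1) := by rw [← pow_mul, mul_comm, pow_mul]; norm_num
        calc en (AA k) (XX k) (AA k) * (ZZ (k + 1)).card ^ 2 * 2 ^ (AA k + kap (AA k))
            = (en (AA k) (XX k) (AA k) * 2 ^ (AA k + kap (AA k))) * (ZZ (k + 1)).card ^ 2 := by
              ring
          _ ≤ (4 * 4 ^ (AA k + k)) * 4 ^ (bb (k + 1) + 1) := Nat.mul_le_mul h1 h2
          _ = 4 * 4 ^ (AA k + bb (k + 1) + (k + 1)) := by
              rw [mul_assoc, ← pow_add]; congr 2; omega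
      · obtain ⟨i, rfl⟩ : ∃ i, j = AA k + (1 + i) := ⟨j - AA k - 1, by omega⟩
        have hj2 : 1 + i ≤ bb (k + 1) := by rw [AA] at hj; omega
        rw [en_high hj2 (XX_lt k) (ZZ_lt (k + 1))]
        have hkap := kap_le hj
        set L := lev (tt (k + 1)) (nn (k + 1)) with hL
        set Y := good (tt (k + 1)) (nn (k + 1)) with hY
        have hbb : bb (k + 1) = 1 + L := rfl
        have hi : i ≤ L := by omega
        have hZ : en (bb (k + 1)) (ZZ (k + 1)) (1 + i) = 4 * en L Y i := by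
          rw [hbb, ZZ, en_high hi (a := 1) (by intro x hx; simpa using mem_range.1 hx)
            (good_good _ _).lt, card_range]
        have hG := (good_good (tt (k + 1)) (nn (k + 1))).energy i hi
        rw [hZ, hbb]
        calc (XX k).card * (4 * en L Y i) * 2 ^ (AA k + (1 + i) + kap (AA k + (1 + i)))
            ≤ 2 ^ (AA k + k) * (4 * en L Y i) * 2 ^ (AA k + (1 + i) + (k + 1)) :=
              Nat.mul_le_mul (Nat.mul_le_mul_right _ (card_XX_le k))
                (Nat.pow_le_pow_right (by norm_num) (by omega))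
          _ = (2 ^ (AA k + k) * 2 ^ (AA k + k)) * 16 * (en L Y i * 2 ^ i) := by
              have : AA k + (1 + i) + (k + 1) = (AA k + k) + i + 2 := by omega
              rw [this, pow_add 2 (AA k + k + i), pow_add 2 (AA k + k) i]; ring
          _ ≤ (2 ^ (AA k + k) * 2 ^ (AA k + k)) * 16 * (4 * 4 ^ L) := Nat.mul_le_mul_left _ hG
          _ = 4 * 4 ^ (AA k + (1 + L) + (k + 1)) := by
              have : AA k + (1 + L) + (k + 1) = (AA k + k) + 2 + L := by omega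
              rw [this, pow_add 4 (AA k + k + 2), pow_add 4 (AA k + k) 2, ← mul_pow]; ring

lemma two_pow_lev (m N : ℕ) : (2 : ℝ) ^ lev m N = (2 ^ (m + 2 * m)) ^ N := by
  induction N with
  | zero => simp [lev]
  | succ N ih => rw [lev, pow_add 2, ih, pow_succ, mul_comm]

lemma lev_eq (m N : ℕ) : lev m N = N * (m + 2 * m) := by
  induction N with
  | zero => simp [lev]
  | succ N ih => rw [lev, ih]; ring

lemma card_good_lower (t k : ℕ) : (1 - (1 / 2) ^ k) * (2 : ℝ) ^ lev t (k * 2 ^ t)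
    ≤ ((good t (k * 2 ^ t)).card : ℝ) := by
  have hc' : ((good t (k * 2 ^ t)).card : ℝ) + ((non t).card : ℝ) ^ (k * 2 ^ t)
      = 2 ^ lev t (k * 2 ^ t) := by exact_mod_cast card_good t (k * 2 ^ t)
  have h1 : ((non t).card : ℝ) = 2 ^ (t + 2 * t) - 4 ^ t := by
    have := card_non t
    have h2 : ((non t).card : ℝ) + 4 ^ t = 2 ^ (t + 2 * t) := by exact_mod_cast this
    linarith
  have hp : (0 : ℝ) < 2 ^ t := by positivity
  have h4 : (4 : ℝ) ^ t = 2 ^ t * 2 ^ t := by rw [← mul_pow]; norm_num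
  have h3 : (2 : ℝ) ^ (t + 2 * t) = 2 ^ t * 2 ^ t * 2 ^ t := by
    rw [pow_add, two_mul, pow_add]; ring
  set x : ℝ := 1 / 2 ^ t with hx
  have hx0 : 0 < x := by positivity
  have hx1 : x ≤ 1 := by
    rw [hx, div_le_one hp]; exact one_le_pow₀ (by norm_num)
  have hnon : ((non t).card : ℝ) = (1 - x) * 2 ^ (t + 2 * t) := by
    rw [h1, h3, h4, hx]; field_simp
  have hpow : (1 - x) ^ (2 ^ t) ≤ 1 / 2 := by
    have h5 : (1 - x) ^ (2 ^ t) * (1 + x) ^ (2 ^ t) ≤ 1 := by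
      rw [← mul_pow]
      exact pow_le_one₀ (by nlinarith) (by nlinarith)
    have h6 : 2 ≤ (1 + x) ^ (2 ^ t) := by
      have := one_add_mul_le_pow (show (-2 : ℝ) ≤ x by linarith) (2 ^ t)
      have h7 : ((2 ^ t : ℕ) : ℝ) * x = 1 := by rw [hx]; push_cast; field_simp
      rw [h7] at this
      linarith
    have h8 : 0 ≤ (1 - x) ^ (2 ^ t) := pow_nonneg (by linarith) _
    nlinarith
  have hmain : ((non t).card : ℝ) ^ (k * 2 ^ t) ≤ (1 / 2) ^ k * 2 ^ lev t (k * 2 ^ t) := by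
    rw [hnon, mul_pow, two_pow_lev]
    refine mul_le_mul_of_nonneg_right ?_ (by positivity)
    rw [mul_comm k, pow_mul]
    exact pow_le_pow_left₀ (pow_nonneg (by linarith) _) hpow k
  linarith

lemma card_XX_ge (k : ℕ) : (1 / 2 + (1 / 2) ^ (k + 1)) * (2 : ℝ) ^ (AA k + k)
    ≤ ((XX k).card : ℝ) := by
  induction k with
  | zero => simp [XX, AA]; norm_num
  | succ k ih =>
    rw [XX, card_cat (ZZ_lt (k + 1)), card_ZZ]
    push_cast
    have hg := card_good_lower (tt (k + 1)) (k + 1 + 2)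
    have hnn : (k + 1 + 2) * 2 ^ tt (k + 1) = nn (k + 1) := rfl
    rw [hnn] at hg
    set L := lev (tt (k + 1)) (nn (k + 1)) with hL
    have hAA : AA (k + 1) + (k + 1) = (AA k + k) + (2 + L) := by
      rw [AA, bb]; omega
    rw [hAA, pow_add 2 (AA k + k), pow_add 2 2]
    have h1 : (0 : ℝ) < 2 ^ (AA k + k) := by positivity
    have h2 : (0 : ℝ) < 2 ^ L := by positivity
    have e1 : (1 / 2 : ℝ) ^ (k + 1) = 4 * (1 / 2) ^ (k + 1 + 2) := by
      rw [pow_add (1 / 2 : ℝ) (k + 1) 2]; ring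
    have e2 : (1 / 2 : ℝ) ^ (k + 1 + 1) = 2 * (1 / 2) ^ (k + 1 + 2) := by
      rw [pow_succ (1 / 2 : ℝ) (k + 1 + 1)]; ring
    have e3 : (1 / 2 : ℝ) ^ (k + 1 + 2) ≤ 1 / 8 := by
      calc (1 / 2 : ℝ) ^ (k + 1 + 2) ≤ (1 / 2) ^ 3 :=
            pow_le_pow_of_le_one (by norm_num) (by norm_num) (by omega)
        _ = 1 / 8 := by norm_num
    have e0 : (0 : ℝ) < (1 / 2) ^ (k + 1 + 2) := by positivity
    rw [e1] at ih
    rw [e2]
    set t : ℝ := (1 / 2) ^ (k + 1 + 2)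
    calc (1 / 2 + 2 * t) * (2 ^ (AA k + k) * (2 ^ 2 * 2 ^ L))
        ≤ ((1 / 2 + 4 * t) * 2 ^ (AA k + k)) * (4 * ((1 - t) * 2 ^ L)) := by
          have : (1 / 2 + 2 * t) ≤ (1 / 2 + 4 * t) * (1 - t) := by nlinarith
          calc (1 / 2 + 2 * t) * (2 ^ (AA k + k) * (2 ^ 2 * 2 ^ L))
              ≤ ((1 / 2 + 4 * t) * (1 - t)) * (2 ^ (AA k + k) * (2 ^ 2 * 2 ^ L)) :=
                mul_le_mul_of_nonneg_right this (by positivity)
            _ = ((1 / 2 + 4 * t) * 2 ^ (AA k + k)) * (4 * ((1 - t) * 2 ^ L)) := by ring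
      _ ≤ ((XX k).card : ℝ) * (4 * ((good (tt (k + 1)) (nn (k + 1))).card : ℝ)) := by
          refine mul_le_mul ih (mul_le_mul_of_nonneg_left hg (by norm_num)) ?_ (by positivity)
          have : 0 ≤ 1 - t := by linarith
          positivity

lemma cov_XX (k : ℕ) : Cov (AA (k + 1)) (XX (k + 1)) ((1 / 2) ^ Nat.log 2 (k + 1 + 1)) := by
  have h1 := (cov_good (tt (k + 1)) (nn (k + 1))).cat (a := 1) (X := range 4)
  have h2 := h1.cat (a := AA k) (X := XX k)
  have h3 : Cov (AA (k + 1)) (XX (k + 1)) _ := h2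
  refine h3.mono ?_
  rw [card_range, pow_one, tt]
  have hc : ((XX k).card : ℝ) ≤ 2 ^ (AA k + k) := by exact_mod_cast card_XX_le k
  have e1 : (2 : ℝ) ^ (AA k) * (1 / 2) ^ (AA k) = 1 := by rw [← mul_pow]; norm_num
  have e2 : (2 : ℝ) ^ (k + 1) * (1 / 2) ^ (k + 1) = 1 := by rw [← mul_pow]; norm_num
  have hnn : (0 : ℝ) ≤ (1 / 2) ^ (AA k) * (((4 : ℕ) : ℝ) * (1 / 2) *
    (1 / 2) ^ (k + 1 + Nat.log 2 (k + 1 + 1))) := by positivity
  calc ((XX k).card : ℝ) * (1 / 2) ^ (AA k) * (((4 : ℕ) : ℝ) * (1 / 2) *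
        (1 / 2) ^ (k + 1 + Nat.log 2 (k + 1 + 1)))
      = ((XX k).card : ℝ) * ((1 / 2) ^ (AA k) * (((4 : ℕ) : ℝ) * (1 / 2) *
        (1 / 2) ^ (k + 1 + Nat.log 2 (k + 1 + 1)))) := by ring
    _ ≤ 2 ^ (AA k + k) * ((1 / 2) ^ (AA k) * (((4 : ℕ) : ℝ) * (1 / 2) *
        (1 / 2) ^ (k + 1 + Nat.log 2 (k + 1 + 1)))) := mul_le_mul_of_nonneg_right hc hnn
    _ = ((2 : ℝ) ^ (AA k) * (1 / 2) ^ (AA k)) * ((2 : ℝ) ^ (k + 1) * (1 / 2) ^ (k + 1)) *
        (1 / 2) ^ Nat.log 2 (k + 1 + 1) := by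
        rw [pow_add (1 / 2 : ℝ) (k + 1), pow_add (2 : ℝ) (AA k) k, pow_succ (2 : ℝ) k]
        push_cast; ring
    _ = (1 / 2) ^ Nat.log 2 (k + 1 + 1) := by rw [e1, e2]; ring

lemma nest_XX (k : ℕ) : ∀ c ∈ XX (k + 1), c / 4 ^ (AA (k + 1) - AA k) ∈ XX k := by
  intro c hc
  obtain ⟨x, hx, y, hy, rfl⟩ := mem_cat.1 hc
  have h1 : AA (k + 1) - AA k = bb (k + 1) := by rw [AA]; omega
  rw [h1, mul_comm, Nat.mul_add_div (by positivity), Nat.div_eq_of_lt (ZZ_lt (k + 1) y hy),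
    add_zero]
  exact hx

/-! ### Lengths of the epochs -/

lemma tt_le (k : ℕ) : tt k ≤ 2 * k + 1 := by
  unfold tt
  have : Nat.log 2 (k + 1) ≤ k + 1 := Nat.log_le_self 2 (k + 1)
  omega

lemma two_pow_tt (k : ℕ) : 2 ^ tt k ≤ 2 ^ k * (k + 1) := by
  unfold tt
  rw [pow_add]
  exact Nat.mul_le_mul_left _ (Nat.pow_log_le_self 2 (by omega))

lemma bb_le (k : ℕ) : bb k ≤ 13 * (k + 1) ^ 3 * 2 ^ k := by
  unfold bb
  rw [lev_eq, nn]
  have h1 := tt_le k
  have h2 := two_pow_tt k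
  have h3 : (k + 2) * 2 ^ tt k * (tt k + 2 * tt k)
      ≤ (k + 2) * (2 ^ k * (k + 1)) * (3 * (2 * k + 1)) :=
    Nat.mul_le_mul (Nat.mul_le_mul_left _ h2) (by omega)
  have h4 : 1 ≤ 2 ^ k := Nat.one_le_two_pow
  have h5 : (k + 2) * (2 ^ k * (k + 1)) * (3 * (2 * k + 1))
      ≤ 12 * (k + 1) ^ 3 * 2 ^ k := by
    have h6 : (k + 2) * (2 ^ k * (k + 1)) * (3 * (2 * k + 1))
        = (3 * (k + 1) * ((k + 2) * (2 * k + 1))) * 2 ^ k := by ring
    rw [h6]
    refine Nat.mul_le_mul_right _ ?_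
    have h7 : (k + 2) * (2 * k + 1) ≤ 4 * (k + 1) ^ 2 := by nlinarith
    calc 3 * (k + 1) * ((k + 2) * (2 * k + 1)) ≤ 3 * (k + 1) * (4 * (k + 1) ^ 2) :=
          Nat.mul_le_mul_left _ h7
      _ = 12 * (k + 1) ^ 3 := by ring
  have h6 : 1 ≤ (k + 1) ^ 3 * 2 ^ k := Nat.one_le_iff_ne_zero.2 (by positivity)
  calc 1 + (k + 2) * 2 ^ tt k * (tt k + 2 * tt k)
      ≤ (k + 1) ^ 3 * 2 ^ k + 12 * (k + 1) ^ 3 * 2 ^ k := add_le_add h6 (h3.trans h5)
    _ = 13 * (k + 1) ^ 3 * 2 ^ k := by ring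

/-- the weights are summable to every power larger than two -/
lemma sum_kap_le {r : ℝ} (hr0 : 0 < r) (hr1 : r < 1 / 2) :
    ∃ C : ℝ, 0 < C ∧ ∀ K, ∑ j ∈ range (AA K), r ^ kap (j + 1) ≤ C := by
  have hsum : Summable (fun k : ℕ => 13 * ((k : ℝ) + 1) ^ 3 * (2 * r) ^ k) := by
    have h1 : ‖2 * r‖ < 1 := by
      rw [Real.norm_eq_abs, abs_of_pos (by positivity)]; linarith
    have h2 := summable_pow_mul_geometric_of_norm_lt_one 3 h1
    have h3 := (summable_nat_add_iff 1).2 h2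
    refine (h3.mul_left (13 / (2 * r))).congr fun k => ?_
    push_cast
    rw [pow_succ (2 * r) k]
    field_simp
  refine ⟨∑' k : ℕ, 13 * ((k : ℝ) + 1) ^ 3 * (2 * r) ^ k, ?_, ?_⟩
  · exact hsum.tsum_pos (fun k => by positivity) 0 (by positivity)
  · intro K
    have hfin : ∑ j ∈ range (AA K), r ^ kap (j + 1)
        ≤ ∑ k ∈ range (K + 1), 13 * ((k : ℝ) + 1) ^ 3 * (2 * r) ^ k := by
      induction K with
      | zero =>
        rw [AA, range_zero, sum_empty]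
        exact sum_nonneg fun k _ => by positivity
      | succ K ih =>
        rw [AA, sum_range_add, sum_range_succ _ (K + 1)]
        refine add_le_add ih ?_
        have h1 : ∀ i ∈ range (bb (K + 1)), r ^ kap (AA K + i + 1) ≤ r ^ (K + 1) := by
          intro i _
          exact pow_le_pow_of_le_one hr0.le (by linarith) (lt_kap (by omega))
        refine (sum_le_card_nsmul _ _ _ h1).trans ?_
        rw [card_range, nsmul_eq_mul]
        have h2 : ((bb (K + 1) : ℕ) : ℝ) ≤ 13 * ((K + 1 : ℕ) + 1) ^ 3 * 2 ^ (K + 1) := by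
          exact_mod_cast bb_le (K + 1)
        calc ((bb (K + 1) : ℕ) : ℝ) * r ^ (K + 1)
            ≤ (13 * ((K + 1 : ℕ) + 1) ^ 3 * 2 ^ (K + 1)) * r ^ (K + 1) :=
              mul_le_mul_of_nonneg_right h2 (by positivity)
          _ = 13 * (((K + 1 : ℕ) : ℝ) + 1) ^ 3 * (2 * r) ^ (K + 1) := by rw [mul_pow]; ring
    exact hfin.trans (hsum.sum_le_tsum _ (fun k _ => by positivity))

end Pool.Agent.H806R3.Bes
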