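import Mathlib
import Pool.Agent.H806R3.BesC
import Pool.Agent.H806R3.BesD

/-! # The Besov norm bound for all exponents `1 ≤ q < 2` -/

set_option autoImplicit false

namespace Pool.Agent.H806R3.Bes

open Finset MeasureTheory
open scoped ENNReal

lemma sum_gap_words' {u : ℝ → ℝ} (hu : Continuous u) {a M κ : ℕ} {X : Finset ℕ}
    (hlt : ∀ c ∈ X, c < 4 ^ a) (j : ℕ) (hj : j + 1 ≤ a)
    (hen : en a X (j + 1) * 2 ^ (j + 1 + κ) ≤ 4 * 4 ^ M) {W : ℝ}
    (hW : ∫ x in (0 : ℝ)..1, (u (x + 1 / 4 ^ (j + 1)) - u x) ^ 2 ≤ W ^ 2) (hW0 : 0 ≤ W) :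
    ∑ c ∈ X, gap u j (c / 4 ^ (a - (j + 1)))
      ≤ 2 ^ M * (7 * (Real.sqrt ((1 / 2) ^ κ) * (Real.sqrt (2 ^ (j + 1)) * W))) := by
  have h1 : ∑ c ∈ X, gap u j (c / 4 ^ (a - (j + 1)))
      = ∑ v ∈ range (4 ^ (j + 1)), (cnt a X (j + 1) v : ℝ) * gap u j v := by
    have hmaps : ∀ c ∈ X, c / 4 ^ (a - (j + 1)) ∈ range (4 ^ (j + 1)) := fun c hc =>
      mem_range.2 (prefix_lt hj (hlt c hc))
    rw [← sum_fiberwise_of_maps_to hmaps]
    refine sum_congr rfl fun v _ => ?_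
    unfold cnt
    rw [← nsmul_eq_mul]
    refine sum_eq_card_nsmul ?_
    intro c hc
    rw [(mem_filter.1 hc).2]
  rw [h1]
  have h2 := sum_mul_sq_le_sq_mul_sq (range (4 ^ (j + 1)))
    (fun v => (cnt a X (j + 1) v : ℝ)) (fun v => gap u j v)
  have h3 := sum_gap_sq hu j
  have h4 : (∑ v ∈ range (4 ^ (j + 1)), (cnt a X (j + 1) v : ℝ) ^ 2) * (2 ^ (j + 1) * 2 ^ κ)
      ≤ 4 * 4 ^ M := by
    rw [← pow_add]
    unfold en at hen
    exact_mod_cast hen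
  set E := ∑ v ∈ range (4 ^ (j + 1)), (cnt a X (j + 1) v : ℝ) ^ 2 with hE
  have hE0 : 0 ≤ E := sum_nonneg fun v _ => by positivity
  have h2p : (0 : ℝ) < 2 ^ (j + 1) := by positivity
  have hκ : (0 : ℝ) < (1 / 2) ^ κ := by positivity
  have hκ2 : (2 : ℝ) ^ κ * (1 / 2) ^ κ = 1 := by rw [← mul_pow]; norm_num
  have hsq : Real.sqrt (2 ^ (j + 1)) ^ 2 = 2 ^ (j + 1) := Real.sq_sqrt h2p.le
  have hsq2 : Real.sqrt ((1 / 2) ^ κ) ^ 2 = (1 / 2) ^ κ := Real.sq_sqrt hκ.le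
  have h44 : (4 : ℝ) ^ (j + 1) = 2 ^ (j + 1) * 2 ^ (j + 1) := by rw [← mul_pow]; norm_num
  have h4a : (4 : ℝ) ^ M = 2 ^ M * 2 ^ M := by rw [← mul_pow]; norm_num
  have h5 : (∑ v ∈ range (4 ^ (j + 1)), (cnt a X (j + 1) v : ℝ) * gap u j v) ^ 2
      ≤ (2 ^ M * (7 * (Real.sqrt ((1 / 2) ^ κ) * (Real.sqrt (2 ^ (j + 1)) * W)))) ^ 2 := by
    refine h2.trans ?_
    calc E * ∑ v ∈ range (4 ^ (j + 1)), (gap u j v) ^ 2
        ≤ E * (12 * 4 ^ (j + 1) * W ^ 2) := by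
          refine mul_le_mul_of_nonneg_left (h3.trans ?_) hE0
          exact mul_le_mul_of_nonneg_left hW (by positivity)
      _ = E * (12 * 4 ^ (j + 1) * W ^ 2) * (2 ^ κ * (1 / 2) ^ κ) := by rw [hκ2, mul_one]
      _ = (E * (2 ^ (j + 1) * 2 ^ κ)) * (12 * 2 ^ (j + 1) * W ^ 2 * (1 / 2) ^ κ) := by
          rw [h44]; ring
      _ ≤ (4 * 4 ^ M) * (12 * 2 ^ (j + 1) * W ^ 2 * (1 / 2) ^ κ) :=
          mul_le_mul_of_nonneg_right h4 (by positivity)
      _ = 48 * ((2 ^ M) ^ 2 * 2 ^ (j + 1) * W ^ 2 * (1 / 2) ^ κ) := by rw [h4a]; ring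
      _ ≤ 49 * ((2 ^ M) ^ 2 * 2 ^ (j + 1) * W ^ 2 * (1 / 2) ^ κ) := by
          have : 0 ≤ (2 ^ M) ^ 2 * 2 ^ (j + 1) * W ^ 2 * (1 / 2) ^ κ := by positivity
          linarith
      _ = (2 ^ M * (7 * (Real.sqrt ((1 / 2) ^ κ) * (Real.sqrt (2 ^ (j + 1)) * W)))) ^ 2 := by
          rw [mul_pow, mul_pow, mul_pow, mul_pow, hsq, hsq2]; ring
  exact le_of_sq_le_sq h5 (by positivity)

/-- the weights -/
noncomputable def wt (j : ℕ) : ℝ := Real.sqrt ((1 / 2) ^ kap j)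

lemma wt_nonneg (j : ℕ) : 0 ≤ wt j := Real.sqrt_nonneg _

lemma wt_le_one (j : ℕ) : wt j ≤ 1 := by
  unfold wt
  rw [Real.sqrt_le_one]
  exact pow_le_one₀ (by norm_num) (by norm_num)

/-- telescoping with weights -/
theorem sum_avg_le' {u : ℝ → ℝ} (hu : Continuous u) {a M : ℕ} {X : Finset ℕ}
    (hlt : ∀ c ∈ X, c < 4 ^ a) (hcard : X.card ≤ 2 ^ M)
    (hen : ∀ j ≤ a, en a X j * 2 ^ (j + kap j) ≤ 4 * 4 ^ M)
    (W : ℕ → ℝ) (hW : ∀ j, ∫ x in (0 : ℝ)..1, (u (x + 1 / 4 ^ (j + 1)) - u x) ^ 2 ≤ W j ^ 2)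
    (hW0 : ∀ j, 0 ≤ W j) :
    ∑ c ∈ X, avg u a c ≤ 2 ^ M * (|avg u 0 0| +
      ∑ j ∈ range a, 7 * (wt (j + 1) * (Real.sqrt (2 ^ (j + 1)) * W j))) := by
  have hgoal : ∀ i ≤ a, ∑ c ∈ X, avg u i (c / 4 ^ (a - i)) ≤ 2 ^ M * (|avg u 0 0| +
      ∑ j ∈ range i, 7 * (wt (j + 1) * (Real.sqrt (2 ^ (j + 1)) * W j))) := by
    intro i
    induction i with
    | zero =>
      intro _
      simp only [range_zero, sum_empty, add_zero]
      have h0 : ∀ c ∈ X, avg u 0 (c / 4 ^ (a - 0)) ≤ |avg u 0 0| := by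
        intro c hc
        rw [Nat.sub_zero, Nat.div_eq_of_lt (hlt c hc)]
        exact le_abs_self _
      refine (sum_le_card_nsmul _ _ _ h0).trans ?_
      rw [nsmul_eq_mul]
      refine mul_le_mul_of_nonneg_right ?_ (abs_nonneg _)
      exact_mod_cast hcard
    | succ i ih =>
      intro hi
      have ih' := ih (by omega)
      have hs := sum_gap_words' hu hlt i hi (hen (i + 1) hi) (hW i) (hW0 i)
      have h1 : ∀ c ∈ X, avg u (i + 1) (c / 4 ^ (a - (i + 1)))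
          ≤ avg u i (c / 4 ^ (a - i)) + gap u i (c / 4 ^ (a - (i + 1))) := by
        intro c _
        have h2 : c / 4 ^ (a - i) = c / 4 ^ (a - (i + 1)) / 4 := by
          rw [Nat.div_div_eq_div_mul, ← pow_succ]
          congr 2; omega
        rw [h2]
        unfold gap
        have := le_abs_self (avg u (i + 1) (c / 4 ^ (a - (i + 1)))
          - avg u i (c / 4 ^ (a - (i + 1)) / 4))
        linarith
      have h3 := sum_le_sum h1
      rw [sum_add_distrib] at h3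
      rw [sum_range_succ, ← add_assoc, mul_add]
      unfold wt at ih' ⊢
      linarith
  have := hgoal a le_rfl
  simpa using this

/-- the integrand of the Besov seminorm for `α = 1/4`, `p = 2` and general `q` -/
noncomputable def kerq (q : ℝ) (u : ℝ → ℝ) (h : ℝ) : ℝ≥0∞ :=
  (om u h / ENNReal.ofReal (|h| ^ (1 / 4 : ℝ))) ^ q / ENNReal.ofReal |h|

lemma om_avg_q {q : ℝ} (hq : 1 ≤ q) {u : ℝ → ℝ} (hu : Continuous u) (hm : MemLp u 2 volume)
    {δ : ℝ} :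
    om u δ ^ q * ENNReal.ofReal (δ / 2)
      ≤ 2 ^ q * ∫⁻ h in Set.Ioo (δ / 4) (3 * δ / 4), om u h ^ q := by
  have hmeas : Measurable (fun h => om u h ^ q) := (measurable_om hu).pow_const q
  have h1 : ∫⁻ _ in Set.Ioo (δ / 4) (3 * δ / 4), om u δ ^ q
      = om u δ ^ q * ENNReal.ofReal (δ / 2) := by
    rw [setLIntegral_const, Real.volume_Ioo]
    congr 2; ring
  rw [← h1]
  have h2 : ∫⁻ _ in Set.Ioo (δ / 4) (3 * δ / 4), om u δ ^ q
      ≤ ∫⁻ h in Set.Ioo (δ / 4) (3 * δ / 4), 2 ^ (q - 1) * (om u h ^ q + om u (δ - h) ^ q) := by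
    refine lintegral_mono fun h => ?_
    have := om_add hm h (δ - h)
    rw [add_sub_cancel] at this
    exact (ENNReal.rpow_le_rpow this (by linarith)).trans
      (ENNReal.rpow_add_le_mul_rpow_add_rpow _ _ hq)
  refine h2.trans ?_
  rw [lintegral_const_mul' _ _ (ENNReal.rpow_ne_top_of_nonneg (by linarith) (by norm_num)),
    lintegral_add_left hmeas]
  have h3 : ∫⁻ h in Set.Ioo (δ / 4) (3 * δ / 4), om u (δ - h) ^ q
      = ∫⁻ h in Set.Ioo (δ / 4) (3 * δ / 4), om u h ^ q := by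
    have h4 := (Measure.measurePreserving_sub_left (volume : Measure ℝ) δ).setLIntegral_comp_preimage
      (measurableSet_Ioo (a := δ / 4) (b := 3 * δ / 4)) hmeas
    have h5 : (fun x : ℝ => δ - x) ⁻¹' Set.Ioo (δ / 4) (3 * δ / 4)
        = Set.Ioo (δ / 4) (3 * δ / 4) := by
      ext x
      simp only [Set.mem_preimage, Set.mem_Ioo]
      constructor <;> rintro ⟨a, b⟩ <;> constructor <;> linarith
    rw [h5] at h4
    exact h4
  rw [h3, ← two_mul, ← mul_assoc]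
  refine mul_le_mul' (le_of_eq ?_) le_rfl
  conv_lhs => rw [← ENNReal.rpow_one 2, ← ENNReal.rpow_mul, one_mul]
  rw [← ENNReal.rpow_add _ _ (by norm_num) (by norm_num)]
  congr 1; ring

lemma om_le_kerq {q : ℝ} (hq : 1 ≤ q) (u : ℝ → ℝ) {h δ : ℝ} (h0 : 0 < h) (hδ : h ≤ δ) :
    om u h ^ q ≤ ENNReal.ofReal (δ ^ (1 / 4 : ℝ)) ^ q * ENNReal.ofReal δ * kerq q u h := by
  unfold kerq
  have hq0 : 0 ≤ q := by linarith
  have e1 : ENNReal.ofReal (|h| ^ (1 / 4 : ℝ)) ≠ 0 := by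
    rw [abs_of_pos h0]; exact (ENNReal.ofReal_pos.2 (by positivity)).ne'
  have e2 : ENNReal.ofReal |h| ≠ 0 := by
    rw [abs_of_pos h0]; exact (ENNReal.ofReal_pos.2 h0).ne'
  have h1 : om u h ^ q = ENNReal.ofReal (|h| ^ (1 / 4 : ℝ)) ^ q * ENNReal.ofReal |h| *
      ((om u h / ENNReal.ofReal (|h| ^ (1 / 4 : ℝ))) ^ q / ENNReal.ofReal |h|) := by
    rw [mul_assoc, ENNReal.mul_div_cancel e2 ENNReal.ofReal_ne_top,
      ← ENNReal.mul_rpow_of_nonneg _ _ hq0, ENNReal.mul_div_cancel e1 ENNReal.ofReal_ne_top]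
  calc om u h ^ q = _ := h1
    _ ≤ _ := by
      refine mul_le_mul_left ?_ _
      rw [abs_of_pos h0]
      exact mul_le_mul' (ENNReal.rpow_le_rpow (ENNReal.ofReal_le_ofReal
        (Real.rpow_le_rpow h0.le hδ (by norm_num))) hq0) (ENNReal.ofReal_le_ofReal hδ)

lemma term_le_q {q : ℝ} (hq : 1 ≤ q) {u : ℝ → ℝ} (hu : Continuous u) (hm : MemLp u 2 volume)
    (k : ℕ) :
    (ENNReal.ofReal (Real.sqrt (2 ^ k)) * om u (1 / 4 ^ k)) ^ q
      ≤ (2 ^ q * 2) * ∫⁻ h in Set.Ioo (1 / 4 ^ (k + 1) : ℝ) (1 / 4 ^ k), kerq q u h := by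
  have hq0 : 0 ≤ q := by linarith
  set δ : ℝ := 1 / 4 ^ k with hδ
  have hδ0 : 0 < δ := by rw [hδ]; positivity
  have e4 : (1 / 4 ^ (k + 1) : ℝ) = δ / 4 := by rw [hδ, pow_succ]; field_simp
  rw [e4]
  have h1 := om_avg_q hq hu hm (δ := δ)
  have h2 : ∫⁻ h in Set.Ioo (δ / 4) (3 * δ / 4), om u h ^ q
      ≤ ENNReal.ofReal (δ ^ (1 / 4 : ℝ)) ^ q * ENNReal.ofReal δ *
        ∫⁻ h in Set.Ioo (δ / 4) δ, kerq q u h := by
    rw [← lintegral_const_mul' _ _ (ENNReal.mul_ne_top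
      (ENNReal.rpow_ne_top_of_nonneg hq0 ENNReal.ofReal_ne_top) ENNReal.ofReal_ne_top)]
    calc ∫⁻ h in Set.Ioo (δ / 4) (3 * δ / 4), om u h ^ q
        ≤ ∫⁻ h in Set.Ioo (δ / 4) (3 * δ / 4),
          ENNReal.ofReal (δ ^ (1 / 4 : ℝ)) ^ q * ENNReal.ofReal δ * kerq q u h := by
          refine setLIntegral_mono' measurableSet_Ioo fun h hh => ?_
          exact om_le_kerq hq u (by have := hh.1; linarith) (by have := hh.2; linarith)
      _ ≤ _ := lintegral_mono_set (Set.Ioo_subset_Ioo le_rfl (by linarith))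
  set J := ∫⁻ h in Set.Ioo (δ / 4) δ, kerq q u h with hJ
  have h3 : ENNReal.ofReal (Real.sqrt (2 ^ k)) ^ q * ENNReal.ofReal (δ ^ (1 / 4 : ℝ)) ^ q = 1 := by
    rw [← ENNReal.mul_rpow_of_nonneg _ _ hq0, ← ENNReal.ofReal_mul (Real.sqrt_nonneg _),
      sqrt_rpow, ENNReal.ofReal_one, ENNReal.one_rpow]
  rw [ENNReal.mul_rpow_of_nonneg _ _ hq0]
  set S := ENNReal.ofReal (Real.sqrt (2 ^ k)) ^ q
  set D := ENNReal.ofReal (δ ^ (1 / 4 : ℝ)) ^ q
  have h4 : (S * om u δ ^ q) * ENNReal.ofReal (δ / 2)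
      ≤ (2 ^ q * 2 * J) * ENNReal.ofReal (δ / 2) := by
    calc (S * om u δ ^ q) * ENNReal.ofReal (δ / 2)
        = S * (om u δ ^ q * ENNReal.ofReal (δ / 2)) := by ring
      _ ≤ S * (2 ^ q * (D * ENNReal.ofReal δ * J)) :=
          mul_le_mul' le_rfl (h1.trans (mul_le_mul' le_rfl h2))
      _ = (S * D) * (2 ^ q * ENNReal.ofReal δ * J) := by ring
      _ = 2 ^ q * ENNReal.ofReal δ * J := by rw [h3, one_mul]
      _ = (2 ^ q * 2 * J) * ENNReal.ofReal (δ / 2) := by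
          have : ENNReal.ofReal δ = 2 * ENNReal.ofReal (δ / 2) := by
            rw [← ENNReal.ofReal_ofNat 2, ← ENNReal.ofReal_mul (by norm_num)]
            congr 1; ring
          rw [this]; ring
  have h5 : ENNReal.ofReal (δ / 2) ≠ 0 := (ENNReal.ofReal_pos.2 (by positivity)).ne'
  exact (ENNReal.mul_le_mul_iff_left h5 ENNReal.ofReal_ne_top).1 h4

lemma sum_term_le_q {q : ℝ} (hq : 1 ≤ q) {u : ℝ → ℝ} (hu : Continuous u) (hm : MemLp u 2 volume)
    (a : ℕ) :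
    ∑ j ∈ range a, (ENNReal.ofReal (Real.sqrt (2 ^ (j + 1))) * om u (1 / 4 ^ (j + 1))) ^ q
      ≤ (2 ^ q * 2) * ∫⁻ h, kerq q u h := by
  calc ∑ j ∈ range a, (ENNReal.ofReal (Real.sqrt (2 ^ (j + 1))) * om u (1 / 4 ^ (j + 1))) ^ q
      ≤ ∑ j ∈ range a, (2 ^ q * 2) *
        ∫⁻ h in Set.Ioo (1 / 4 ^ (j + 1 + 1) : ℝ) (1 / 4 ^ (j + 1)), kerq q u h :=
        sum_le_sum fun j _ => term_le_q hq hu hm (j + 1)
    _ = (2 ^ q * 2) * ∑ j ∈ range a,
        ∫⁻ h in Set.Ioo (1 / 4 ^ (j + 1 + 1) : ℝ) (1 / 4 ^ (j + 1)), kerq q u h := by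
        rw [mul_sum]
    _ ≤ (2 ^ q * 2) * ∫⁻ h, kerq q u h := by
        refine mul_le_mul' le_rfl ?_
        rw [← lintegral_biUnion_finset (μ := volume) (s := range a)
          (t := fun j : ℕ => Set.Ioo (1 / 4 ^ (j + 1 + 1) : ℝ) (1 / 4 ^ (j + 1)))
          ?_ (fun j _ => measurableSet_Ioo)]
        · exact setLIntegral_le_lintegral _ _
        · intro i _ j _ hij
          wlog hlt : i < j generalizing i j
          · exact (this ‹_› ‹_› hij.symm (by omega)).symm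
          simp only [Function.onFun]
          rw [Set.disjoint_left]
          rintro x ⟨h1, h2⟩ ⟨h3, h4⟩
          have h5 : (1 / 4 ^ (j + 1) : ℝ) ≤ 1 / 4 ^ (i + 1 + 1) := by
            apply one_div_le_one_div_of_le (by positivity)
            exact pow_le_pow_right₀ (by norm_num) (by omega)
          linarith

/-- Hölder's inequality with the weights. -/
lemma exists_holder {q : ℝ} (hq : 1 ≤ q) (hq2 : q < 2) : ∃ C : ℝ≥0∞, C ≠ ⊤ ∧
    ∀ (K : ℕ) (b : ℕ → ℝ≥0∞), ∑ j ∈ range (AA K), ENNReal.ofReal (wt (j + 1)) * b j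
      ≤ C * (∑ j ∈ range (AA K), b j ^ q) ^ (1 / q) := by
  rcases eq_or_lt_of_le hq with h1 | h1
  · refine ⟨1, ENNReal.one_ne_top, fun K b => ?_⟩
    rw [← h1, one_mul]
    simp only [ENNReal.rpow_one, div_one]
    refine sum_le_sum fun j _ => ?_
    refine mul_le_of_le_one_left bot_le ?_
    rw [← ENNReal.ofReal_one]
    exact ENNReal.ofReal_le_ofReal (wt_le_one _)
  · set p : ℝ := q / (q - 1) with hp
    have hq1 : 0 < q - 1 := by linarith
    have hp2 : 2 < p := by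
      rw [hp, lt_div_iff₀ hq1]; linarith
    have hconj : p.HolderConjugate q := by
      have : q.HolderConjugate p := by
        rw [Real.holderConjugate_iff]
        refine ⟨h1, ?_⟩
        rw [hp]; field_simp; ring
      exact this.symm
    set r : ℝ := (1 / 2) ^ (p / 2) with hr
    have hr0 : 0 < r := by rw [hr]; positivity
    have hr1 : r < 1 / 2 := by
      calc r < (1 / 2) ^ (1 : ℝ) := by
            rw [hr]
            exact Real.rpow_lt_rpow_of_exponent_gt (by norm_num) (by norm_num) (by linarith)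
        _ = 1 / 2 := Real.rpow_one _
    obtain ⟨C, hC0, hC⟩ := sum_kap_le hr0 hr1
    refine ⟨(ENNReal.ofReal C) ^ (1 / p),
      ENNReal.rpow_ne_top_of_nonneg (by positivity) ENNReal.ofReal_ne_top, fun K b => ?_⟩
    refine (ENNReal.inner_le_Lp_mul_Lq _ _ _ hconj).trans ?_
    refine mul_le_mul' (ENNReal.rpow_le_rpow ?_ (by positivity)) le_rfl
    have h2 : ∀ j, ENNReal.ofReal (wt (j + 1)) ^ p = ENNReal.ofReal (r ^ kap (j + 1)) := by
      intro j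
      rw [ENNReal.ofReal_rpow_of_nonneg (wt_nonneg _) (by linarith)]
      congr 1
      unfold wt
      rw [hr, Real.sqrt_eq_rpow, ← Real.rpow_natCast (1 / 2 : ℝ), ← Real.rpow_natCast,
        ← Real.rpow_mul (by norm_num), ← Real.rpow_mul (by norm_num),
        ← Real.rpow_mul (by norm_num)]
      congr 1; ring
    simp only [h2]
    rw [← ENNReal.ofReal_sum_of_nonneg (fun j _ => by positivity)]
    exact ENNReal.ofReal_le_ofReal (hC K)

/-- The main estimate. -/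
theorem exists_const {q : ℝ} (hq : 1 ≤ q) (hq2 : q < 2) : ∃ C : ℝ≥0∞, C ≠ 0 ∧ C ≠ ⊤ ∧
    ∀ (u : ℝ → ℝ), Continuous u → MemLp u 2 volume → ∀ k : ℕ,
      (∀ c ∈ XX k, 1 / 2 ≤ avg u (AA k) c) →
      ENNReal.ofReal (1 / 4) ≤ C * (eLpNorm u 2 volume + (∫⁻ h, kerq q u h) ^ (1 / q)) := by
  have hq0 : 0 < q := by linarith
  obtain ⟨C, hC, hH⟩ := exists_holder hq hq2
  have h2q : ((2 : ℝ≥0∞) ^ q * 2) ^ (1 / q) ≠ ⊤ :=
    ENNReal.rpow_ne_top_of_nonneg (by positivity)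
      (ENNReal.mul_ne_top (ENNReal.rpow_ne_top_of_nonneg hq0.le (by norm_num)) (by norm_num))
  refine ⟨1 + 7 * (C * ((2 : ℝ≥0∞) ^ q * 2) ^ (1 / q)), by simp,
    ENNReal.add_ne_top.2 ⟨ENNReal.one_ne_top, ENNReal.mul_ne_top (by norm_num)
      (ENNReal.mul_ne_top hC h2q)⟩, ?_⟩
  intro u hu hm k havg
  set a := AA k with ha
  set X := XX k with hX
  set M := AA k + k with hM
  set W : ℕ → ℝ := fun j => (om u (1 / 4 ^ (j + 1))).toReal with hW
  have h1 := sum_avg_le' hu (XX_lt k) (card_XX_le k) (energy_XX k) W (fun j => by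
    rw [hW]
    exact setIntegral_le (memLp_diff hm _)) (fun j => ENNReal.toReal_nonneg)
  have h2 : (X.card : ℝ) * (1 / 2) ≤ ∑ c ∈ X, avg u a c := by
    have := card_nsmul_le_sum X _ _ havg
    rwa [nsmul_eq_mul] at this
  have hp : (0 : ℝ) < 2 ^ M := by positivity
  have hcard : (1 / 2 : ℝ) * 2 ^ M ≤ X.card := by
    refine le_trans ?_ (card_XX_ge k)
    refine mul_le_mul_of_nonneg_right ?_ hp.le
    have : (0 : ℝ) ≤ (1 / 2) ^ (k + 1) := by positivity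
    linarith
  have h3 : 1 / 4 ≤ |avg u 0 0|
      + ∑ j ∈ range a, 7 * (wt (j + 1) * (Real.sqrt (2 ^ (j + 1)) * W j)) := by
    have h4 : 2 ^ M * (1 / 4) ≤ 2 ^ M * (|avg u 0 0|
        + ∑ j ∈ range a, 7 * (wt (j + 1) * (Real.sqrt (2 ^ (j + 1)) * W j))) := by linarith
    exact le_of_mul_le_mul_left h4 hp
  have h5 : ENNReal.ofReal |avg u 0 0| ≤ eLpNorm u 2 volume := by
    have h6 := cs hu (zero_lt_one (α := ℝ))
    rw [sub_zero, one_mul] at h6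
    have h7 : (avg u 0 0) ^ 2 ≤ (eLpNorm u 2 volume).toReal ^ 2 := by
      refine le_trans ?_ (setIntegral_le hm)
      unfold avg
      simpa using h6
    have h8 := abs_le_of_sq_le_sq h7 ENNReal.toReal_nonneg
    rw [← ENNReal.ofReal_toReal hm.2.ne]
    exact ENNReal.ofReal_le_ofReal h8
  have h6 : ENNReal.ofReal (∑ j ∈ range a, 7 * (wt (j + 1) * (Real.sqrt (2 ^ (j + 1)) * W j)))
      ≤ 7 * (C * ((2 : ℝ≥0∞) ^ q * 2) ^ (1 / q)) * (∫⁻ h, kerq q u h) ^ (1 / q) := by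
    rw [ENNReal.ofReal_sum_of_nonneg (fun j _ => by
      have := wt_nonneg (j + 1)
      have h0 : 0 ≤ W j := ENNReal.toReal_nonneg
      positivity)]
    calc ∑ j ∈ range a, ENNReal.ofReal (7 * (wt (j + 1) * (Real.sqrt (2 ^ (j + 1)) * W j)))
        = 7 * ∑ j ∈ range a, ENNReal.ofReal (wt (j + 1)) *
          (ENNReal.ofReal (Real.sqrt (2 ^ (j + 1))) * om u (1 / 4 ^ (j + 1))) := by
          rw [mul_sum]
          refine sum_congr rfl fun j _ => ?_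
          rw [ENNReal.ofReal_mul (by norm_num), ENNReal.ofReal_mul (wt_nonneg _),
            ENNReal.ofReal_mul (Real.sqrt_nonneg _), hW, ENNReal.ofReal_toReal (om_ne_top hm _)]
          norm_num
      _ ≤ 7 * (C * (∑ j ∈ range a,
          (ENNReal.ofReal (Real.sqrt (2 ^ (j + 1))) * om u (1 / 4 ^ (j + 1))) ^ q) ^ (1 / q)) :=
          mul_le_mul' le_rfl (hH k _)
      _ ≤ 7 * (C * (((2 : ℝ≥0∞) ^ q * 2) * ∫⁻ h, kerq q u h) ^ (1 / q)) :=
          mul_le_mul' le_rfl (mul_le_mul' le_rfl (ENNReal.rpow_le_rpow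
            (sum_term_le_q hq hu hm a) (by positivity)))
      _ = 7 * (C * ((2 : ℝ≥0∞) ^ q * 2) ^ (1 / q)) * (∫⁻ h, kerq q u h) ^ (1 / q) := by
          rw [ENNReal.mul_rpow_of_nonneg _ _ (by positivity : 0 ≤ 1 / q)]
          ring
  have hnn : 0 ≤ ∑ j ∈ range a, 7 * (wt (j + 1) * (Real.sqrt (2 ^ (j + 1)) * W j)) :=
    sum_nonneg fun j _ => by
      have := wt_nonneg (j + 1)
      have h0 : 0 ≤ W j := ENNReal.toReal_nonneg
      positivity
  calc ENNReal.ofReal (1 / 4)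
      ≤ ENNReal.ofReal (|avg u 0 0|
        + ∑ j ∈ range a, 7 * (wt (j + 1) * (Real.sqrt (2 ^ (j + 1)) * W j))) :=
        ENNReal.ofReal_le_ofReal h3
    _ = ENNReal.ofReal |avg u 0 0|
        + ENNReal.ofReal (∑ j ∈ range a, 7 * (wt (j + 1) * (Real.sqrt (2 ^ (j + 1)) * W j))) :=
        ENNReal.ofReal_add (abs_nonneg _) hnn
    _ ≤ eLpNorm u 2 volume
        + 7 * (C * ((2 : ℝ≥0∞) ^ q * 2) ^ (1 / q)) * (∫⁻ h, kerq q u h) ^ (1 / q) :=
        add_le_add h5 h6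
    _ ≤ (1 + 7 * (C * ((2 : ℝ≥0∞) ^ q * 2) ^ (1 / q))) *
        (eLpNorm u 2 volume + (∫⁻ h, kerq q u h) ^ (1 / q)) := by
        rw [add_mul, mul_add, one_mul]
        refine add_le_add (le_self_add) ?_
        rw [mul_add]
        exact le_add_self

end Pool.Agent.H806R3.Bes
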