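import Mathlib

/-! # One variable preparations: Parseval and the function `(1-s)^2 exp(-(1+s)/(1-s))` -/

set_option autoImplicit false

namespace Pool.Agent.H806R3.Bid

open Filter Topology Real

/-- the singular factor -/
noncomputable def sg (s : ℂ) : ℂ := Complex.exp (-((1 + s) / (1 - s)))

/-- the function of one variable -/
noncomputable def gg (s : ℂ) : ℂ := (1 - s) ^ 2 * sg s

lemma re_cayley (s : ℂ) : ((1 + s) / (1 - s)).re = (1 - ‖s‖ ^ 2) / ‖1 - s‖ ^ 2 := by
  rw [Complex.div_re, ← add_div, Complex.normSq_eq_norm_sq (1 - s)]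
  congr 1
  rw [← Complex.normSq_eq_norm_sq s, Complex.normSq_apply]
  simp only [Complex.add_re, Complex.sub_re, Complex.one_re, Complex.add_im, Complex.sub_im,
    Complex.one_im]
  ring

lemma norm_sg (s : ℂ) : ‖sg s‖ = Real.exp (-((1 - ‖s‖ ^ 2) / ‖1 - s‖ ^ 2)) := by
  rw [sg, Complex.norm_exp, Complex.neg_re, re_cayley]

lemma norm_sg_le {s : ℂ} (hs : ‖s‖ ≤ 1) : ‖sg s‖ ≤ 1 := by
  rw [norm_sg, Real.exp_le_one_iff]
  have : 0 ≤ (1 - ‖s‖ ^ 2) / ‖1 - s‖ ^ 2 := by
    apply div_nonneg _ (by positivity)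
    have := norm_nonneg s
    nlinarith
  linarith

lemma norm_sg_eq {s : ℂ} (hs : ‖s‖ = 1) : ‖sg s‖ = 1 := by
  rw [norm_sg, hs]; simp

lemma hasDerivAt_gg {s : ℂ} (hs : 1 - s ≠ 0) : HasDerivAt gg ((2 * s - 4) * sg s) s := by
  have h1 : HasDerivAt (fun s : ℂ => 1 + s) 1 s := by
    simpa using (hasDerivAt_id s).const_add 1
  have h2 : HasDerivAt (fun s : ℂ => 1 - s) (-1) s := by
    simpa using (hasDerivAt_id s).const_sub 1
  have h3 := ((h1.div h2 hs).neg).cexp
  have h4 := (h2.pow 2).mul h3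
  refine h4.congr_deriv ?_
  simp only [Pi.pow_apply, sg]
  have e : (1 - s) ^ 2 * (Complex.exp (-((1 + s) / (1 - s))) *
      -((1 * (1 - s) - (1 + s) * -1) / (1 - s) ^ 2)) = -2 * Complex.exp (-((1 + s) / (1 - s))) := by
    field_simp
    ring
  simp only [Pi.div_apply, Pi.neg_apply]
  rw [e]
  push_cast
  ring

lemma one_sub_ne {s : ℂ} (hs : ‖s‖ < 1) : 1 - s ≠ 0 := by
  intro h
  have : s = 1 := (sub_eq_zero.1 h).symm
  rw [this] at hs
  simp at hs

/-- Parseval's formula on a circle of radius `r < 1` -/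
lemma parseval {φ : ℂ → ℂ} {d : ℕ → ℂ} (h : ∀ z : ℂ, ‖z‖ < 1 → HasSum (fun n => d n * z ^ n) (φ z))
    {r : ℝ} (hr0 : 0 ≤ r) (hr1 : r < 1) :
    Tendsto (fun n => ∑ i ∈ Finset.range n, ‖d i‖ ^ 2 * r ^ (2 * i)) atTop
      (𝓝 (Real.circleAverage (fun ζ => ‖φ (r * ζ)‖ ^ 2) 0 1)) := by
  -- the polynomials
  set P : ℕ → Polynomial ℂ := fun n =>
    ∑ i ∈ Finset.range n, Polynomial.monomial i (d i * (r : ℂ) ^ i) with hP
  have heval : ∀ n (ζ : ℂ), (P n).eval ζ = ∑ i ∈ Finset.range n, d i * ((r : ℂ) * ζ) ^ i := by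
    intro n ζ
    rw [hP]
    simp only [Polynomial.eval_finsetSum, Polynomial.eval_monomial]
    refine Finset.sum_congr rfl fun i _ => ?_
    rw [mul_pow]; ring
  have hcoeff : ∀ n i, (P n).coeff i = if i < n then d i * (r : ℂ) ^ i else 0 := by
    intro n i
    rw [hP]
    simp only [Polynomial.finsetSum_coeff, Polynomial.coeff_monomial]
    rw [Finset.sum_ite_eq' (Finset.range n) i (fun i => d i * (r : ℂ) ^ i)]
    simp only [Finset.mem_range]
  have hpars : ∀ n, ∑ i ∈ Finset.range n, ‖d i‖ ^ 2 * r ^ (2 * i)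
      = Real.circleAverage (fun ζ => ‖(P n).eval ζ‖ ^ 2) 0 1 := by
    intro n
    rw [← Polynomial.sum_sq_norm_coeff_eq_circleAverage]
    have hsub : (P n).support ⊆ Finset.range n := by
      intro i hi
      rw [Polynomial.mem_support_iff, hcoeff] at hi
      rw [Finset.mem_range]
      by_contra hlt
      rw [if_neg hlt] at hi
      exact hi rfl
    rw [Finset.sum_subset hsub (f := fun i => ‖(P n).coeff i‖ ^ 2) (fun i _ hi => by
      rw [Polynomial.notMem_support_iff] at hi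
      rw [hi]; simp)]
    refine Finset.sum_congr rfl fun i hi => ?_
    rw [hcoeff, if_pos (Finset.mem_range.1 hi), norm_mul, norm_pow, Complex.norm_real,
      Real.norm_of_nonneg hr0]
    ring
  simp only [hpars]
  unfold Real.circleAverage
  refine Tendsto.const_smul ?_ _
  have hr : ‖(r : ℂ)‖ < 1 := by rw [Complex.norm_real, Real.norm_of_nonneg hr0]; exact hr1
  have hsum := (h r hr).summable.norm
  have hζ : ∀ θ : ℝ, ‖circleMap 0 1 θ‖ = 1 := fun θ => by
    simp [norm_circleMap_zero]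
  refine intervalIntegral.tendsto_integral_filter_of_dominated_convergence
    (fun _ => (∑' i, ‖d i * (r : ℂ) ^ i‖) ^ 2) ?_ ?_ ?_ ?_
  · refine Eventually.of_forall fun n => ?_
    apply Continuous.aestronglyMeasurable
    have : Continuous fun ζ => (P n).eval ζ := (P n).continuous
    fun_prop
  · refine Eventually.of_forall fun n => Eventually.of_forall fun θ _ => ?_
    rw [norm_pow, norm_norm]
    refine pow_le_pow_left₀ (norm_nonneg _) ?_ 2
    rw [heval]
    refine (norm_sum_le _ _).trans ?_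
    have h1 : ∀ i ∈ Finset.range n, ‖d i * ((r : ℂ) * circleMap 0 1 θ) ^ i‖
        = ‖d i * (r : ℂ) ^ i‖ := by
      intro i _
      rw [norm_mul, norm_mul, norm_pow, norm_pow, norm_mul, hζ, mul_one]
    rw [Finset.sum_congr rfl h1]
    exact hsum.sum_le_tsum _ (fun i _ => norm_nonneg _)
  · exact intervalIntegrable_const
  · refine Eventually.of_forall fun θ _ => ?_
    have hz : ‖(r : ℂ) * circleMap 0 1 θ‖ < 1 := by
      rw [norm_mul, hζ, mul_one]; exact hr
    have h1 := (h _ hz).tendsto_sum_nat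
    have h2 : Tendsto (fun n => (P n).eval (circleMap 0 1 θ)) atTop
        (𝓝 (φ ((r : ℂ) * circleMap 0 1 θ))) := by
      refine h1.congr fun n => ?_
      rw [heval]
    exact (h2.norm).pow 2

lemma circleAverage_mono' {f g : ℂ → ℝ} (hf : CircleIntegrable f 0 1) (hg : CircleIntegrable g 0 1)
    (h : ∀ ζ : ℂ, ‖ζ‖ = 1 → f ζ ≤ g ζ) :
    Real.circleAverage f 0 1 ≤ Real.circleAverage g 0 1 := by
  unfold Real.circleAverage
  rw [smul_eq_mul, smul_eq_mul]
  refine mul_le_mul_of_nonneg_left ?_ (by positivity)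
  refine intervalIntegral.integral_mono_on (by positivity) hf hg fun θ _ => ?_
  exact h _ (by simp [norm_circleMap_zero])

/-- coefficients of a bounded function are square summable -/
lemma coeff_bound {φ : ℂ → ℂ} {d : ℕ → ℂ} (h : ∀ z : ℂ, ‖z‖ < 1 → HasSum (fun n => d n * z ^ n) (φ z))
    {C : ℝ} (hC : ∀ z : ℂ, ‖z‖ < 1 → ‖φ z‖ ≤ C) (hφ : ContinuousOn φ (Metric.ball 0 1)) (n : ℕ) :
    ∑ i ∈ Finset.range n, ‖d i‖ ^ 2 ≤ C ^ 2 := by
  have hζ : ∀ θ : ℝ, ‖circleMap 0 1 θ‖ = 1 := fun θ => by simp [norm_circleMap_zero]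
  have hC0 : 0 ≤ C := (norm_nonneg _).trans (hC 0 (by simp))
  have h1 : ∀ r : ℝ, 0 ≤ r → r < 1 → ∑ i ∈ Finset.range n, ‖d i‖ ^ 2 * r ^ (2 * i) ≤ C ^ 2 := by
    intro r hr0 hr1
    have hnr : ∀ ζ : ℂ, ‖ζ‖ = 1 → ‖(r : ℂ) * ζ‖ < 1 := fun ζ hζ1 => by
      rw [norm_mul, hζ1, mul_one, Complex.norm_real, Real.norm_of_nonneg hr0]; exact hr1
    have hp := parseval h hr0 hr1
    have hmono : Monotone (fun n => ∑ i ∈ Finset.range n, ‖d i‖ ^ 2 * r ^ (2 * i)) := by
      refine monotone_nat_of_le_succ fun n => ?_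
      rw [Finset.sum_range_succ]
      have : 0 ≤ ‖d n‖ ^ 2 * r ^ (2 * n) := by positivity
      linarith
    refine (hmono.ge_of_tendsto hp n).trans ?_
    have h2 : Real.circleAverage (fun ζ => ‖φ (r * ζ)‖ ^ 2) 0 1
        ≤ Real.circleAverage (fun _ => C ^ 2) 0 1 := by
      refine circleAverage_mono' ?_ ?_ ?_
      · apply ContinuousOn.circleIntegrable zero_le_one
        intro ζ hζ1
        have hζ2 : ‖ζ‖ = 1 := by simpa using hζ1
        have hc : ContinuousAt φ ((r : ℂ) * ζ) :=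
          hφ.continuousAt (Metric.isOpen_ball.mem_nhds (by simpa using hnr ζ hζ2))
        have : ContinuousAt (fun ζ : ℂ => φ ((r : ℂ) * ζ)) ζ :=
          ContinuousAt.comp (f := fun ζ : ℂ => (r : ℂ) * ζ) hc (by fun_prop)
        exact ((this.norm).pow 2).continuousWithinAt
      · exact circleIntegrable_const _ _ _
      · intro ζ hζ1
        exact pow_le_pow_left₀ (norm_nonneg _) (hC _ (hnr ζ hζ1)) 2
    rwa [Real.circleAverage_const] at h2
  -- let `r → 1`
  have h3 : Tendsto (fun r : ℝ => ∑ i ∈ Finset.range n, ‖d i‖ ^ 2 * r ^ (2 * i)) (𝓝[<] 1)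
      (𝓝 (∑ i ∈ Finset.range n, ‖d i‖ ^ 2 * (1 : ℝ) ^ (2 * i))) := by
    have : Continuous fun r : ℝ => ∑ i ∈ Finset.range n, ‖d i‖ ^ 2 * r ^ (2 * i) := by fun_prop
    exact (this.tendsto 1).mono_left nhdsWithin_le_nhds
  simp only [one_pow, mul_one] at h3
  refine le_of_tendsto h3 ?_
  have h01 : ∀ᶠ r : ℝ in 𝓝[<] 1, 0 < r :=
    (lt_mem_nhds (zero_lt_one (α := ℝ))).filter_mono nhdsWithin_le_nhds |> fun h => h
  filter_upwards [h01, self_mem_nhdsWithin] with r h0 hr
  exact h1 r h0.le hr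

end Pool.Agent.H806R3.Bid
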