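import Pool.Agent.H806R3.BidA

/-! # The function `gg ((z₁+z₂)/2)` has finite Dirichlet norm on the bidisk -/

set_option autoImplicit false

namespace Pool.Agent.H806R3.Bid

open Filter Topology Real


lemma diffOn_gg : DifferentiableOn ℂ gg (Metric.ball 0 1) := fun s hs =>
  (hasDerivAt_gg (one_sub_ne (by simpa using hs))).differentiableAt.differentiableWithinAt

lemma exists_coeffs : ∃ c : ℕ → ℂ, (∀ z : ℂ, ‖z‖ < 1 → HasSum (fun n => c n * z ^ n) (gg z)) ∧
    ∀ n, ∑ i ∈ Finset.range n, ((i : ℝ) + 1) ^ 2 * ‖c (i + 1)‖ ^ 2 ≤ 36 := by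
  refine ⟨fun n => (n.factorial : ℂ)⁻¹ * iteratedDeriv n gg 0, ?_, ?_⟩
  · intro z hz
    have h := Complex.hasSum_taylorSeries_on_ball diffOn_gg (z := z) (by simpa using hz)
    refine h.congr_fun ?_ |> fun h => h
    intro n
    simp only [sub_zero, smul_eq_mul]
    ring
  · intro n
    have hd : DifferentiableOn ℂ (deriv gg) (Metric.ball 0 1) := diffOn_gg.deriv Metric.isOpen_ball
    have hs : ∀ z : ℂ, ‖z‖ < 1 → HasSum (fun n : ℕ => ((n : ℂ) + 1) *
        (((n + 1).factorial : ℂ)⁻¹ * iteratedDeriv (n + 1) gg 0) * z ^ n) (deriv gg z) := by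
      intro z hz
      have h := Complex.hasSum_taylorSeries_on_ball hd (z := z) (by simpa using hz)
      refine h.congr_fun ?_ |> fun h => h
      intro n
      simp only [sub_zero, smul_eq_mul]
      rw [iteratedDeriv_succ', Nat.factorial_succ]
      have h1 : ((n : ℂ) + 1) ≠ 0 := by exact_mod_cast Nat.succ_ne_zero n
      have h2 : (n.factorial : ℂ) ≠ 0 := by exact_mod_cast Nat.factorial_ne_zero n
      push_cast
      field_simp
    have hb : ∀ z : ℂ, ‖z‖ < 1 → ‖deriv gg z‖ ≤ 6 := by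
      intro z hz
      rw [(hasDerivAt_gg (one_sub_ne hz)).deriv, norm_mul]
      have h1 : ‖2 * z - 4‖ ≤ 6 := by
        refine (norm_sub_le _ _).trans ?_
        rw [norm_mul]
        have : ‖(2:ℂ)‖ = 2 := by simp
        have h4 : ‖(4:ℂ)‖ = 4 := by simp
        rw [this, h4]; linarith
      have h2 := norm_sg_le hz.le
      calc ‖2 * z - 4‖ * ‖sg z‖ ≤ 6 * 1 := by
            exact mul_le_mul h1 h2 (norm_nonneg _) (by norm_num)
        _ = 6 := by norm_num
    have := coeff_bound hs hb hd.continuousOn n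
    refine (le_of_eq ?_).trans (this.trans (by norm_num))
    refine Finset.sum_congr rfl fun i _ => ?_
    rw [norm_mul ((i : ℂ) + 1), mul_pow]
    congr 2
    rw [show ((i : ℂ) + 1) = ((i + 1 : ℕ) : ℂ) by push_cast; ring, Complex.norm_natCast]
    push_cast; ring

/-! ### antidiagonal summation -/

lemma tsum_antidiag (f : ℕ × ℕ → ENNReal) :
    ∑' k, f k = ∑' m, ∑ k ∈ Finset.HasAntidiagonal.antidiagonal m, f k := by
  rw [← Finset.HasAntidiagonal.sigmaAntidiagonalEquivProd.tsum_eq f, ENNReal.tsum_sigma']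
  refine tsum_congr fun m => ?_
  rw [tsum_fintype]
  exact Finset.sum_coe_sort (Finset.HasAntidiagonal.antidiagonal m) (fun k => f k)

lemma hasSum_of_antidiag {f : ℕ × ℕ → ℂ} {s : ℂ}
    (h : HasSum (fun m => ∑ k ∈ Finset.HasAntidiagonal.antidiagonal m, f k) s)
    (hn : Summable (fun m => ∑ k ∈ Finset.HasAntidiagonal.antidiagonal m, ‖f k‖)) : HasSum f s := by
  rw [← Finset.HasAntidiagonal.sigmaAntidiagonalEquivProd.hasSum_iff]
  refine HasSum.sigma_of_hasSum h (fun m => ?_) ?_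
  · have := hasSum_fintype (fun k : Finset.HasAntidiagonal.antidiagonal m => f k)
    rw [Finset.sum_coe_sort (Finset.HasAntidiagonal.antidiagonal m) (fun k => f k)] at this
    exact this
  · apply Summable.of_norm
    rw [summable_sigma_of_nonneg (fun _ => norm_nonneg _)]
    refine ⟨fun m => (hasSum_fintype _).summable, ?_⟩
    refine hn.congr fun m => ?_
    rw [tsum_fintype]
    exact (Finset.sum_coe_sort (Finset.HasAntidiagonal.antidiagonal m) (fun k => ‖f k‖)).symm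

lemma antidiag_of_hasSum {f : ℕ × ℕ → ℂ} {s : ℂ} (h : HasSum f s) :
    HasSum (fun m => ∑ k ∈ Finset.HasAntidiagonal.antidiagonal m, f k) s := by
  rw [← Finset.HasAntidiagonal.sigmaAntidiagonalEquivProd.hasSum_iff] at h
  refine HasSum.sigma h (fun m => ?_)
  have := hasSum_fintype (fun k : Finset.HasAntidiagonal.antidiagonal m => f k)
  rw [Finset.sum_coe_sort (Finset.HasAntidiagonal.antidiagonal m) (fun k => f k)] at this
  exact this

/-- binomial theorem in averaged form -/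
lemma binom_avg {R : Type*} [Field R] [CharZero R] (x y : R) (m : ℕ) :
    ∑ k ∈ Finset.HasAntidiagonal.antidiagonal m, ((k.1 + k.2).choose k.1 : R) / 2 ^ (k.1 + k.2) *
      (x ^ k.1 * y ^ k.2) = ((x + y) / 2) ^ m := by
  rw [div_pow, (Commute.all x y).add_pow', Finset.sum_div]
  refine Finset.sum_congr rfl fun k hk => ?_
  rw [Finset.HasAntidiagonal.mem_antidiagonal.1 hk, nsmul_eq_mul]
  ring

lemma F_mem : ∃ a : ℕ × ℕ → ℂ, (∀ z : ℂ × ℂ, ‖z.1‖ < 1 → ‖z.2‖ < 1 →
      HasSum (fun k : ℕ × ℕ => a k * (z.1 ^ k.1 * z.2 ^ k.2)) (gg ((z.1 + z.2) / 2))) ∧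
    ∑' k : ℕ × ℕ, ENNReal.ofReal (((k.1 : ℝ) + 1) * ((k.2 : ℝ) + 1) * ‖a k‖ ^ 2) < ⊤ := by
  obtain ⟨c, hc, hc2⟩ := exists_coeffs
  refine ⟨fun k => c (k.1 + k.2) * (((k.1 + k.2).choose k.1 : ℂ) / 2 ^ (k.1 + k.2)), ?_, ?_⟩
  · intro z h1 h2
    have hs : ‖(z.1 + z.2) / 2‖ < 1 := by
      rw [norm_div]
      have := norm_add_le z.1 z.2
      have h2' : ‖(2:ℂ)‖ = 2 := by simp
      rw [h2', div_lt_one (by norm_num)]
      linarith
    apply hasSum_of_antidiag
    · refine (hc _ hs).congr_fun ?_ |> fun h => h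
      intro m
      rw [← binom_avg, Finset.mul_sum]
      refine Finset.sum_congr rfl fun k hk => ?_
      simp only [Finset.HasAntidiagonal.mem_antidiagonal.1 hk]
      ring
    · set ρ : ℝ := (‖z.1‖ + ‖z.2‖) / 2 with hρ
      have hρ0 : 0 ≤ ρ := by positivity
      have hρ1 : ‖(ρ : ℂ)‖ < 1 := by
        rw [Complex.norm_real, Real.norm_of_nonneg hρ0, hρ]; linarith
      refine (hc _ hρ1).summable.norm.congr fun m => ?_
      rw [norm_mul, norm_pow, Complex.norm_real, Real.norm_of_nonneg hρ0, hρ, ← binom_avg,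
        Finset.mul_sum]
      refine Finset.sum_congr rfl fun k hk => ?_
      simp only [Finset.HasAntidiagonal.mem_antidiagonal.1 hk]
      simp only [norm_mul, norm_div, norm_pow, Complex.norm_natCast, Complex.norm_ofNat]
      ring
  · rw [tsum_antidiag]
    have hsum : Summable (fun m : ℕ => ((m : ℝ) + 1) ^ 2 * ‖c m‖ ^ 2) := by
      rw [← summable_nat_add_iff 1]
      have : Summable (fun i : ℕ => 4 * (((i : ℝ) + 1) ^ 2 * ‖c (i + 1)‖ ^ 2)) :=
        (summable_of_sum_range_le (fun i => by positivity) hc2).mul_left 4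
      refine Summable.of_nonneg_of_le (fun i => by positivity) (fun i => ?_) this
      push_cast
      have hi : (0:ℝ) ≤ i := Nat.cast_nonneg i
      have : ((i : ℝ) + 1 + 1) ^ 2 ≤ 4 * ((i : ℝ) + 1) ^ 2 := by nlinarith
      calc ((i : ℝ) + 1 + 1) ^ 2 * ‖c (i + 1)‖ ^ 2 ≤ (4 * ((i : ℝ) + 1) ^ 2) * ‖c (i + 1)‖ ^ 2 :=
            mul_le_mul_of_nonneg_right this (by positivity)
        _ = _ := by ring
    refine lt_of_le_of_lt (ENNReal.tsum_le_tsum fun m => ?_) hsum.tsum_ofReal_lt_top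
    rw [← ENNReal.ofReal_sum_of_nonneg (fun k _ => by positivity)]
    apply ENNReal.ofReal_le_ofReal
    have hb := binom_avg (1:ℝ) 1 m
    have h1 : ((1:ℝ) + 1) / 2 = 1 := by norm_num
    rw [h1, one_pow] at hb
    have hb' : ((m : ℝ) + 1) ^ 2 * ‖c m‖ ^ 2 = ∑ k ∈ Finset.HasAntidiagonal.antidiagonal m, ((m : ℝ) + 1) ^ 2 * ‖c m‖ ^ 2 *
        (((k.1 + k.2).choose k.1 : ℝ) / 2 ^ (k.1 + k.2) * (1 ^ k.1 * 1 ^ k.2)) := by
      rw [← Finset.mul_sum, hb, mul_one]
    rw [hb']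
    refine Finset.sum_le_sum fun k hk => ?_
    have hkm := Finset.HasAntidiagonal.mem_antidiagonal.1 hk
    simp only [hkm, norm_mul, norm_div, norm_pow, Complex.norm_natCast, Complex.norm_ofNat, one_pow,
      mul_one, mul_pow]
    have hk1 : ((k.1 : ℝ) + 1) * ((k.2 : ℝ) + 1) ≤ ((m : ℝ) + 1) ^ 2 := by
      have e : (m : ℝ) = k.1 + k.2 := by rw [← hkm]; push_cast; ring
      have h1 : (0:ℝ) ≤ k.1 := Nat.cast_nonneg _
      have h2 : (0:ℝ) ≤ k.2 := Nat.cast_nonneg _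
      rw [e]; nlinarith
    have hk2 : ((m.choose k.1 : ℝ) / 2 ^ m) ^ 2 ≤ (m.choose k.1 : ℝ) / 2 ^ m := by
      have h0 : 0 ≤ (m.choose k.1 : ℝ) / 2 ^ m := by positivity
      have h1 : (m.choose k.1 : ℝ) / 2 ^ m ≤ 1 := by
        rw [div_le_one (by positivity)]
        exact_mod_cast Nat.choose_le_two_pow m k.1
      nlinarith
    calc ((k.1 : ℝ) + 1) * ((k.2 : ℝ) + 1) * (‖c m‖ ^ 2 * ((m.choose k.1 : ℝ) / 2 ^ m) ^ 2)
        ≤ ((m : ℝ) + 1) ^ 2 * (‖c m‖ ^ 2 * ((m.choose k.1 : ℝ) / 2 ^ m)) := by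
          apply mul_le_mul hk1 _ (by positivity) (by positivity)
          exact mul_le_mul_of_nonneg_left hk2 (by positivity)
      _ = ((m : ℝ) + 1) ^ 2 * ‖c m‖ ^ 2 * ((m.choose k.1 : ℝ) / 2 ^ m) := by ring

end Pool.Agent.H806R3.Bid
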