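import Pool.Agent.H806R3.BidB

/-! # The function `gg ((z₁+z₂)/2)` is not cyclic -/

set_option autoImplicit false

namespace Pool.Agent.H806R3.Bid

open Filter Topology Real


lemma norm_gg_le {s : ℂ} (hs : ‖s‖ ≤ 1) : ‖gg s‖ ≤ ‖1 - s‖ ^ 2 := by
  rw [gg, norm_mul, norm_pow]
  have := norm_sg_le hs
  have h : (0:ℝ) ≤ ‖1 - s‖ ^ 2 := by positivity
  nlinarith

lemma contOn_gg : ContinuousOn gg (Metric.closedBall 0 1) := by
  intro s hs
  by_cases h : 1 - s = 0
  · have hs1 : s = 1 := (sub_eq_zero.1 h).symm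
    subst hs1
    have h0 : gg 1 = 0 := by simp [gg]
    unfold ContinuousWithinAt
    rw [h0]
    refine squeeze_zero_norm' (a := fun s => ‖1 - s‖ ^ 2) ?_ ?_
    · filter_upwards [self_mem_nhdsWithin] with s hs
      exact norm_gg_le (by simpa using hs)
    · have : Continuous fun s : ℂ => ‖1 - s‖ ^ 2 := by fun_prop
      have h2 := this.tendsto 1
      simp only [sub_self, norm_zero] at h2
      rw [show (0:ℝ) ^ 2 = 0 by norm_num] at h2
      exact h2.mono_left nhdsWithin_le_nhds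
  · exact (hasDerivAt_gg h).continuousAt.continuousWithinAt

lemma norm_gg_eq {s : ℂ} (hs : ‖s‖ = 1) : ‖gg s‖ = ‖(1 - s) ^ 2‖ := by
  rw [gg, norm_mul, norm_sg_eq hs, mul_one]

/-- the diagonal restriction of a polynomial -/
noncomputable def diag (p : MvPolynomial (Fin 2) ℂ) : Polynomial ℂ :=
  MvPolynomial.aeval (fun _ => (Polynomial.X : Polynomial ℂ)) p

lemma diag_eval (p : MvPolynomial (Fin 2) ℂ) (z : ℂ) :
    (diag p).eval z = MvPolynomial.eval ![z, z] p := by
  unfold diag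
  induction p using MvPolynomial.induction_on with
  | C a => simp
  | add p q hp hq => simp [hp, hq]
  | mul_X p i hp =>
    rw [map_mul, Polynomial.eval_mul, hp, map_mul]
    congr 1
    fin_cases i <;> simp

/-- The core: no polynomial multiple of the function is close to one. -/
lemma not_small (p : MvPolynomial (Fin 2) ℂ) (b : ℕ × ℕ → ℂ)
    (hb : ∀ z : ℂ × ℂ, ‖z.1‖ < 1 → ‖z.2‖ < 1 → HasSum (fun k : ℕ × ℕ => b k * (z.1 ^ k.1 * z.2 ^ k.2))
      (MvPolynomial.eval ![z.1, z.2] p * gg ((z.1 + z.2) / 2) - 1))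
    (hlt : ∑' k : ℕ × ℕ, ENNReal.ofReal (((k.1 : ℝ) + 1) * ((k.2 : ℝ) + 1) * ‖b k‖ ^ 2)
      ≤ ENNReal.ofReal (1 / 16)) : False := by
  set P := diag p with hP
  set β : ℕ → ℂ := fun m => ∑ k ∈ Finset.HasAntidiagonal.antidiagonal m, b k with hβ
  set h : ℂ → ℂ := fun z => P.eval z * gg z - 1 with hh
  -- (a)
  have hsum : ∀ z : ℂ, ‖z‖ < 1 → HasSum (fun m => β m * z ^ m) (h z) := by
    intro z hz
    have h1 := antidiag_of_hasSum (hb (z, z) hz hz)
    have e : ((z, z).1 + (z, z).2) / 2 = z := by simp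
    simp only [add_self_div_two] at h1
    have e2 : h z = MvPolynomial.eval ![z, z] p * gg z - 1 := by
      rw [hh]; simp only; rw [hP, diag_eval]
    rw [e2]
    refine h1.congr_fun ?_ |> fun h => h
    intro m
    rw [hβ]
    simp only
    rw [Finset.sum_mul]
    refine Finset.sum_congr rfl fun k hk => ?_
    rw [← pow_add, Finset.HasAntidiagonal.mem_antidiagonal.1 hk]
  -- (b)
  have hβ2 : ∀ m, ‖β m‖ ^ 2 ≤ ∑ k ∈ Finset.HasAntidiagonal.antidiagonal m, ((k.1 : ℝ) + 1) * ((k.2 : ℝ) + 1) * ‖b k‖ ^ 2 := by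
    intro m
    calc ‖β m‖ ^ 2 ≤ (∑ k ∈ Finset.HasAntidiagonal.antidiagonal m, ‖b k‖) ^ 2 :=
          pow_le_pow_left₀ (norm_nonneg _) (norm_sum_le _ _) 2
      _ ≤ ((Finset.HasAntidiagonal.antidiagonal m).card : ℝ) * ∑ k ∈ Finset.HasAntidiagonal.antidiagonal m, ‖b k‖ ^ 2 := sq_sum_le_card_mul_sum_sq
      _ ≤ _ := by
          rw [Finset.mul_sum]
          refine Finset.sum_le_sum fun k hk => ?_
          refine mul_le_mul_of_nonneg_right ?_ (by positivity)
          rw [Finset.Nat.card_antidiagonal, ← Finset.HasAntidiagonal.mem_antidiagonal.1 hk]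
          push_cast
          have h1 : (0:ℝ) ≤ k.1 := Nat.cast_nonneg _
          have h2 : (0:ℝ) ≤ k.2 := Nat.cast_nonneg _
          nlinarith [mul_nonneg h1 h2]
  -- (c)
  have hβ3 : ∀ n, ∑ m ∈ Finset.range n, ‖β m‖ ^ 2 ≤ 1 / 16 := by
    intro n
    rw [← ENNReal.ofReal_le_ofReal_iff (by norm_num)]
    refine le_trans ?_ hlt
    rw [tsum_antidiag, ENNReal.ofReal_sum_of_nonneg (fun _ _ => by positivity)]
    refine le_trans ?_ (ENNReal.sum_le_tsum (Finset.range n))
    refine Finset.sum_le_sum fun m _ => ?_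
    rw [← ENNReal.ofReal_sum_of_nonneg (fun _ _ => by positivity)]
    exact ENNReal.ofReal_le_ofReal (hβ2 m)
  -- continuity of `h`
  have hcont : ContinuousOn h (Metric.closedBall 0 1) :=
    ((P.continuous.continuousOn).mul contOn_gg).sub continuousOn_const
  have hζ : ∀ θ : ℝ, ‖circleMap 0 1 θ‖ = 1 := fun θ => by simp [norm_circleMap_zero]
  have hmem : ∀ r : ℝ, 0 ≤ r → r ≤ 1 → ∀ ζ : ℂ, ‖ζ‖ = 1 → (r : ℂ) * ζ ∈ Metric.closedBall (0:ℂ) 1 := by
    intro r h0 h1 ζ hζ1
    rw [mem_closedBall_zero_iff, norm_mul, hζ1, mul_one, Complex.norm_real,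
      Real.norm_of_nonneg h0]
    exact h1
  have hci : ∀ r : ℝ, 0 ≤ r → r ≤ 1 → ∀ ψ : ℂ → ℝ, Continuous ψ →
      CircleIntegrable (fun ζ => ψ (h (r * ζ))) 0 1 := by
    intro r h0 h1 ψ hψ
    apply ContinuousOn.circleIntegrable zero_le_one
    have h2 : ContinuousOn (fun ζ : ℂ => h ((r : ℂ) * ζ)) (Metric.sphere 0 1) := by
      refine hcont.comp (f := fun ζ : ℂ => (r : ℂ) * ζ) (by fun_prop) ?_
      intro ζ hζ1
      exact hmem r h0 h1 ζ (by simpa using hζ1)
    exact hψ.comp_continuousOn h2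
  -- (d)
  have hd : ∀ r : ℝ, 0 ≤ r → r < 1 → Real.circleAverage (fun ζ => ‖h (r * ζ)‖ ^ 2) 0 1 ≤ 1 / 16 := by
    intro r h0 h1
    refine le_of_tendsto (parseval hsum h0 h1) (Eventually.of_forall fun n => ?_)
    refine le_trans (Finset.sum_le_sum fun i _ => ?_) (hβ3 n)
    have : r ^ (2 * i) ≤ 1 := pow_le_one₀ h0 h1.le
    have h3 : 0 ≤ ‖β i‖ ^ 2 := by positivity
    nlinarith
  -- (e)
  have he : ∀ r : ℝ, 0 ≤ r → r < 1 → Real.circleAverage (fun ζ => ‖h (r * ζ)‖) 0 1 ≤ 1 / 4 := by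
    intro r h0 h1
    have h2 : Real.circleAverage (fun ζ => ‖h (r * ζ)‖) 0 1 ≤
        Real.circleAverage (fun ζ => (2 : ℝ) • (‖h (r * ζ)‖ ^ 2) + 1 / 8) 0 1 := by
      refine circleAverage_mono' (hci r h0 h1.le _ continuous_norm) ?_ ?_
      · exact hci r h0 h1.le (fun w => (2 : ℝ) • (‖w‖ ^ 2) + 1 / 8) (by fun_prop)
      · intro ζ _
        rw [smul_eq_mul]
        nlinarith [sq_nonneg (‖h (r * ζ)‖ - 1 / 4)]
    have h3 : Real.circleAverage (fun ζ => (2 : ℝ) • (‖h (r * ζ)‖ ^ 2) + 1 / 8) 0 1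
        = 2 * Real.circleAverage (fun ζ => ‖h (r * ζ)‖ ^ 2) 0 1 + 1 / 8 := by
      have e1 : (fun ζ => (2 : ℝ) • (‖h (r * ζ)‖ ^ 2) + 1 / 8)
          = (fun ζ => (2 : ℝ) • (‖h (r * ζ)‖ ^ 2)) + fun _ => (1 / 8 : ℝ) := rfl
      rw [e1, Real.circleAverage_add, Real.circleAverage_const]
      · have e2 := Real.circleAverage_fun_smul (c := (0:ℂ)) (R := 1) (a := (2:ℝ))
          (f := fun ζ => ‖h (r * ζ)‖ ^ 2)
        rw [e2, smul_eq_mul]
      · exact hci r h0 h1.le (fun w => (2 : ℝ) • (‖w‖ ^ 2)) (by fun_prop)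
      · exact circleIntegrable_const _ _ _
    have h4 := hd r h0 h1
    linarith
  -- (f)
  obtain ⟨M, hM⟩ := (isCompact_closedBall (0:ℂ) 1).exists_bound_of_continuousOn hcont
  have hf : Real.circleAverage (fun ζ => ‖h ζ‖) 0 1 ≤ 1 / 4 := by
    have ht : Tendsto (fun r : ℝ => Real.circleAverage (fun ζ => ‖h (r * ζ)‖) 0 1) (𝓝[<] 1)
        (𝓝 (Real.circleAverage (fun ζ => ‖h ζ‖) 0 1)) := by
      unfold Real.circleAverage
      refine Tendsto.const_smul ?_ _
      have h01 : ∀ᶠ r : ℝ in 𝓝[<] 1, 0 < r ∧ r < 1 := by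
        have : ∀ᶠ r : ℝ in 𝓝[<] 1, 0 < r :=
          (lt_mem_nhds (zero_lt_one (α := ℝ))).filter_mono nhdsWithin_le_nhds
        filter_upwards [this, self_mem_nhdsWithin] with r h0 hr using ⟨h0, hr⟩
      refine intervalIntegral.tendsto_integral_filter_of_dominated_convergence
        (fun _ => M) ?_ ?_ intervalIntegrable_const ?_
      · filter_upwards [h01] with r hr
        have := hci r hr.1.le hr.2.le _ continuous_norm
        rw [Set.uIoc_of_le (by positivity)]
        exact this.aestronglyMeasurable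
      · filter_upwards [h01] with r hr
        refine Eventually.of_forall fun θ _ => ?_
        rw [norm_norm]
        exact hM _ (hmem r hr.1.le hr.2.le _ (hζ θ))
      · refine Eventually.of_forall fun θ _ => ?_
        refine Tendsto.norm ?_
        have h1 : ContinuousWithinAt h (Metric.closedBall 0 1) (circleMap 0 1 θ) :=
          hcont _ (by simp [hζ θ])
        refine h1.tendsto.comp ?_
        refine tendsto_nhdsWithin_iff.2 ⟨?_, ?_⟩
        · have : Continuous fun r : ℝ => (r : ℂ) * circleMap 0 1 θ := by fun_prop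
          have h2 := this.tendsto 1
          simp only [Complex.ofReal_one, one_mul] at h2
          exact h2.mono_left nhdsWithin_le_nhds
        · filter_upwards [h01] with r hr
          exact hmem r hr.1.le hr.2.le _ (hζ θ)
    refine le_of_tendsto ht ?_
    have h0 : ∀ᶠ r : ℝ in 𝓝[<] 1, 0 < r :=
      (lt_mem_nhds (zero_lt_one (α := ℝ))).filter_mono nhdsWithin_le_nhds
    filter_upwards [h0, self_mem_nhdsWithin] with r h0 hr
    exact he r h0.le hr
  -- (g)
  set Q : Polynomial ℂ := P * (1 - Polynomial.X) ^ 2 with hQ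
  have hQe : ∀ z, Q.eval z = P.eval z * (1 - z) ^ 2 := by
    intro z
    rw [hQ]; simp
  have hlog : Q.logMahlerMeasure ≤ 1 / 4 := by
    rw [Polynomial.logMahlerMeasure_def]
    refine le_trans (circleAverage_mono' Q.intervalIntegrable_mahlerMeasure ?_ ?_) hf
    · have := hci 1 zero_le_one le_rfl _ continuous_norm
      simpa using this
    · intro ζ hζ1
      have e : ‖Q.eval ζ‖ = ‖P.eval ζ * gg ζ‖ := by
        rw [hQe, norm_mul, norm_mul, norm_gg_eq hζ1]
      rw [e]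
      have h1 : ‖P.eval ζ * gg ζ‖ ≤ 1 + ‖h ζ‖ := by
        have : P.eval ζ * gg ζ = 1 + h ζ := by rw [hh]; ring
        rw [this]
        refine (norm_add_le _ _).trans ?_
        simp
      by_cases h0 : ‖P.eval ζ * gg ζ‖ = 0
      · rw [h0]; simp
      · have h2 := Real.log_le_sub_one_of_pos (lt_of_le_of_ne (norm_nonneg _) (Ne.symm h0))
        linarith
  -- (h)
  have hcoef := Polynomial.norm_coeff_le_choose_mul_mahlerMeasure 0 Q
  rw [Nat.choose_zero_right, Nat.cast_one, one_mul, Polynomial.coeff_zero_eq_eval_zero, hQe] at hcoef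
  simp only [sub_zero, one_pow, mul_one] at hcoef
  have hm : Q.mahlerMeasure ≤ Real.exp (1 / 4) := by
    by_cases hq : Q = 0
    · rw [hq, Polynomial.mahlerMeasure_zero]; positivity
    · rw [Polynomial.mahlerMeasure, if_pos hq]
      exact Real.exp_le_exp.2 hlog
  -- (i)
  have hg0 : gg 0 = (Real.exp (-1) : ℝ) := by
    simp [gg, sg]
  have h0 : h 0 = β 0 := by
    have h1 := hsum 0 (by simp)
    have h2 : HasSum (fun m => β m * (0:ℂ) ^ m) (β 0 * 0 ^ 0) := by
      apply hasSum_single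
      intro m hm
      simp [hm]
    have := h1.unique h2
    simpa using this
  have h1 : ‖h 0‖ ^ 2 ≤ 1 / 16 := by
    have := hβ3 1
    rw [Finset.sum_range_one, ← h0] at this
    exact this
  have h2 : ‖h 0‖ ≤ 1 / 4 := by
    nlinarith [norm_nonneg (h 0)]
  have h3 : 1 - ‖h 0‖ ≤ ‖P.eval 0‖ * Real.exp (-1) := by
    have e1 : P.eval 0 * gg 0 = 1 + h 0 := by rw [hh]; ring
    have e2 : ‖P.eval 0‖ * Real.exp (-1) = ‖P.eval 0 * gg 0‖ := by
      rw [hg0, norm_mul, Complex.norm_real, Real.norm_of_nonneg (Real.exp_pos _).le]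
    rw [e2, e1]
    have := norm_sub_norm_le (1:ℂ) (-h 0)
    rw [norm_one, norm_neg, sub_neg_eq_add] at this
    exact this
  have h4 : 3 / 4 ≤ Real.exp (1 / 4) * Real.exp (-1) := by
    have h5 : ‖P.eval 0‖ * Real.exp (-1) ≤ Real.exp (1 / 4) * Real.exp (-1) :=
      mul_le_mul_of_nonneg_right (hcoef.trans hm) (Real.exp_pos _).le
    linarith
  rw [← Real.exp_add] at h4
  have h6 : Real.exp (1 / 4 + -1) * Real.exp (3 / 4) = 1 := by
    rw [← Real.exp_add]; norm_num
  have h7 : (3 / 4 : ℝ) + 1 ≤ Real.exp (3 / 4) := Real.add_one_le_exp _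
  nlinarith [Real.exp_pos (1 / 4 + -1 : ℝ), Real.exp_pos (3 / 4 : ℝ)]

end Pool.Agent.H806R3.Bid
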