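import Pool.Agent.H806R3.BidC

/-! # The function `gg ((z₁+z₂)/2)` is outer on the bidisk -/

set_option autoImplicit false

namespace Pool.Agent.H806R3.Bid

open Filter Topology Real MeasureTheory

/-- `log |F|` -/
noncomputable def LL (u v : ℂ) : ℝ := Real.log ‖gg ((u + v) / 2)‖

lemma LL_comm (u v : ℂ) : LL u v = LL v u := by unfold LL; rw [add_comm]

lemma ne_one_of {u v : ℂ} (hu : ‖u‖ ≤ 1) (hv : ‖v‖ ≤ 1) (h : u ≠ 1) : (u + v) / 2 ≠ 1 := by
  intro he
  apply h
  have e : u + v = 2 := by field_simp at he; exact he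
  have h1 := congrArg Complex.re e
  simp only [Complex.add_re, Complex.re_ofNat] at h1
  have h2 := Complex.re_le_norm u
  have h3 := Complex.re_le_norm v
  have h4 : u.re = 1 := by linarith
  have h5 : u.im = 0 := by
    have h6 := Complex.sq_norm u
    rw [Complex.normSq_apply] at h6
    have h7 : ‖u‖ ^ 2 ≤ 1 := by nlinarith [norm_nonneg u]
    have h8 : u.im * u.im ≤ 0 := by rw [h4] at h6; linarith
    nlinarith [mul_self_nonneg u.im]
  exact Complex.ext (by simpa using h4) (by simpa using h5)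

lemma gg_ne {s : ℂ} (hs : s ≠ 1) : gg s ≠ 0 := by
  unfold gg sg
  exact mul_ne_zero (pow_ne_zero 2 (sub_ne_zero.2 (Ne.symm hs))) (Complex.exp_ne_zero _)

lemma analyticAt_gg {s : ℂ} (hs : s ≠ 1) : AnalyticAt ℂ gg s := by
  have h : DifferentiableOn ℂ gg {1}ᶜ := fun t ht =>
    (hasDerivAt_gg (sub_ne_zero.2 (Ne.symm ht))).differentiableAt.differentiableWithinAt
  exact h.analyticAt (isOpen_compl_singleton.mem_nhds hs)

lemma harm {u v : ℂ} (h : (u + v) / 2 ≠ 1) : InnerProductSpace.HarmonicAt (LL u) v := by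
  unfold LL
  have h1 : AnalyticAt ℂ (fun v => gg ((u + v) / 2)) v :=
    AnalyticAt.fun_comp (f := fun v => (u + v) / 2) (analyticAt_gg h) (by fun_prop)
  exact h1.harmonicAt_log_norm (gg_ne h)

lemma poisson1 {u : ℂ} (hu : ‖u‖ ≤ 1) (h1 : u ≠ 1) {w : ℂ} (hw : ‖w‖ < 1) :
    Real.circleAverage (fun v => poissonKernel 0 w v * LL u v) 0 1 = LL u w := by
  have h : InnerProductSpace.HarmonicOnNhd (LL u) (Metric.closedBall 0 1) := fun v hv =>
    harm (ne_one_of hu (by simpa using hv) h1)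
  have := InnerProductSpace.HarmonicOnNhd.circleAverage_poissonKernel_smul h
    (w := w) (by simpa using hw)
  exact this

lemma contOn_LL {u : ℂ} (hu : ‖u‖ ≤ 1) (h1 : u ≠ 1) : ContinuousOn (LL u) (Metric.closedBall 0 1) := by
  intro v hv
  have h2 := ne_one_of hu (by simpa using hv) h1
  have h3 : ContinuousAt (fun v => gg ((u + v) / 2)) v :=
    ContinuousAt.comp (f := fun v => (u + v) / 2) (analyticAt_gg h2).continuousAt (by fun_prop)
  exact (h3.norm.log (norm_ne_zero_iff.2 (gg_ne h2))).continuousWithinAt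

lemma measurable_gg : Measurable gg := by
  unfold gg sg
  fun_prop

lemma LL_le {u v : ℂ} (hu : ‖u‖ ≤ 1) (hv : ‖v‖ ≤ 1) : LL u v ≤ Real.log 4 := by
  have hs : ‖(u + v) / 2‖ ≤ 1 := by
    rw [norm_div]
    have := norm_add_le u v
    have h2' : ‖(2:ℂ)‖ = 2 := by simp
    rw [h2', div_le_one (by norm_num)]
    linarith
  have h1 : ‖gg ((u + v) / 2)‖ ≤ 4 := by
    refine (norm_gg_le hs).trans ?_
    have : ‖1 - (u + v) / 2‖ ≤ 2 := by
      refine (norm_sub_le _ _).trans ?_
      rw [norm_one]; linarith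
    nlinarith [norm_nonneg (1 - (u + v) / 2)]
  unfold LL
  by_cases h0 : ‖gg ((u + v) / 2)‖ = 0
  · rw [h0, Real.log_zero]
    exact Real.log_nonneg (by norm_num)
  · exact Real.log_le_log (lt_of_le_of_ne (norm_nonneg _) (Ne.symm h0)) h1

/-- the circle -/
noncomputable def cc (θ : ℝ) : ℂ := circleMap 0 1 θ

lemma norm_cc (θ : ℝ) : ‖cc θ‖ = 1 := by simp [cc, norm_circleMap_zero]

lemma cont_cc : Continuous cc := by unfold cc; fun_prop

/-- Lebesgue measure on `(0, 2π]` -/
noncomputable def mm : Measure ℝ := volume.restrict (Set.Ioc 0 (2 * π))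

instance : IsFiniteMeasure mm := by unfold mm; infer_instance

lemma ae_ne_one : ∀ᵐ θ ∂mm, cc θ ≠ 1 := by
  have h1 : ∀ᵐ θ ∂mm, θ ∈ Set.Ioc 0 (2 * π) := by
    unfold mm; exact ae_restrict_mem measurableSet_Ioc
  have h2 : ∀ᵐ θ ∂mm, θ ≠ 2 * π := by
    unfold mm
    apply ae_restrict_of_ae
    exact Measure.ae_ne volume (2 * π)
  filter_upwards [h1, h2] with θ h3 h4 h5
  have h6 : Real.cos θ = 1 := by
    have := congrArg Complex.re h5
    simpa [cc, circleMap, Complex.exp_ofReal_mul_I_re] using this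
  rw [Real.cos_eq_one_iff_of_lt_of_lt (by linarith [h3.1, Real.pi_pos])
    (lt_of_le_of_ne h3.2 h4)] at h6
  exact absurd h6 (ne_of_gt h3.1)

lemma integral_mm (f : ℝ → ℝ) : ∫ θ, f θ ∂mm = ∫ θ in (0:ℝ)..(2 * π), f θ := by
  unfold mm
  rw [intervalIntegral.integral_of_le (by positivity)]

lemma avg_eq {f : ℂ → ℝ} {A : ℝ} (h : Real.circleAverage f 0 1 = A) :
    ∫ θ, f (cc θ) ∂mm = 2 * π * A := by
  rw [integral_mm, ← h]
  unfold Real.circleAverage cc
  rw [smul_eq_mul, ← mul_assoc, mul_inv_cancel₀ (by positivity), one_mul]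

lemma pk_bound {w : ℂ} (hw : ‖w‖ < 1) (θ : ℝ) :
    ‖poissonKernel 0 w (cc θ)‖ ≤ 1 / (1 - ‖w‖) ^ 2 := by
  have h1 : 0 < 1 - ‖w‖ := by linarith
  rw [poissonKernel_def, sub_zero, sub_zero, norm_cc, Real.norm_eq_abs, abs_div,
    abs_of_nonneg (by positivity : 0 ≤ ‖cc θ - w‖ ^ 2)]
  have h2 : 1 - ‖w‖ ≤ ‖cc θ - w‖ := by
    have := norm_sub_norm_le (cc θ) w
    rwa [norm_cc] at this
  have h3 : |(1:ℝ) ^ 2 - ‖w‖ ^ 2| ≤ 1 := by
    rw [abs_le]; constructor <;> nlinarith [norm_nonneg w]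
  gcongr

lemma cont_pk {w : ℂ} (hw : ‖w‖ < 1) : Continuous fun θ => poissonKernel 0 w (cc θ) := by
  simp only [poissonKernel_def, sub_zero]
  have h := cont_cc
  refine Continuous.div (by fun_prop) (by fun_prop) fun θ => ?_
  have h1 : 1 - ‖w‖ ≤ ‖cc θ - w‖ := by
    have := norm_sub_norm_le (cc θ) w
    rwa [norm_cc] at this
  have h2 : 0 < ‖cc θ - w‖ := by linarith
  positivity

lemma meas_LL : Measurable fun θ : ℝ × ℝ => LL (cc θ.1) (cc θ.2) := by
  unfold LL
  have h := cont_cc.measurable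
  have h2 := measurable_gg
  fun_prop

/-- `log |F|` is integrable on the torus -/
lemma integrable_LL : Integrable (fun θ : ℝ × ℝ => LL (cc θ.1) (cc θ.2)) (mm.prod mm) := by
  have key : Integrable (fun θ : ℝ × ℝ => Real.log 4 - LL (cc θ.1) (cc θ.2)) (mm.prod mm) := by
    rw [integrable_prod_iff (meas_LL.const_sub _).aestronglyMeasurable]
    have hi : ∀ u : ℂ, ‖u‖ ≤ 1 → u ≠ 1 → Integrable (fun θ => LL u (cc θ)) mm := by
      intro u hu h1
      have : Continuous fun θ => LL u (cc θ) := by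
        refine (contOn_LL hu h1).comp_continuous cont_cc fun θ => ?_
        simp [norm_cc]
      unfold mm
      exact (this.integrableOn_Icc (a := 0) (b := 2 * π)).mono_set Set.Ioc_subset_Icc_self
    constructor
    · filter_upwards [ae_ne_one] with θ hθ
      exact (integrable_const _).sub (hi _ (norm_cc θ).le hθ)
    · have h0 : (fun θ => ∫ θ', ‖Real.log 4 - LL (cc θ) (cc θ')‖ ∂mm)
          =ᵐ[mm] fun θ => 2 * π * (Real.log 4) - 2 * π * LL (cc θ) 0 := by
        filter_upwards [ae_ne_one] with θ hθ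
        have h1 : ∀ θ', ‖Real.log 4 - LL (cc θ) (cc θ')‖ = Real.log 4 - LL (cc θ) (cc θ') := by
          intro θ'
          rw [Real.norm_of_nonneg]
          linarith [LL_le (norm_cc θ).le (norm_cc θ').le]
        simp only [h1]
        rw [integral_sub (integrable_const _) (hi _ (norm_cc θ).le hθ)]
        congr 1
        · rw [integral_const, smul_eq_mul]
          unfold mm
          rw [Measure.real, Measure.restrict_apply_univ, Real.volume_Ioc, sub_zero,
            ENNReal.toReal_ofReal (by positivity)]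
        · have h2 := poisson1 (norm_cc θ).le hθ (w := 0) (by simp)
          have h3 := avg_eq h2
          rw [← h3]
          refine integral_congr_ae (Eventually.of_forall fun θ' => ?_)
          simp [poissonKernel_def, norm_cc]
      rw [integrable_congr h0]
      refine (integrable_const _).sub (Integrable.const_mul ?_ _)
      have h4 : Continuous fun θ => LL (cc θ) 0 := by
        have : (fun θ => LL (cc θ) 0) = fun θ => LL 0 (cc θ) := by
          ext θ; rw [LL_comm]
        rw [this]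
        refine (contOn_LL (u := 0) (by simp) (by simp)).comp_continuous cont_cc fun θ => ?_
        simp [norm_cc]
      unfold mm
      exact (h4.integrableOn_Icc (a := 0) (b := 2 * π)).mono_set Set.Ioc_subset_Icc_self
  have h5 := (integrable_const (μ := mm.prod mm) (Real.log 4)).sub key
  refine h5.congr (Eventually.of_forall fun θ => ?_)
  simp

/-- Poisson's formula on the bidisk -/
lemma poisson2 {z : ℂ × ℂ} (h1 : ‖z.1‖ < 1) (h2 : ‖z.2‖ < 1) :
    LL z.1 z.2 = ((2 * π)⁻¹) ^ 2 * ∫ θ : ℝ × ℝ, LL (cc θ.1) (cc θ.2) *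
      (poissonKernel 0 z.1 (cc θ.1) * poissonKernel 0 z.2 (cc θ.2)) ∂(mm.prod mm) := by
  have hint : Integrable (fun θ : ℝ × ℝ => LL (cc θ.1) (cc θ.2) *
      (poissonKernel 0 z.1 (cc θ.1) * poissonKernel 0 z.2 (cc θ.2))) (mm.prod mm) := by
    refine integrable_LL.mul_bdd (c := 1 / (1 - ‖z.1‖) ^ 2 * (1 / (1 - ‖z.2‖) ^ 2)) ?_ ?_
    · exact (((cont_pk h1).comp continuous_fst).mul ((cont_pk h2).comp continuous_snd)).aestronglyMeasurable
    · refine Eventually.of_forall fun θ => ?_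
      rw [norm_mul]
      exact mul_le_mul (pk_bound h1 _) (pk_bound h2 _) (norm_nonneg _) (by positivity)
  rw [integral_prod _ hint]
  have e1 : (fun θ => ∫ θ', LL (cc θ) (cc θ') *
      (poissonKernel 0 z.1 (cc θ) * poissonKernel 0 z.2 (cc θ')) ∂mm)
      =ᵐ[mm] fun θ => 2 * π * (poissonKernel 0 z.1 (cc θ) * LL (cc θ) z.2) := by
    filter_upwards [ae_ne_one] with θ hθ
    have h3 := avg_eq (poisson1 (norm_cc θ).le hθ h2)
    have h4 : (fun θ' => LL (cc θ) (cc θ') *
        (poissonKernel 0 z.1 (cc θ) * poissonKernel 0 z.2 (cc θ')))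
        = fun θ' => poissonKernel 0 z.1 (cc θ) * (poissonKernel 0 z.2 (cc θ') * LL (cc θ) (cc θ')) := by
      ext θ'; ring
    rw [h4, integral_const_mul, h3]
    ring
  rw [integral_congr_ae e1, integral_const_mul]
  have hz1 : z.2 ≠ 1 := by
    intro h; rw [h] at h2; simp at h2
  have h5 := avg_eq (poisson1 h2.le hz1 h1)
  have h6 : (fun θ => poissonKernel 0 z.1 (cc θ) * LL (cc θ) z.2)
      = fun θ => poissonKernel 0 z.1 (cc θ) * LL z.2 (cc θ) := by
    ext θ; rw [LL_comm]
  rw [h6, h5, LL_comm z.2 z.1]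
  have : (2 * π) ≠ 0 := by positivity
  field_simp

end Pool.Agent.H806R3.Bid
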