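import Mathlib

/-!
# Weights on digit cells along lines

`wt p q W l x y` is the product over the first `l` digit positions of `W (base p digit of x)
(base q digit of y)`.
-/

set_option autoImplicit false

namespace Pool.Agent.H806R3.Tube

open MeasureTheory Set Finset

/-- the `(t+1)`-st digit of `x` in base `p` -/
noncomputable def dig (p : ℕ) (t : ℕ) (x : ℝ) : ℤ := ⌊(p : ℝ) ^ (t + 1) * x⌋ % (p : ℤ)

/-- product weight -/
noncomputable def wt (p q : ℕ) (W : ℤ → ℤ → ℝ) (l : ℕ) (x y : ℝ) : ℝ :=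
  ∏ t ∈ Finset.range l, W (dig p t x) (dig q t y)

variable {p q : ℕ} {W : ℤ → ℤ → ℝ} {B : ℝ}

lemma wt_zero (x y : ℝ) : wt p q W 0 x y = 1 := by simp [wt]

lemma wt_succ (l : ℕ) (x y : ℝ) :
    wt p q W (l + 1) x y = wt p q W l x y * W (dig p l x) (dig q l y) := by
  simp [wt, Finset.prod_range_succ]

lemma wt_nonneg (hW : ∀ a b, 0 ≤ W a b) (l : ℕ) (x y : ℝ) : 0 ≤ wt p q W l x y :=
  Finset.prod_nonneg (fun _ _ => hW _ _)

lemma wt_le (hW : ∀ a b, 0 ≤ W a b) (hB : ∀ a b, W a b ≤ B) (l : ℕ) (x y : ℝ) :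
    wt p q W l x y ≤ B ^ l := by
  unfold wt
  calc _ ≤ ∏ _t ∈ Finset.range l, B :=
        Finset.prod_le_prod (fun _ _ => hW _ _) (fun _ _ => hB _ _)
    _ = B ^ l := by simp

lemma wt_swap (l : ℕ) (x y : ℝ) : wt p q W l x y = wt q p (fun a b => W b a) l y x := rfl

lemma dig_scale (a t : ℕ) (x : ℝ) : dig p (a + t) x = dig p t ((p : ℝ) ^ a * x) := by
  unfold dig
  have : (p : ℝ) ^ (a + t + 1) * x = (p : ℝ) ^ (t + 1) * ((p : ℝ) ^ a * x) := by ring
  rw [this]

lemma wt_add (a b : ℕ) (x y : ℝ) :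
    wt p q W (a + b) x y = wt p q W a x y * wt p q W b ((p : ℝ) ^ a * x) ((q : ℝ) ^ a * y) := by
  unfold wt
  rw [Finset.prod_range_add]
  congr 1
  refine Finset.prod_congr rfl (fun t _ => ?_)
  rw [dig_scale, dig_scale]

lemma dig_add_int (t : ℕ) (x : ℝ) (z : ℤ) : dig p t (x + z) = dig p t x := by
  unfold dig
  have : (p : ℝ) ^ (t + 1) * (x + z) = (p : ℝ) ^ (t + 1) * x + (((p : ℤ) * (p : ℤ) ^ t * z : ℤ) : ℝ) := by
    push_cast
    ring
  rw [this, Int.floor_add_intCast, mul_assoc, Int.add_mul_emod_self_left]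

lemma wt_add_int_left (l : ℕ) (x y : ℝ) (z : ℤ) : wt p q W l (x + z) y = wt p q W l x y := by
  unfold wt
  refine Finset.prod_congr rfl (fun t _ => ?_)
  rw [dig_add_int]

lemma wt_add_int_right (l : ℕ) (x y : ℝ) (z : ℤ) : wt p q W l x (y + z) = wt p q W l x y := by
  unfold wt
  refine Finset.prod_congr rfl (fun t _ => ?_)
  rw [dig_add_int]

lemma floor_of_level (hp : 0 < p) (t d : ℕ) (x : ℝ) :
    ⌊(p : ℝ) ^ t * x⌋ = ⌊(p : ℝ) ^ (t + d) * x⌋ / ((p ^ d : ℕ) : ℤ) := by
  have hp' : (0 : ℝ) < p := by exact_mod_cast hp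
  rw [← Int.floor_div_natCast]
  congr 1
  push_cast
  rw [pow_add]
  field_simp

lemma dig_congr (hp : 0 < p) {l t : ℕ} (ht : t < l) {x x' : ℝ}
    (h : ⌊(p : ℝ) ^ l * x⌋ = ⌊(p : ℝ) ^ l * x'⌋) : dig p t x = dig p t x' := by
  unfold dig
  obtain ⟨d, rfl⟩ := Nat.exists_eq_add_of_le (Nat.succ_le_of_lt ht)
  rw [floor_of_level hp (t + 1) d x, floor_of_level hp (t + 1) d x']
  rw [Nat.succ_eq_add_one] at h
  rw [h]

lemma wt_congr (hp : 0 < p) (hq : 0 < q) {l : ℕ} {x x' y y' : ℝ}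
    (hx : ⌊(p : ℝ) ^ l * x⌋ = ⌊(p : ℝ) ^ l * x'⌋) (hy : ⌊(q : ℝ) ^ l * y⌋ = ⌊(q : ℝ) ^ l * y'⌋) :
    wt p q W l x y = wt p q W l x' y' := by
  unfold wt
  refine Finset.prod_congr rfl (fun t ht => ?_)
  rw [dig_congr hp (Finset.mem_range.mp ht) hx, dig_congr hq (Finset.mem_range.mp ht) hy]

lemma wt_mul_le (hW : ∀ a b, 0 ≤ W a b) (hB : ∀ a b, W a b ≤ B) (s d : ℕ) (x y : ℝ) :
    wt p q W (s + d) x y ≤ wt p q W s x y * B ^ d := by
  rw [wt_add]
  exact mul_le_mul_of_nonneg_left (wt_le hW hB _ _ _) (wt_nonneg hW _ _ _)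

/-! ### measurability and integrability along lines -/

lemma measurable_dig (t : ℕ) : Measurable (dig p t) := by
  unfold dig
  have h1 : Measurable (fun z : ℤ => z % (p : ℤ)) := Measurable.of_discrete
  exact h1.comp (Int.measurable_floor.comp (measurable_const.mul measurable_id))

lemma measurable_wt (l : ℕ) {f g : ℝ → ℝ} (hf : Measurable f) (hg : Measurable g) :
    Measurable (fun x => wt p q W l (f x) (g x)) := by
  unfold wt
  refine Finset.measurable_prod _ (fun t _ => ?_)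
  have h1 : Measurable (fun z : ℤ × ℤ => W z.1 z.2) := Measurable.of_discrete
  exact h1.comp (((measurable_dig t).comp hf).prodMk ((measurable_dig t).comp hg))

lemma intervalIntegrable_of_bdd {f : ℝ → ℝ} (hf : Measurable f) {C : ℝ} (hC : ∀ x, |f x| ≤ C)
    (a b : ℝ) : IntervalIntegrable f volume a b := by
  refine IntervalIntegrable.mono_fun' (g := fun _ => C) intervalIntegrable_const
    hf.aestronglyMeasurable ?_
  exact Filter.Eventually.of_forall (fun x => hC x)

lemma integrable_wt (hW : ∀ a b, 0 ≤ W a b) (hB : ∀ a b, W a b ≤ B) (l : ℕ) {f g : ℝ → ℝ}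
    (hf : Measurable f) (hg : Measurable g) (a b : ℝ) :
    IntervalIntegrable (fun x => wt p q W l (f x) (g x)) volume a b := by
  refine intervalIntegrable_of_bdd (measurable_wt l hf hg) (C := B ^ l) (fun x => ?_) a b
  rw [abs_of_nonneg (wt_nonneg hW _ _ _)]
  exact wt_le hW hB _ _ _

lemma int_congr_Ico {f g : ℝ → ℝ} {u v : ℝ} (huv : u ≤ v) (h : ∀ x ∈ Ico u v, f x = g x) :
    ∫ x in u..v, f x = ∫ x in u..v, g x := by
  rw [intervalIntegral.integral_of_le huv, intervalIntegral.integral_of_le huv,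
    ← integral_Ico_eq_integral_Ioc, ← integral_Ico_eq_integral_Ioc]
  exact setIntegral_congr_fun measurableSet_Ico h

lemma int_const_Ico {f : ℝ → ℝ} {u v c : ℝ} (huv : u ≤ v) (h : ∀ x ∈ Ico u v, f x = c) :
    ∫ x in u..v, f x = (v - u) * c := by
  rw [int_congr_Ico huv (g := fun _ => c) h]
  simp

lemma int_mono_Ico {f g : ℝ → ℝ} {u v : ℝ} (huv : u ≤ v)
    (hf : IntervalIntegrable f volume u v) (hg : IntervalIntegrable g volume u v)
    (h : ∀ x ∈ Ico u v, f x ≤ g x) :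
    ∫ x in u..v, f x ≤ ∫ x in u..v, g x := by
  rw [intervalIntegral.integral_of_le huv, intervalIntegral.integral_of_le huv,
    ← integral_Ico_eq_integral_Ioc, ← integral_Ico_eq_integral_Ioc]
  refine setIntegral_mono_on ?_ ?_ measurableSet_Ico h
  · exact (intervalIntegrable_iff_integrableOn_Ico_of_le huv).mp hf
  · exact (intervalIntegrable_iff_integrableOn_Ico_of_le huv).mp hg

/-- floor of a scaled point in a column -/
lemma floor_col (hp : 0 < p) (l : ℕ) (i : ℤ) {x : ℝ}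
    (hx : x ∈ Ico ((i : ℝ) / (p : ℝ) ^ l) (((i : ℝ) + 1) / (p : ℝ) ^ l)) :
    ⌊(p : ℝ) ^ l * x⌋ = i := by
  have hp' : (0 : ℝ) < (p : ℝ) ^ l := by positivity
  rw [Int.floor_eq_iff]
  obtain ⟨h1, h2⟩ := hx
  rw [div_le_iff₀ hp'] at h1
  rw [lt_div_iff₀ hp'] at h2
  constructor <;> nlinarith

/-- integral of the next digit weight over a column -/
lemma int_digit (hp : 0 < p) (b : ℤ) (hsum : ∑ a ∈ Finset.range p, W (a : ℤ) b = p) (l : ℕ)
    (i : ℤ) :
    ∫ x in ((i : ℝ) / (p : ℝ) ^ l)..(((i : ℝ) + 1) / (p : ℝ) ^ l), W (dig p l x) b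
      = 1 / (p : ℝ) ^ l := by
  have hp' : (0 : ℝ) < (p : ℝ) := by exact_mod_cast hp
  have hpl : (0 : ℝ) < (p : ℝ) ^ l := by positivity
  have hpl1 : (0 : ℝ) < (p : ℝ) ^ (l + 1) := by positivity
  let c : ℕ → ℝ := fun a => ((i : ℝ) * p + a) / (p : ℝ) ^ (l + 1)
  have hc0 : c 0 = (i : ℝ) / (p : ℝ) ^ l := by
    simp only [c]
    rw [pow_succ]
    field_simp
    simp
  have hcp : c p = ((i : ℝ) + 1) / (p : ℝ) ^ l := by
    simp only [c]
    rw [pow_succ]
    field_simp
  have hval : ∀ a : ℕ, a < p → ∀ x ∈ Ico (c a) (c (a + 1)), W (dig p l x) b = W (a : ℤ) b := by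
    intro a ha x hx
    have hfl : ⌊(p : ℝ) ^ (l + 1) * x⌋ = i * p + a := by
      have := floor_col (p := p) hp (l + 1) (i * p + a) (x := x) (by
        simp only [c] at hx
        push_cast at hx ⊢
        rw [← add_assoc] at hx
        exact hx)
      exact this
    have : dig p l x = (a : ℤ) := by
      unfold dig
      rw [hfl, add_comm, Int.add_mul_emod_self_right]
      exact Int.emod_eq_of_lt (by positivity) (by exact_mod_cast ha)
    rw [this]
  have hmeas : Measurable (fun x => W (dig p l x) b) := by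
    have h1 : Measurable (fun z : ℤ => W z b) := Measurable.of_discrete
    exact h1.comp (measurable_dig l)
  have hcc : ∀ a : ℕ, c a ≤ c (a + 1) := by
    intro a
    simp only [c]
    apply div_le_div_of_nonneg_right _ hpl1.le
    push_cast
    linarith
  have hII : ∀ a : ℕ, a < p → IntervalIntegrable (fun x => W (dig p l x) b) volume (c a) (c (a + 1)) := by
    intro a ha
    rw [intervalIntegrable_iff_integrableOn_Ico_of_le (hcc a)]
    have : IntegrableOn (fun _ : ℝ => W (a : ℤ) b) (Ico (c a) (c (a + 1))) volume := by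
      simp
    exact this.congr_fun (fun x hx => (hval a ha x hx).symm) measurableSet_Ico
  rw [← hc0, ← hcp, ← intervalIntegral.sum_integral_adjacent_intervals (fun k hk => hII k hk)]
  have h2 : ∀ a ∈ Finset.range p, ∫ x in (c a)..(c (a + 1)), W (dig p l x) b
      = (1 / (p : ℝ) ^ (l + 1)) * W (a : ℤ) b := by
    intro a ha
    rw [int_const_Ico (hcc a) (hval a (Finset.mem_range.mp ha))]
    congr 1
    simp only [c]
    push_cast
    field_simp
    ring
  rw [Finset.sum_congr rfl h2, ← Finset.mul_sum, hsum, pow_succ]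
  field_simp

end Pool.Agent.H806R3.Tube
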