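import Pool.Agent.H806R3.TubeA

set_option autoImplicit false

namespace Pool.Agent.H806R3.Tube

open MeasureTheory Set Finset

variable {p q : ℕ} {W : ℤ → ℤ → ℝ} {B : ℝ}

/-- hypotheses on the weight -/
structure Good (p q : ℕ) (W : ℤ → ℤ → ℝ) (B : ℝ) : Prop where
  hp : 0 < p
  hq : 0 < q
  nonneg : ∀ a b, 0 ≤ W a b
  le : ∀ a b, W a b ≤ B
  sum : ∀ b : ℤ, 0 ≤ b → b < q → ∑ a ∈ Finset.range p, W (a : ℤ) b = p

lemma Good.B_nonneg (h : Good p q W B) : 0 ≤ B := (h.nonneg 0 0).trans (h.le 0 0)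

lemma measurable_line (α σ : ℝ) : Measurable (fun x : ℝ => α + σ * x) := by fun_prop

lemma integrable_line (h : Good p q W B) (l : ℕ) (α σ a b : ℝ) :
    IntervalIntegrable (fun x => wt p q W l x (α + σ * x)) volume a b :=
  integrable_wt h.nonneg h.le l measurable_id (measurable_line α σ) a b

/-- one column -/
lemma col_step (h : Good p q W B) (l : ℕ) (α σ : ℝ) (i : ℤ) (v : ℝ)
    (hv : ∀ x ∈ Ico ((i : ℝ) / (p : ℝ) ^ l) (((i : ℝ) + 1) / (p : ℝ) ^ l),
      wt p q W l x (α + σ * x) ≤ v) :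
    ∫ x in ((i : ℝ) / (p : ℝ) ^ l)..(((i : ℝ) + 1) / (p : ℝ) ^ l),
        wt p q W (l + 1) x (α + σ * x)
      ≤ (∫ x in ((i : ℝ) / (p : ℝ) ^ l)..(((i : ℝ) + 1) / (p : ℝ) ^ l),
          wt p q W l x (α + σ * x))
        + |((⌊(q : ℝ) ^ (l + 1) * (α + σ * (((i : ℝ) + 1) / (p : ℝ) ^ l))⌋ : ℤ) : ℝ)
            - ((⌊(q : ℝ) ^ (l + 1) * (α + σ * ((i : ℝ) / (p : ℝ) ^ l))⌋ : ℤ) : ℝ)|
          * (1 / (p : ℝ) ^ l * (B * v)) := by
  have hp' : (0 : ℝ) < (p : ℝ) := by exact_mod_cast h.hp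
  have hq' : (0 : ℝ) < (q : ℝ) := by exact_mod_cast h.hq
  have hpl : (0 : ℝ) < (p : ℝ) ^ l := by positivity
  have hql : (0 : ℝ) < (q : ℝ) ^ (l + 1) := by positivity
  have hB := h.B_nonneg
  set u : ℝ := (i : ℝ) / (p : ℝ) ^ l with hu
  set u' : ℝ := ((i : ℝ) + 1) / (p : ℝ) ^ l with hu'
  have huu : u < u' := by
    rw [hu, hu']
    exact div_lt_div_of_pos_right (by linarith) hpl
  have hlen : u' - u = 1 / (p : ℝ) ^ l := by
    rw [hu, hu']; field_simp; ring
  have hv0 : 0 ≤ v := le_trans (wt_nonneg h.nonneg _ _ _) (hv u ⟨le_refl _, huu⟩)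
  by_cases hg : ⌊(q : ℝ) ^ (l + 1) * (α + σ * u')⌋ = ⌊(q : ℝ) ^ (l + 1) * (α + σ * u)⌋
  · have hfl : ∀ x ∈ Ico u u', ⌊(q : ℝ) ^ (l + 1) * (α + σ * x)⌋
        = ⌊(q : ℝ) ^ (l + 1) * (α + σ * u)⌋ := by
      intro x hx
      rcases le_total 0 σ with hσ | hσ
      · apply le_antisymm
        · rw [← hg]
          apply Int.floor_le_floor
          have := mul_le_mul_of_nonneg_left hx.2.le hσ
          apply mul_le_mul_of_nonneg_left _ hql.le
          linarith
        · apply Int.floor_le_floor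
          have := mul_le_mul_of_nonneg_left hx.1 hσ
          apply mul_le_mul_of_nonneg_left _ hql.le
          linarith
      · apply le_antisymm
        · apply Int.floor_le_floor
          have := mul_le_mul_of_nonpos_left hx.1 hσ
          apply mul_le_mul_of_nonneg_left _ hql.le
          linarith
        · rw [← hg]
          apply Int.floor_le_floor
          have := mul_le_mul_of_nonpos_left hx.2.le hσ
          apply mul_le_mul_of_nonneg_left _ hql.le
          linarith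
    set V : ℝ := wt p q W l u (α + σ * u) with hV
    have hVx : ∀ x ∈ Ico u u', wt p q W l x (α + σ * x) = V := by
      intro x hx
      refine wt_congr h.hp h.hq ?_ ?_
      · rw [floor_col h.hp l i hx, floor_col h.hp l i ⟨le_refl _, huu⟩]
      · rw [floor_of_level h.hq l 1 (α + σ * x), floor_of_level h.hq l 1 (α + σ * u), hfl x hx]
    set b : ℤ := ⌊(q : ℝ) ^ (l + 1) * (α + σ * u)⌋ % (q : ℤ) with hb
    have hdig : ∀ x ∈ Ico u u', dig q l (α + σ * x) = b := by
      intro x hx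
      unfold dig
      rw [hfl x hx]
    have hb0 : 0 ≤ b := Int.emod_nonneg _ (by exact_mod_cast h.hq.ne')
    have hbq : b < q := Int.emod_lt_of_pos _ (by exact_mod_cast h.hq)
    have h1 : ∫ x in u..u', wt p q W (l + 1) x (α + σ * x)
        = ∫ x in u..u', V * W (dig p l x) b := by
      refine int_congr_Ico huu.le (fun x hx => ?_)
      rw [wt_succ, hVx x hx, hdig x hx]
    have h2 : ∫ x in u..u', wt p q W l x (α + σ * x) = (u' - u) * V :=
      int_const_Ico huu.le hVx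
    rw [h1, intervalIntegral.integral_const_mul, int_digit h.hp b (h.sum b hb0 hbq) l i, h2, hlen,
      hg, sub_self, abs_zero, zero_mul, add_zero, mul_comm]
  · have h1 : (1 : ℝ) ≤ |((⌊(q : ℝ) ^ (l + 1) * (α + σ * u')⌋ : ℤ) : ℝ)
            - ((⌊(q : ℝ) ^ (l + 1) * (α + σ * u)⌋ : ℤ) : ℝ)| := by
      have : (1 : ℤ) ≤ |⌊(q : ℝ) ^ (l + 1) * (α + σ * u')⌋ - ⌊(q : ℝ) ^ (l + 1) * (α + σ * u)⌋| :=
        Int.one_le_abs (sub_ne_zero.mpr hg)
      exact_mod_cast this
    have h2 : ∫ x in u..u', wt p q W (l + 1) x (α + σ * x) ≤ (u' - u) * (B * v) := by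
      rw [← int_const_Ico (f := fun _ => B * v) huu.le (fun _ _ => rfl)]
      refine int_mono_Ico huu.le (integrable_line h _ _ _ _ _) intervalIntegrable_const
        (fun x hx => ?_)
      rw [wt_succ, mul_comm B v]
      exact mul_le_mul (hv x hx) (h.le _ _) (h.nonneg _ _) hv0
    have h3 : 0 ≤ ∫ x in u..u', wt p q W l x (α + σ * x) :=
      intervalIntegral.integral_nonneg huu.le (fun x _ => wt_nonneg h.nonneg _ _ _)
    rw [hlen] at h2
    have h4 : (0 : ℝ) ≤ 1 / (p : ℝ) ^ l * (B * v) := by positivity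
    nlinarith

/-- a block of columns -/
lemma block_step (h : Good p q W B) (l : ℕ) (α σ : ℝ) (a : ℤ) (N : ℕ) (v : ℝ)
    (hN : 0 < N)
    (hv : ∀ x ∈ Ico ((a : ℝ) / (p : ℝ) ^ l) (((a : ℝ) + N) / (p : ℝ) ^ l),
      wt p q W l x (α + σ * x) ≤ v) :
    ∫ x in ((a : ℝ) / (p : ℝ) ^ l)..(((a : ℝ) + N) / (p : ℝ) ^ l),
        wt p q W (l + 1) x (α + σ * x)
      ≤ (∫ x in ((a : ℝ) / (p : ℝ) ^ l)..(((a : ℝ) + N) / (p : ℝ) ^ l),
          wt p q W l x (α + σ * x))
        + ((q : ℝ) ^ (l + 1) * |σ| * (N / (p : ℝ) ^ l) + 1) * (1 / (p : ℝ) ^ l * (B * v)) := by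
  have hp' : (0 : ℝ) < (p : ℝ) := by exact_mod_cast h.hp
  have hq' : (0 : ℝ) < (q : ℝ) := by exact_mod_cast h.hq
  have hpl : (0 : ℝ) < (p : ℝ) ^ l := by positivity
  have hql : (0 : ℝ) < (q : ℝ) ^ (l + 1) := by positivity
  have hB := h.B_nonneg
  have hN' : (0 : ℝ) < N := by exact_mod_cast hN
  let c : ℕ → ℝ := fun r => ((a : ℝ) + r) / (p : ℝ) ^ l
  have hc0 : c 0 = (a : ℝ) / (p : ℝ) ^ l := by simp [c]
  have hcN : c N = ((a : ℝ) + N) / (p : ℝ) ^ l := rfl
  let g : ℕ → ℤ := fun r => ⌊(q : ℝ) ^ (l + 1) * (α + σ * c r)⌋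
  have hv0 : 0 ≤ v := by
    refine le_trans (wt_nonneg h.nonneg _ _ _) (hv ((a : ℝ) / (p : ℝ) ^ l) ⟨le_refl _, ?_⟩)
    exact div_lt_div_of_pos_right (by linarith) hpl
  have hcmono : Monotone c := by
    intro r s hrs
    simp only [c]
    apply div_le_div_of_nonneg_right _ hpl.le
    have : (r : ℝ) ≤ s := by exact_mod_cast hrs
    linarith
  have hcol : ∀ r ∈ Finset.range N, ∫ x in (c r)..(c (r + 1)), wt p q W (l + 1) x (α + σ * x)
      ≤ (∫ x in (c r)..(c (r + 1)), wt p q W l x (α + σ * x))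
        + |((g (r + 1) : ℤ) : ℝ) - ((g r : ℤ) : ℝ)| * (1 / (p : ℝ) ^ l * (B * v)) := by
    intro r hr
    have hr' : r < N := Finset.mem_range.mp hr
    have key := col_step h l α σ (a + r) v (by
      intro x hx
      apply hv
      constructor
      · refine le_trans ?_ hx.1
        apply div_le_div_of_nonneg_right _ hpl.le
        push_cast
        have : (0 : ℝ) ≤ r := Nat.cast_nonneg _
        linarith
      · refine lt_of_lt_of_le hx.2 ?_
        apply div_le_div_of_nonneg_right _ hpl.le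
        push_cast
        have : ((r : ℝ) + 1) ≤ N := by exact_mod_cast hr'
        linarith)
    have e1 : (((a + r : ℤ) : ℝ)) / (p : ℝ) ^ l = c r := by simp [c]
    have e2 : ((((a + r : ℤ) : ℝ)) + 1) / (p : ℝ) ^ l = c (r + 1) := by
      simp only [c]; push_cast; ring
    rw [e1, e2] at key
    exact key
  have hsumint : ∀ k, ∫ x in (c 0)..(c N), wt p q W k x (α + σ * x)
      = ∑ r ∈ Finset.range N, ∫ x in (c r)..(c (r + 1)), wt p q W k x (α + σ * x) := by
    intro k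
    rw [intervalIntegral.sum_integral_adjacent_intervals
      (fun r _ => integrable_line h k α σ (c r) (c (r + 1)))]
  rw [← hc0, ← hcN, hsumint, hsumint]
  refine (Finset.sum_le_sum hcol).trans ?_
  rw [Finset.sum_add_distrib, ← Finset.sum_mul]
  have hE : (0 : ℝ) ≤ 1 / (p : ℝ) ^ l * (B * v) := by positivity
  have hcnt : ∑ r ∈ Finset.range N, |((g (r + 1) : ℤ) : ℝ) - ((g r : ℤ) : ℝ)|
      ≤ (q : ℝ) ^ (l + 1) * |σ| * (N / (p : ℝ) ^ l) + 1 := by
    have hdiff : (q : ℝ) ^ (l + 1) * (α + σ * c N) - (q : ℝ) ^ (l + 1) * (α + σ * c 0)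
        = (q : ℝ) ^ (l + 1) * σ * (N / (p : ℝ) ^ l) := by
      simp only [c]
      push_cast
      ring
    have hf1 := Int.floor_le ((q : ℝ) ^ (l + 1) * (α + σ * c N))
    have hf2 := Int.lt_floor_add_one ((q : ℝ) ^ (l + 1) * (α + σ * c N))
    have hf3 := Int.floor_le ((q : ℝ) ^ (l + 1) * (α + σ * c 0))
    have hf4 := Int.lt_floor_add_one ((q : ℝ) ^ (l + 1) * (α + σ * c 0))
    rcases le_total 0 σ with hσ | hσ
    · have hmono : ∀ r, g r ≤ g (r + 1) := by
        intro r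
        apply Int.floor_le_floor
        have := mul_le_mul_of_nonneg_left (hcmono (Nat.le_succ r)) hσ
        apply mul_le_mul_of_nonneg_left _ hql.le
        linarith
      have e : ∑ r ∈ Finset.range N, |((g (r + 1) : ℤ) : ℝ) - ((g r : ℤ) : ℝ)|
          = ((g N : ℤ) : ℝ) - ((g 0 : ℤ) : ℝ) := by
        rw [← Finset.sum_range_sub (fun r => ((g r : ℤ) : ℝ))]
        refine Finset.sum_congr rfl (fun r _ => abs_of_nonneg ?_)
        have : ((g r : ℤ) : ℝ) ≤ ((g (r + 1) : ℤ) : ℝ) := by exact_mod_cast hmono r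
        linarith
      rw [e, abs_of_nonneg hσ]
      simp only [g]
      linarith
    · have hmono : ∀ r, g (r + 1) ≤ g r := by
        intro r
        apply Int.floor_le_floor
        have := mul_le_mul_of_nonpos_left (hcmono (Nat.le_succ r)) hσ
        apply mul_le_mul_of_nonneg_left _ hql.le
        linarith
      have e : ∑ r ∈ Finset.range N, |((g (r + 1) : ℤ) : ℝ) - ((g r : ℤ) : ℝ)|
          = -(((g N : ℤ) : ℝ) - ((g 0 : ℤ) : ℝ)) := by
        rw [← Finset.sum_range_sub (fun r => ((g r : ℤ) : ℝ)), ← Finset.sum_neg_distrib]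
        refine Finset.sum_congr rfl (fun r _ => abs_of_nonpos ?_)
        have : ((g (r + 1) : ℤ) : ℝ) ≤ ((g r : ℤ) : ℝ) := by exact_mod_cast hmono r
        linarith
      rw [e, abs_of_nonpos hσ]
      simp only [g]
      nlinarith
  have := mul_le_mul_of_nonneg_right hcnt hE
  linarith

end Pool.Agent.H806R3.Tube
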