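import Pool.Agent.H806R3.TubeB

set_option autoImplicit false

namespace Pool.Agent.H806R3.Tube

open MeasureTheory Set Finset

variable {W : ℤ → ℤ → ℝ}

/-- steep lines -/
lemma steep_bound (h : Good 9 3 W (3 / 2)) {κ : ℝ} (hκ : |κ| ≤ 9) (k : ℕ) (β : ℝ) :
    ∫ y in (0 : ℝ)..1, wt 9 3 W k y (β + κ * y) ≤ 85 - 84 * (1 / 2) ^ k := by
  induction k with
  | zero =>
    simp only [wt_zero]
    norm_num
  | succ l ih =>
    have key := block_step h l β κ 0 (9 ^ l) ((3 / 2) ^ l) (by positivity)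
      (fun x _ => wt_le h.nonneg h.le l _ _)
    have e1 : (((0 : ℤ) : ℝ)) / ((9 : ℕ) : ℝ) ^ l = 0 := by simp
    have e2 : ((((0 : ℤ) : ℝ)) + ((9 ^ l : ℕ) : ℝ)) / ((9 : ℕ) : ℝ) ^ l = 1 := by
      push_cast
      rw [zero_add, div_self (by positivity)]
    rw [e1, e2] at key
    refine key.trans ?_
    have e3 : (((3 : ℕ) : ℝ) ^ (l + 1) * |κ| * (((9 ^ l : ℕ) : ℝ) / ((9 : ℕ) : ℝ) ^ l) + 1)
        * (1 / ((9 : ℕ) : ℝ) ^ l * (3 / 2 * (3 / 2) ^ l)) ≤ 42 * (1 / 2) ^ l := by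
      push_cast
      rw [div_self (by positivity : (9 : ℝ) ^ l ≠ 0), mul_one]
      have h1 : (3 : ℝ) ^ (l + 1) * |κ| + 1 ≤ 28 * 3 ^ l := by
        have h3 : (1 : ℝ) ≤ 3 ^ l := one_le_pow₀ (by norm_num)
        have : (3 : ℝ) ^ (l + 1) * |κ| ≤ 3 ^ (l + 1) * 9 :=
          mul_le_mul_of_nonneg_left hκ (by positivity)
        rw [pow_succ] at this ⊢
        linarith
      have h2 : (1 : ℝ) / 9 ^ l * (3 / 2 * (3 / 2) ^ l) = 3 / 2 * (1 / 6) ^ l := by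
        have : ((1 : ℝ) / 6) ^ l = (3 / 2) ^ l / 9 ^ l := by
          rw [← div_pow]; norm_num
        rw [this]; ring
      rw [h2]
      have h4 : (1 / 2 : ℝ) ^ l = 3 ^ l * (1 / 6) ^ l := by
        rw [← mul_pow]; norm_num
      rw [h4]
      have h5 : (0 : ℝ) ≤ (1 / 6) ^ l := by positivity
      nlinarith
    have e4 : (84 : ℝ) * (1 / 2) ^ (l + 1) = 42 * (1 / 2) ^ l := by
      rw [pow_succ]; ring
    rw [e4]
    linarith

/-- steep lines, integer windows -/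
lemma steep_window (h : Good 9 3 W (3 / 2)) {κ : ℝ} (hκ : |κ| ≤ 9) (k : ℕ) (β : ℝ) (a : ℤ) :
    ∫ y in (a : ℝ)..(a + 1), wt 9 3 W k y (β + κ * y) ≤ 85 := by
  have h1 : ∫ y in (a : ℝ)..(a + 1), wt 9 3 W k y (β + κ * y)
      = ∫ y in (0 : ℝ)..1, wt 9 3 W k y ((β + κ * a) + κ * y) := by
    have := intervalIntegral.integral_comp_add_right
      (f := fun y => wt 9 3 W k y (β + κ * y)) (a := 0) (b := 1) (a : ℝ)
    rw [zero_add, add_comm (1 : ℝ)] at this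
    rw [← this]
    congr 1
    ext y
    rw [wt_add_int_left]
    congr 1
    ring
  rw [h1]
  have := steep_bound h hκ k (β + κ * a)
  have h2 : (0 : ℝ) ≤ 84 * (1 / 2) ^ k := by positivity
  linarith

/-- for flat lines, a value on a column is controlled by three parallel lines -/
lemma flat_sup (h : Good 3 9 W (3 / 2)) {σ : ℝ} {s : ℕ} (hσ : |σ| * 3 ^ (s + 1) ≤ 1) (α : ℝ)
    (i : ℤ) {x₀ : ℝ} (hx₀ : x₀ ∈ Ico ((i : ℝ) / ((3 : ℕ) : ℝ) ^ s) (((i : ℝ) + 1) / ((3 : ℕ) : ℝ) ^ s)) :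
    wt 3 9 W s x₀ (α + σ * x₀) ≤ (3 : ℝ) ^ s *
      ((∫ x in ((i : ℝ) / ((3 : ℕ) : ℝ) ^ s)..(((i : ℝ) + 1) / ((3 : ℕ) : ℝ) ^ s),
          wt 3 9 W s x (α + σ * x))
      + (∫ x in ((i : ℝ) / ((3 : ℕ) : ℝ) ^ s)..(((i : ℝ) + 1) / ((3 : ℕ) : ℝ) ^ s),
          wt 3 9 W s x ((α + 1 / (3 * 9 ^ s)) + σ * x))
      + (∫ x in ((i : ℝ) / ((3 : ℕ) : ℝ) ^ s)..(((i : ℝ) + 1) / ((3 : ℕ) : ℝ) ^ s),
          wt 3 9 W s x ((α - 1 / (3 * 9 ^ s)) + σ * x))) := by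
  have hp3 : (0 : ℝ) < ((3 : ℕ) : ℝ) ^ s := by positivity
  have h9 : (0 : ℝ) < ((9 : ℕ) : ℝ) ^ s := by positivity
  set u : ℝ := (i : ℝ) / ((3 : ℕ) : ℝ) ^ s with hu
  set u' : ℝ := ((i : ℝ) + 1) / ((3 : ℕ) : ℝ) ^ s with hu'
  have huu : u < u' := by
    rw [hu, hu']
    exact div_lt_div_of_pos_right (by linarith) hp3
  have hlen : u' - u = 1 / (3 : ℝ) ^ s := by
    rw [hu, hu']; push_cast; field_simp; ring
  have hnn : ∀ α' : ℝ, 0 ≤ ∫ x in u..u', wt 3 9 W s x (α' + σ * x) := fun α' =>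
    intervalIntegral.integral_nonneg huu.le (fun x _ => wt_nonneg h.nonneg _ _ _)
  -- the key claim: if a shifted line stays in the row then the integral is exact
  have key : ∀ α' : ℝ, (∀ x ∈ Ico u u', ⌊((9 : ℕ) : ℝ) ^ s * (α' + σ * x)⌋
      = ⌊((9 : ℕ) : ℝ) ^ s * (α + σ * x₀)⌋) →
      wt 3 9 W s x₀ (α + σ * x₀) = (3 : ℝ) ^ s * ∫ x in u..u', wt 3 9 W s x (α' + σ * x) := by
    intro α' hα'
    rw [int_const_Ico (c := wt 3 9 W s x₀ (α + σ * x₀)) huu.le, hlen]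
    · field_simp
    · intro x hx
      refine wt_congr h.hp h.hq ?_ (hα' x hx)
      rw [floor_col h.hp s i hx, floor_col h.hp s i hx₀]
  have hvar : ∀ x ∈ Ico u u', |(9 : ℝ) ^ s * (σ * x) - (9 : ℝ) ^ s * (σ * x₀)| ≤ 1 / 3 := by
    intro x hx
    have h1 : |x - x₀| ≤ 1 / (3 : ℝ) ^ s := by
      rw [← hlen, abs_le]
      constructor <;> linarith [hx.1, hx.2, hx₀.1, hx₀.2]
    have h2 : (9 : ℝ) ^ s * (σ * x) - (9 : ℝ) ^ s * (σ * x₀) = 9 ^ s * σ * (x - x₀) := by ring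
    rw [h2, abs_mul, abs_mul, abs_of_pos (by positivity : (0 : ℝ) < 9 ^ s)]
    calc (9 : ℝ) ^ s * |σ| * |x - x₀| ≤ 9 ^ s * |σ| * (1 / 3 ^ s) := by
          gcongr
      _ = |σ| * 3 ^ s := by
          have : (9 : ℝ) ^ s = 3 ^ s * 3 ^ s := by rw [← mul_pow]; norm_num
          rw [this]; field_simp
      _ ≤ 1 / 3 := by
          rw [pow_succ] at hσ
          linarith
  have hh : (9 : ℝ) ^ s * (1 / (3 * 9 ^ s)) = 1 / 3 := by field_simp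
  set r : ℤ := ⌊((9 : ℕ) : ℝ) ^ s * (α + σ * x₀)⌋ with hr
  have hr1 := Int.floor_le (((9 : ℕ) : ℝ) ^ s * (α + σ * x₀))
  have hr2 := Int.lt_floor_add_one (((9 : ℕ) : ℝ) ^ s * (α + σ * x₀))
  rw [← hr] at hr1 hr2
  push_cast at hr1 hr2
  have h3s : (0 : ℝ) ≤ (3 : ℝ) ^ s := by positivity
  by_cases c1 : (9 : ℝ) ^ s * (α + σ * x₀) < r + 1 / 3
  · have e := key (α + 1 / (3 * 9 ^ s)) (by
      intro x hx
      have hv := abs_le.mp (hvar x hx)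
      rw [Int.floor_eq_iff]
      push_cast
      have e3 : (9 : ℝ) ^ s * (α + 1 / (3 * 9 ^ s) + σ * x)
          = 9 ^ s * (α + σ * x₀) + 1 / 3 + (9 ^ s * (σ * x) - 9 ^ s * (σ * x₀)) := by
        rw [← hh]; ring
      rw [e3]
      constructor <;> linarith [hv.1, hv.2])
    rw [e]
    apply mul_le_mul_of_nonneg_left _ h3s
    linarith [hnn α, hnn (α - 1 / (3 * 9 ^ s))]
  · push Not at c1
    by_cases c2 : (9 : ℝ) ^ s * (α + σ * x₀) < r + 2 / 3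
    · have e := key α (by
        intro x hx
        have hv := abs_le.mp (hvar x hx)
        rw [Int.floor_eq_iff]
        push_cast
        have e3 : (9 : ℝ) ^ s * (α + σ * x)
            = 9 ^ s * (α + σ * x₀) + (9 ^ s * (σ * x) - 9 ^ s * (σ * x₀)) := by
          ring
        rw [e3]
        constructor <;> linarith [hv.1, hv.2])
      rw [e]
      apply mul_le_mul_of_nonneg_left _ h3s
      linarith [hnn (α + 1 / (3 * 9 ^ s)), hnn (α - 1 / (3 * 9 ^ s))]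
    · push Not at c2
      have e := key (α - 1 / (3 * 9 ^ s)) (by
        intro x hx
        have hv := abs_le.mp (hvar x hx)
        rw [Int.floor_eq_iff]
        push_cast
        have e3 : (9 : ℝ) ^ s * (α - 1 / (3 * 9 ^ s) + σ * x)
            = 9 ^ s * (α + σ * x₀) - 1 / 3 + (9 ^ s * (σ * x) - 9 ^ s * (σ * x₀)) := by
          rw [← hh]; ring
        rw [e3]
        constructor <;> linarith [hv.1, hv.2])
      rw [e]
      apply mul_le_mul_of_nonneg_left _ h3s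
      linarith [hnn α, hnn (α + 1 / (3 * 9 ^ s))]

/-- splitting the unit window into the `3^s` columns of level `s` -/
lemma split_unit (h : Good 3 9 W (3 / 2)) (s k : ℕ) (α σ : ℝ) :
    ∫ x in (0 : ℝ)..1, wt 3 9 W k x (α + σ * x)
      = ∑ i ∈ Finset.range (3 ^ s),
        ∫ x in (((i : ℤ) : ℝ) / ((3 : ℕ) : ℝ) ^ s)..((((i : ℤ) : ℝ) + 1) / ((3 : ℕ) : ℝ) ^ s),
          wt 3 9 W k x (α + σ * x) := by
  let c : ℕ → ℝ := fun r => (r : ℝ) / ((3 : ℕ) : ℝ) ^ s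
  have hc0 : c 0 = 0 := by simp [c]
  have hc1 : c (3 ^ s) = 1 := by
    simp only [c]
    push_cast
    exact div_self (by positivity)
  have := intervalIntegral.sum_integral_adjacent_intervals (a := c) (n := 3 ^ s)
    (f := fun x => wt 3 9 W k x (α + σ * x)) (μ := volume)
    (fun r _ => integrable_line h k α σ (c r) (c (r + 1)))
  rw [hc0, hc1] at this
  rw [← this]
  refine Finset.sum_congr rfl (fun r _ => ?_)
  simp only [c]
  push_cast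
  rfl

/-- one level step for flat lines -/
lemma flat_step (h : Good 3 9 W (3 / 2)) {σ : ℝ} {l₁ l s d : ℕ} (hσ : |σ| * 3 ^ (l₁ + 1) ≤ 1)
    (_hl : l < l₁) (hs : 2 * l + 1 ≤ s + l₁) (hd : s + d = l) (U : ℝ)
    (hU : ∀ α, ∫ x in (0 : ℝ)..1, wt 3 9 W s x (α + σ * x) ≤ U) (α : ℝ) :
    ∫ x in (0 : ℝ)..1, wt 3 9 W (l + 1) x (α + σ * x)
      ≤ (∫ x in (0 : ℝ)..1, wt 3 9 W l x (α + σ * x)) + 9 * (1 / 2) ^ d * U := by
  have hB := h.B_nonneg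
  let v : ℕ → ℝ := fun i => (3 : ℝ) ^ s *
      ((∫ x in (((i : ℤ) : ℝ) / ((3 : ℕ) : ℝ) ^ s)..((((i : ℤ) : ℝ) + 1) / ((3 : ℕ) : ℝ) ^ s),
          wt 3 9 W s x (α + σ * x))
      + (∫ x in (((i : ℤ) : ℝ) / ((3 : ℕ) : ℝ) ^ s)..((((i : ℤ) : ℝ) + 1) / ((3 : ℕ) : ℝ) ^ s),
          wt 3 9 W s x ((α + 1 / (3 * 9 ^ s)) + σ * x))
      + (∫ x in (((i : ℤ) : ℝ) / ((3 : ℕ) : ℝ) ^ s)..((((i : ℤ) : ℝ) + 1) / ((3 : ℕ) : ℝ) ^ s),
          wt 3 9 W s x ((α - 1 / (3 * 9 ^ s)) + σ * x)))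
  have hs1 : |σ| * 3 ^ (s + 1) ≤ 1 := by
    refine le_trans (mul_le_mul_of_nonneg_left ?_ (abs_nonneg _)) hσ
    exact pow_le_pow_right₀ (by norm_num) (by omega)
  have hvsum : ∑ i ∈ Finset.range (3 ^ s), v i ≤ 3 ^ s * (3 * U) := by
    simp only [v]
    rw [← Finset.mul_sum, Finset.sum_add_distrib, Finset.sum_add_distrib, ← split_unit h,
      ← split_unit h, ← split_unit h]
    apply mul_le_mul_of_nonneg_left _ (by positivity)
    linarith [hU α, hU (α + 1 / (3 * 9 ^ s)), hU (α - 1 / (3 * 9 ^ s))]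
  rw [split_unit h s (l + 1), split_unit h s l]
  have hblock : ∀ i ∈ Finset.range (3 ^ s),
      ∫ x in (((i : ℤ) : ℝ) / ((3 : ℕ) : ℝ) ^ s)..((((i : ℤ) : ℝ) + 1) / ((3 : ℕ) : ℝ) ^ s),
          wt 3 9 W (l + 1) x (α + σ * x)
      ≤ (∫ x in (((i : ℤ) : ℝ) / ((3 : ℕ) : ℝ) ^ s)..((((i : ℤ) : ℝ) + 1) / ((3 : ℕ) : ℝ) ^ s),
          wt 3 9 W l x (α + σ * x)) + 3 * ((1 / 3) ^ l * (3 / 2) ^ d) * v i := by
    intro i _
    have e1 : (((i * 3 ^ d : ℕ) : ℤ) : ℝ) / ((3 : ℕ) : ℝ) ^ l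
        = ((i : ℤ) : ℝ) / ((3 : ℕ) : ℝ) ^ s := by
      rw [← hd, pow_add]
      push_cast
      field_simp
    have e2 : ((((i * 3 ^ d : ℕ) : ℤ) : ℝ) + ((3 ^ d : ℕ) : ℝ)) / ((3 : ℕ) : ℝ) ^ l
        = (((i : ℤ) : ℝ) + 1) / ((3 : ℕ) : ℝ) ^ s := by
      rw [← hd, pow_add]
      push_cast
      field_simp
    have hvi : ∀ x ∈ Ico (((i : ℤ) : ℝ) / ((3 : ℕ) : ℝ) ^ s) ((((i : ℤ) : ℝ) + 1) / ((3 : ℕ) : ℝ) ^ s),
        wt 3 9 W s x (α + σ * x) ≤ v i := fun x hx => flat_sup h hs1 α i hx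
    have hv0 : 0 ≤ v i := by
      refine le_trans (wt_nonneg h.nonneg _ _ _) (hvi (((i : ℤ) : ℝ) / ((3 : ℕ) : ℝ) ^ s) ⟨le_refl _, ?_⟩)
      exact div_lt_div_of_pos_right (by linarith) (by positivity)
    have key := block_step h l α σ ((i * 3 ^ d : ℕ) : ℤ) (3 ^ d) (v i * (3 / 2) ^ d) (by positivity)
      (by
        intro x hx
        rw [e1, e2] at hx
        rw [← hd]
        refine (wt_mul_le h.nonneg h.le s d _ _).trans ?_
        exact mul_le_mul_of_nonneg_right (hvi x hx) (by positivity))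
    rw [e1, e2] at key
    refine key.trans ?_
    have hcount : (((9 : ℕ) : ℝ) ^ (l + 1) * |σ| * (((3 ^ d : ℕ) : ℝ) / ((3 : ℕ) : ℝ) ^ l) + 1) ≤ 2 := by
      have h1 : (((9 : ℕ) : ℝ) ^ (l + 1) * |σ| * (((3 ^ d : ℕ) : ℝ) / ((3 : ℕ) : ℝ) ^ l))
          = (9 : ℝ) ^ (l + 1) * |σ| / 3 ^ s := by
        rw [← hd]
        push_cast
        rw [pow_add 3 s d]
        field_simp
      rw [h1]
      have h2 : (9 : ℝ) ^ (l + 1) ≤ 3 ^ s * 3 ^ (l₁ + 1) := by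
        have : (9 : ℝ) ^ (l + 1) = 3 ^ (2 * (l + 1)) := by rw [pow_mul]; norm_num
        rw [this, ← pow_add]
        exact pow_le_pow_right₀ (by norm_num) (by omega)
      have h3 : (9 : ℝ) ^ (l + 1) * |σ| / 3 ^ s ≤ 1 := by
        rw [div_le_one (by positivity)]
        calc (9 : ℝ) ^ (l + 1) * |σ| ≤ (3 ^ s * 3 ^ (l₁ + 1)) * |σ| :=
              mul_le_mul_of_nonneg_right h2 (abs_nonneg _)
          _ = 3 ^ s * (|σ| * 3 ^ (l₁ + 1)) := by ring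
          _ ≤ 3 ^ s * 1 := mul_le_mul_of_nonneg_left hσ (by positivity)
          _ = 3 ^ s := mul_one _
      linarith
    have hE : (0 : ℝ) ≤ 1 / ((3 : ℕ) : ℝ) ^ l * (3 / 2 * (v i * (3 / 2) ^ d)) := by positivity
    have h5 := mul_le_mul_of_nonneg_right hcount hE
    have h6 : 2 * (1 / ((3 : ℕ) : ℝ) ^ l * (3 / 2 * (v i * (3 / 2) ^ d)))
        = 3 * ((1 / 3) ^ l * (3 / 2) ^ d) * v i := by
      push_cast
      rw [one_div_pow]
      ring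
    linarith
  refine (Finset.sum_le_sum hblock).trans ?_
  rw [Finset.sum_add_distrib, ← Finset.mul_sum]
  have h7 : 3 * ((1 / 3 : ℝ) ^ l * (3 / 2) ^ d) * ∑ i ∈ Finset.range (3 ^ s), v i
      ≤ 3 * ((1 / 3 : ℝ) ^ l * (3 / 2) ^ d) * (3 ^ s * (3 * U)) :=
    mul_le_mul_of_nonneg_left hvsum (by positivity)
  have h8 : 3 * ((1 / 3 : ℝ) ^ l * (3 / 2) ^ d) * (3 ^ s * (3 * U)) = 9 * (1 / 2) ^ d * U := by
    rw [← hd, pow_add]
    have h9 : (1 / 3 : ℝ) ^ s * 3 ^ s = 1 := by rw [← mul_pow]; norm_num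
    have h10 : (1 / 3 : ℝ) ^ d * (3 / 2) ^ d = (1 / 2) ^ d := by rw [← mul_pow]; norm_num
    calc 3 * ((1 / 3 : ℝ) ^ s * (1 / 3) ^ d * (3 / 2) ^ d) * (3 ^ s * (3 * U))
        = 9 * ((1 / 3 : ℝ) ^ s * 3 ^ s) * ((1 / 3 : ℝ) ^ d * (3 / 2) ^ d) * U := by ring
      _ = 9 * (1 / 2) ^ d * U := by rw [h9, h10]; ring
  linarith

end Pool.Agent.H806R3.Tube
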