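import Pool.Agent.H806R3.TubeC

set_option autoImplicit false

namespace Pool.Agent.H806R3.Tube

open MeasureTheory Set Finset

variable {W : ℤ → ℤ → ℝ}

lemma geom_le (n : ℕ) : ∑ t ∈ Finset.range n, (1 / 2 : ℝ) ^ t ≤ 2 := by
  have h := geom_sum_eq (by norm_num : (1 / 2 : ℝ) ≠ 1) n
  rw [h]
  have : (0 : ℝ) ≤ (1 / 2) ^ n := by positivity
  rw [div_le_iff_of_neg (by norm_num)]
  linarith

/-- flat lines up to the critical level -/
lemma flat_bound (h : Good 3 9 W (3 / 2)) {σ : ℝ} {l₁ : ℕ} (hσ : |σ| * 3 ^ (l₁ + 1) ≤ 1)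
    (l : ℕ) (hl : l ≤ l₁) (α : ℝ) :
    ∫ x in (0 : ℝ)..1, wt 3 9 W l x (α + σ * x) ≤ Real.exp 36 := by
  let c : ℕ → ℝ := fun t => 9 * ((1 / 2) ^ t + (1 / 2) ^ (l₁ - 1 - t))
  have hc0 : ∀ t, 0 ≤ c t := fun t => by simp only [c]; positivity
  have main : ∀ l, l ≤ l₁ → ∀ α, ∫ x in (0 : ℝ)..1, wt 3 9 W l x (α + σ * x)
      ≤ Real.exp (∑ t ∈ Finset.range l, c t) := by
    intro l
    induction l using Nat.strong_induction_on with
    | _ l ih =>
      intro hl α
      rcases Nat.eq_zero_or_pos l with h0 | h0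
      · subst h0
        simp only [wt_zero]
        simp
      · obtain ⟨l', rfl⟩ : ∃ l', l = l' + 1 := ⟨l - 1, by omega⟩
        set U : ℝ := Real.exp (∑ t ∈ Finset.range l', c t) with hU
        have h1 := ih l' (by omega) (by omega) α
        have hsU : ∀ α, ∫ x in (0 : ℝ)..1, wt 3 9 W (2 * l' + 1 - l₁) x (α + σ * x) ≤ U := by
          intro α'
          refine (ih (2 * l' + 1 - l₁) (by omega) (by omega) α').trans ?_
          apply Real.exp_le_exp.mpr
          exact Finset.sum_le_sum_of_subset_of_nonneg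
            (Finset.range_subset_range.mpr (by omega)) (fun _ _ _ => hc0 _)
        have h2 := flat_step h hσ (l := l') (s := 2 * l' + 1 - l₁) (d := l' - (2 * l' + 1 - l₁))
          (by omega) (by omega) (by omega) U hsU α
        have hUpos : 0 < U := Real.exp_pos _
        have h3 : (9 : ℝ) * (1 / 2) ^ (l' - (2 * l' + 1 - l₁)) ≤ c l' := by
          simp only [c]
          apply mul_le_mul_of_nonneg_left _ (by norm_num)
          rcases le_total l₁ (2 * l' + 1) with h4 | h4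
          · have : l' - (2 * l' + 1 - l₁) = l₁ - 1 - l' := by omega
            rw [this]
            have : (0 : ℝ) ≤ (1 / 2) ^ l' := by positivity
            linarith
          · have : l' - (2 * l' + 1 - l₁) = l' := by omega
            rw [this]
            have : (0 : ℝ) ≤ (1 / 2) ^ (l₁ - 1 - l') := by positivity
            linarith
        rw [Finset.sum_range_succ, Real.exp_add, ← hU]
        have h5 := Real.add_one_le_exp (c l')
        have h6 : (9 : ℝ) * (1 / 2) ^ (l' - (2 * l' + 1 - l₁)) * U ≤ c l' * U :=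
          mul_le_mul_of_nonneg_right h3 hUpos.le
        nlinarith
  refine (main l hl α).trans ?_
  apply Real.exp_le_exp.mpr
  have hsub : ∑ t ∈ Finset.range l, c t ≤ ∑ t ∈ Finset.range l₁, c t :=
    Finset.sum_le_sum_of_subset_of_nonneg (Finset.range_subset_range.mpr hl) (fun _ _ _ => hc0 _)
  refine hsub.trans ?_
  simp only [c]
  rw [← Finset.mul_sum, Finset.sum_add_distrib, Finset.sum_range_reflect (fun t => (1 / 2 : ℝ) ^ t)]
  linarith [geom_le l₁]

/-- lines with slope of moderate size, through the steep bound -/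
lemma mid_bound (h : Good 9 3 (fun a b => W b a) (3 / 2)) {σ : ℝ} (hσ1 : 1 / 9 ≤ |σ|)
    (hσ2 : |σ| ≤ 1) (k : ℕ) (α : ℝ) (a b : ℝ) (hab : a ≤ b) (hab1 : b ≤ a + 1) :
    ∫ x in a..b, wt 3 9 W k x (α + σ * x) ≤ 1530 := by
  have hσ0 : σ ≠ 0 := by
    intro h0
    rw [h0, abs_zero] at hσ1
    norm_num at hσ1
  set G : ℝ → ℝ := fun y => wt 9 3 (fun a b => W b a) k y (-(α / σ) + 1 / σ * y) with hG
  have hGx : ∀ x, wt 3 9 W k x (α + σ * x) = G (α + σ * x) := by
    intro x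
    simp only [hG]
    rw [← wt_swap]
    congr 1
    field_simp
    ring
  have hκ : |1 / σ| ≤ 9 := by
    rw [abs_div, abs_one, div_le_iff₀ (abs_pos.mpr hσ0)]
    linarith
  have hGint : ∀ u v : ℝ, IntervalIntegrable G volume u v := fun u v =>
    integrable_line h k _ _ u v
  have hGnn : ∀ y, 0 ≤ G y := fun y => wt_nonneg h.nonneg _ _ _
  have hwin : ∀ u v : ℝ, u ≤ v → v ≤ u + 1 → ∫ y in u..v, G y ≤ 170 := by
    intro u v huv huv1
    have h1 : (⌊u⌋ : ℝ) ≤ u := Int.floor_le u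
    have h2 : u < ⌊u⌋ + 1 := Int.lt_floor_add_one u
    have e1 : ∫ y in ((⌊u⌋ : ℤ) : ℝ)..((⌊u⌋ : ℤ) : ℝ) + 1, G y ≤ 85 := steep_window h hκ k _ ⌊u⌋
    have e2 : ∫ y in ((⌊u⌋ + 1 : ℤ) : ℝ)..((⌊u⌋ + 1 : ℤ) : ℝ) + 1, G y ≤ 85 :=
      steep_window h hκ k _ (⌊u⌋ + 1)
    push_cast at e2
    have e3 : ∫ y in ((⌊u⌋ : ℤ) : ℝ)..(((⌊u⌋ : ℤ) : ℝ) + 1 + 1), G y ≤ 170 := by
      rw [← intervalIntegral.integral_add_adjacent_intervals (hGint _ (((⌊u⌋ : ℤ) : ℝ) + 1)) (hGint _ _)]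
      linarith
    refine le_trans ?_ e3
    exact intervalIntegral.integral_mono_interval h1 huv (by linarith)
      (Filter.Eventually.of_forall (fun y => hGnn y)) (hGint _ _)
  have h3 : ∫ x in a..b, wt 3 9 W k x (α + σ * x) = σ⁻¹ * ∫ y in (α + σ * a)..(α + σ * b), G y := by
    have := intervalIntegral.integral_comp_add_mul (a := a) (b := b) G hσ0 α
    rw [smul_eq_mul] at this
    rw [← this]
    congr 1
    ext x
    exact hGx x
  rw [h3]
  rcases lt_or_gt_of_ne hσ0 with hneg | hpos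
  · rw [intervalIntegral.integral_symm]
    have e4 : ∫ y in (α + σ * b)..(α + σ * a), G y ≤ 170 := by
      apply hwin
      · nlinarith
      · rw [abs_of_neg hneg] at hσ2
        nlinarith
    have e5 : 0 ≤ ∫ y in (α + σ * b)..(α + σ * a), G y :=
      intervalIntegral.integral_nonneg (by nlinarith) (fun y _ => hGnn y)
    have e6 : -σ⁻¹ ≤ 9 := by
      have : |1 / σ| = -σ⁻¹ := by
        rw [one_div, abs_of_neg (inv_lt_zero.mpr hneg)]
      linarith
    have e7 : 0 ≤ -σ⁻¹ := by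
      have := inv_lt_zero.mpr hneg
      linarith
    nlinarith
  · have e4 : ∫ y in (α + σ * a)..(α + σ * b), G y ≤ 170 := by
      apply hwin
      · nlinarith
      · rw [abs_of_pos hpos] at hσ2
        nlinarith
    have e5 : 0 ≤ ∫ y in (α + σ * a)..(α + σ * b), G y :=
      intervalIntegral.integral_nonneg (by nlinarith) (fun y _ => hGnn y)
    have e6 : σ⁻¹ ≤ 9 := by
      have : |1 / σ| = σ⁻¹ := by
        rw [one_div, abs_of_pos (inv_pos.mpr hpos)]
      linarith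
    have e7 : 0 ≤ σ⁻¹ := (inv_pos.mpr hpos).le
    nlinarith

/-- all flat lines, all levels -/
lemma flat_all (h : Good 3 9 W (3 / 2)) (h' : Good 9 3 (fun a b => W b a) (3 / 2)) {σ : ℝ}
    (hσ : |σ| ≤ 1 / 3) (k : ℕ) (α : ℝ) :
    ∫ x in (0 : ℝ)..1, wt 3 9 W k x (α + σ * x) ≤ 4590 * Real.exp 36 := by
  have hexp : (0 : ℝ) < Real.exp 36 := Real.exp_pos _
  by_cases hk : |σ| * 3 ^ (k + 1) ≤ 1
  · have := flat_bound h hk k le_rfl α
    linarith
  · classical
    have hex : ∃ m, ¬ |σ| * 3 ^ (m + 1) ≤ 1 := ⟨k, hk⟩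
    set m := Nat.find hex with hm
    have hm1 : ¬ |σ| * 3 ^ (m + 1) ≤ 1 := Nat.find_spec hex
    have hmk : m ≤ k := Nat.find_min' hex hk
    have hm0 : m ≠ 0 := by
      intro h0
      rw [h0] at hm1
      apply hm1
      norm_num
      linarith
    obtain ⟨l₁, hl₁⟩ : ∃ l₁, m = l₁ + 1 := ⟨m - 1, by omega⟩
    have hP : |σ| * 3 ^ (l₁ + 1) ≤ 1 := by
      by_contra hcon
      have := Nat.find_min' hex hcon
      omega
    rw [hl₁] at hm1
    push Not at hm1
    obtain ⟨k', rfl⟩ : ∃ k', k = l₁ + k' := ⟨k - l₁, by omega⟩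
    -- rescaled slope
    have hs1 : 1 / 9 ≤ |3 ^ l₁ * σ| := by
      rw [abs_mul, abs_of_pos (by positivity : (0 : ℝ) < 3 ^ l₁)]
      have : |σ| * 3 ^ (l₁ + 1 + 1) = 9 * (3 ^ l₁ * |σ|) := by ring
      rw [this] at hm1
      linarith
    have hs2 : |3 ^ l₁ * σ| ≤ 1 := by
      rw [abs_mul, abs_of_pos (by positivity : (0 : ℝ) < 3 ^ l₁)]
      have h1 : |σ| * 3 ^ (l₁ + 1) = 3 * (3 ^ l₁ * |σ|) := by ring
      rw [h1] at hP
      have : 0 ≤ 3 ^ l₁ * |σ| := by positivity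
      linarith
    let v : ℕ → ℝ := fun i => (3 : ℝ) ^ l₁ *
      ((∫ x in (((i : ℤ) : ℝ) / ((3 : ℕ) : ℝ) ^ l₁)..((((i : ℤ) : ℝ) + 1) / ((3 : ℕ) : ℝ) ^ l₁),
          wt 3 9 W l₁ x (α + σ * x))
      + (∫ x in (((i : ℤ) : ℝ) / ((3 : ℕ) : ℝ) ^ l₁)..((((i : ℤ) : ℝ) + 1) / ((3 : ℕ) : ℝ) ^ l₁),
          wt 3 9 W l₁ x ((α + 1 / (3 * 9 ^ l₁)) + σ * x))
      + (∫ x in (((i : ℤ) : ℝ) / ((3 : ℕ) : ℝ) ^ l₁)..((((i : ℤ) : ℝ) + 1) / ((3 : ℕ) : ℝ) ^ l₁),
          wt 3 9 W l₁ x ((α - 1 / (3 * 9 ^ l₁)) + σ * x)))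
    have hvsum : ∑ i ∈ Finset.range (3 ^ l₁), v i ≤ 3 ^ l₁ * (3 * Real.exp 36) := by
      simp only [v]
      rw [← Finset.mul_sum, Finset.sum_add_distrib, Finset.sum_add_distrib, ← split_unit h,
        ← split_unit h, ← split_unit h]
      apply mul_le_mul_of_nonneg_left _ (by positivity)
      linarith [flat_bound h hP l₁ le_rfl α, flat_bound h hP l₁ le_rfl (α + 1 / (3 * 9 ^ l₁)),
        flat_bound h hP l₁ le_rfl (α - 1 / (3 * 9 ^ l₁))]
    rw [split_unit h l₁]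
    have hblock : ∀ i ∈ Finset.range (3 ^ l₁),
        ∫ x in (((i : ℤ) : ℝ) / ((3 : ℕ) : ℝ) ^ l₁)..((((i : ℤ) : ℝ) + 1) / ((3 : ℕ) : ℝ) ^ l₁),
          wt 3 9 W (l₁ + k') x (α + σ * x) ≤ (1530 / 3 ^ l₁) * v i := by
      intro i _
      set u : ℝ := ((i : ℤ) : ℝ) / ((3 : ℕ) : ℝ) ^ l₁ with hu
      set u' : ℝ := (((i : ℤ) : ℝ) + 1) / ((3 : ℕ) : ℝ) ^ l₁ with hu'
      have h3l : (0 : ℝ) < (3 : ℝ) ^ l₁ := by positivity
      have huu : u < u' := by
        rw [hu, hu']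
        exact div_lt_div_of_pos_right (by linarith) (by positivity)
      have hvi : ∀ x ∈ Ico u u', wt 3 9 W l₁ x (α + σ * x) ≤ v i :=
        fun x hx => flat_sup h hP α i hx
      have hv0 : 0 ≤ v i :=
        le_trans (wt_nonneg h.nonneg _ _ _) (hvi u ⟨le_refl _, huu⟩)
      set H : ℝ → ℝ := fun z => wt 3 9 W k' z (9 ^ l₁ * α + (3 ^ l₁ * σ) * z) with hH
      have h1 : ∫ x in u..u', wt 3 9 W (l₁ + k') x (α + σ * x) ≤ ∫ x in u..u', v i * H (3 ^ l₁ * x) := by
        refine int_mono_Ico huu.le (integrable_line h _ _ _ _ _) ?_ (fun x hx => ?_)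
        · refine IntervalIntegrable.const_mul ?_ _
          exact integrable_wt h.nonneg h.le k' (by fun_prop) (by fun_prop) _ _
        · rw [wt_add]
          have e : wt 3 9 W k' (((3 : ℕ) : ℝ) ^ l₁ * x) (((9 : ℕ) : ℝ) ^ l₁ * (α + σ * x))
              = H (3 ^ l₁ * x) := by
            simp only [hH]
            push_cast
            congr 1
            have : (9 : ℝ) ^ l₁ = 3 ^ l₁ * 3 ^ l₁ := by rw [← mul_pow]; norm_num
            rw [this]; ring
          rw [e]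
          exact mul_le_mul_of_nonneg_right (hvi x hx) (wt_nonneg h.nonneg _ _ _)
      have h2 : ∫ x in u..u', v i * H (3 ^ l₁ * x) = v i * ((3 ^ l₁)⁻¹ * ∫ z in (3 ^ l₁ * u)..(3 ^ l₁ * u'), H z) := by
        rw [intervalIntegral.integral_const_mul]
        have := intervalIntegral.integral_comp_mul_left (a := u) (b := u') H (c := (3 : ℝ) ^ l₁) h3l.ne'
        rw [this, smul_eq_mul]
      have h3 : ∫ z in (3 ^ l₁ * u)..(3 ^ l₁ * u'), H z ≤ 1530 := by
        apply mid_bound h' hs1 hs2 k'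
        · exact mul_le_mul_of_nonneg_left huu.le h3l.le
        · rw [hu, hu']
          push_cast
          field_simp
          linarith
      rw [h2] at h1
      refine h1.trans ?_
      have h4 : v i * ((3 ^ l₁)⁻¹ * ∫ z in (3 ^ l₁ * u)..(3 ^ l₁ * u'), H z)
          ≤ v i * ((3 ^ l₁)⁻¹ * 1530) := by
        apply mul_le_mul_of_nonneg_left _ hv0
        exact mul_le_mul_of_nonneg_left h3 (by positivity)
      refine h4.trans (le_of_eq ?_)
      field_simp
    refine (Finset.sum_le_sum hblock).trans ?_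
    rw [← Finset.mul_sum]
    have h5 : (1530 / 3 ^ l₁ : ℝ) * ∑ i ∈ Finset.range (3 ^ l₁), v i
        ≤ (1530 / 3 ^ l₁ : ℝ) * (3 ^ l₁ * (3 * Real.exp 36)) :=
      mul_le_mul_of_nonneg_left hvsum (by positivity)
    refine h5.trans (le_of_eq ?_)
    field_simp
    norm_num

end Pool.Agent.H806R3.Tube
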