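import Pool.Agent.H806R3.TubeD

set_option autoImplicit false

namespace Pool.Agent.H806R3.Tube

open MeasureTheory Set Finset

variable {p q : ℕ} {W : ℤ → ℤ → ℝ} {B : ℝ}

/-- splitting the unit window into the `p^s` columns of level `s` -/
lemma split_unit' (h : Good p q W B) (s k : ℕ) (α σ : ℝ) :
    ∫ x in (0 : ℝ)..1, wt p q W k x (α + σ * x)
      = ∑ i ∈ Finset.range (p ^ s),
        ∫ x in (((i : ℤ) : ℝ) / (p : ℝ) ^ s)..((((i : ℤ) : ℝ) + 1) / (p : ℝ) ^ s),
          wt p q W k x (α + σ * x) := by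
  have hp' : (0 : ℝ) < p := by exact_mod_cast h.hp
  let c : ℕ → ℝ := fun r => (r : ℝ) / (p : ℝ) ^ s
  have hc0 : c 0 = 0 := by simp [c]
  have hc1 : c (p ^ s) = 1 := by
    simp only [c]
    push_cast
    exact div_self (by positivity)
  have := intervalIntegral.sum_integral_adjacent_intervals (a := c) (n := p ^ s)
    (f := fun x => wt p q W k x (α + σ * x)) (μ := volume)
    (fun r _ => integrable_line h k α σ (c r) (c (r + 1)))
  rw [hc0, hc1] at this
  rw [← this]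
  refine Finset.sum_congr rfl (fun r _ => ?_)
  simp only [c]
  push_cast
  rfl

/-- mass of the corners of the level `k` cells in a strip around the line `y = α + σ x` -/
lemma strip_mass (h : Good p q W B) (k : ℕ) (α σ w K : ℝ) (hw : 0 ≤ w)
    (hK : ∀ α', ∫ x in (0 : ℝ)..1, wt p q W k x (α' + σ * x) ≤ K) (hK0 : 0 ≤ K) :
    ∑ i ∈ Finset.range (p ^ k), ∑ j ∈ (Finset.range (q ^ k)).filter
        (fun j : ℕ => |(j : ℝ) / (q : ℝ) ^ k - (α + σ * ((i : ℝ) / (p : ℝ) ^ k))| < w),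
      wt p q W k ((i : ℝ) / (p : ℝ) ^ k) ((j : ℝ) / (q : ℝ) ^ k)
      ≤ (p : ℝ) ^ k * ((2 * ((q : ℝ) ^ k * w + (q : ℝ) ^ k * |σ| / (p : ℝ) ^ k) + 5) * K) := by
  have hp' : (0 : ℝ) < p := by exact_mod_cast h.hp
  have hq' : (0 : ℝ) < q := by exact_mod_cast h.hq
  have hpk : (0 : ℝ) < (p : ℝ) ^ k := by positivity
  have hqk : (0 : ℝ) < (q : ℝ) ^ k := by positivity
  set X : ℝ := (q : ℝ) ^ k * w + (q : ℝ) ^ k * |σ| / (p : ℝ) ^ k with hX
  have hX0 : 0 ≤ X := by positivity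
  set R : ℤ := ⌈X⌉ + 1 with hR
  have hXR : X + 1 ≤ R := by
    rw [hR]; push_cast
    linarith [Int.le_ceil X]
  have hRX : (R : ℝ) ≤ X + 2 := by
    rw [hR]; push_cast
    linarith [Int.ceil_lt_add_one X]
  have hcol : ∀ i ∈ Finset.range (p ^ k), ∑ j ∈ (Finset.range (q ^ k)).filter
        (fun j : ℕ => |(j : ℝ) / (q : ℝ) ^ k - (α + σ * ((i : ℝ) / (p : ℝ) ^ k))| < w),
      wt p q W k ((i : ℝ) / (p : ℝ) ^ k) ((j : ℝ) / (q : ℝ) ^ k)
      ≤ (p : ℝ) ^ k * ∑ s ∈ Finset.Icc (-R) R,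
        ∫ x in (((i : ℤ) : ℝ) / (p : ℝ) ^ k)..((((i : ℤ) : ℝ) + 1) / (p : ℝ) ^ k),
          wt p q W k x ((α + s / (q : ℝ) ^ k) + σ * x) := by
    intro i _
    set u : ℝ := ((i : ℤ) : ℝ) / (p : ℝ) ^ k with hu
    set u' : ℝ := (((i : ℤ) : ℝ) + 1) / (p : ℝ) ^ k with hu'
    have huu : u < u' := by
      rw [hu, hu']
      exact div_lt_div_of_pos_right (by linarith) hpk
    have hlen : u' - u = 1 / (p : ℝ) ^ k := by
      rw [hu, hu']; field_simp; ring
    have hui : (i : ℝ) / (p : ℝ) ^ k = u := by simp [hu]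
    rw [hui]
    set S := (Finset.range (q ^ k)).filter
        (fun j : ℕ => |(j : ℝ) / (q : ℝ) ^ k - (α + σ * u)| < w) with hS
    have e1 : ∑ j ∈ S, wt p q W k u ((j : ℝ) / (q : ℝ) ^ k)
        = (p : ℝ) ^ k * ∫ _x in u..u', ∑ j ∈ S, wt p q W k u ((j : ℝ) / (q : ℝ) ^ k) := by
      rw [intervalIntegral.integral_const, hlen, smul_eq_mul]
      field_simp
    rw [e1]
    apply mul_le_mul_of_nonneg_left _ hpk.le
    rw [← intervalIntegral.integral_finsetSum (fun s _ => integrable_line h k _ _ _ _)]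
    have hInt : IntervalIntegrable (fun x => ∑ s ∈ Finset.Icc (-R) R,
        wt p q W k x ((α + (s : ℝ) / (q : ℝ) ^ k) + σ * x)) volume u u' := by
      have h0 := IntervalIntegrable.sum (Finset.Icc (-R) R)
        (f := fun (s : ℤ) (x : ℝ) => wt p q W k x ((α + (s : ℝ) / (q : ℝ) ^ k) + σ * x))
        (fun s _ => integrable_line h k (α + (s : ℝ) / (q : ℝ) ^ k) σ u u')
      have e : (fun x : ℝ => ∑ s ∈ Finset.Icc (-R) R,
          wt p q W k x ((α + (s : ℝ) / (q : ℝ) ^ k) + σ * x))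
          = ∑ s ∈ Finset.Icc (-R) R,
            (fun x : ℝ => wt p q W k x ((α + (s : ℝ) / (q : ℝ) ^ k) + σ * x)) := by
        ext x
        simp [Finset.sum_apply]
      rw [e]
      exact h0
    refine int_mono_Ico huu.le intervalIntegrable_const hInt (fun x hx => ?_)
    -- pointwise comparison
    set j0 : ℤ := ⌊(q : ℝ) ^ k * (α + σ * x)⌋ with hj0
    have hj1 := Int.floor_le ((q : ℝ) ^ k * (α + σ * x))
    have hj2 := Int.lt_floor_add_one ((q : ℝ) ^ k * (α + σ * x))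
    rw [← hj0] at hj1 hj2
    have hval : ∀ j ∈ S, wt p q W k u ((j : ℝ) / (q : ℝ) ^ k)
        = wt p q W k x ((α + (((j : ℤ) - j0 : ℤ) : ℝ) / (q : ℝ) ^ k) + σ * x) := by
      intro j _
      refine wt_congr h.hp h.hq ?_ ?_
      · rw [floor_col h.hp k i hx, floor_col h.hp k i ⟨le_refl _, huu⟩]
      · have e2 : (q : ℝ) ^ k * ((j : ℝ) / (q : ℝ) ^ k) = ((j : ℤ) : ℝ) := by
          push_cast; field_simp
        have e3 : (q : ℝ) ^ k * (α + (((j : ℤ) - j0 : ℤ) : ℝ) / (q : ℝ) ^ k + σ * x)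
            = (q : ℝ) ^ k * (α + σ * x) + (((j : ℤ) - j0 : ℤ) : ℝ) := by
          field_simp
          ring
        rw [e2, e3, Int.floor_intCast, Int.floor_add_intCast, ← hj0]
        ring
    rw [Finset.sum_congr rfl hval]
    have hinj : Set.InjOn (fun j : ℕ => ((j : ℤ) - j0)) (S : Set ℕ) := by
      intro a _ b _ hab
      simp only at hab
      omega
    rw [← Finset.sum_image (f := fun s : ℤ => wt p q W k x ((α + (s : ℝ) / (q : ℝ) ^ k) + σ * x)) hinj]
    refine Finset.sum_le_sum_of_subset_of_nonneg ?_ (fun _ _ _ => wt_nonneg h.nonneg _ _ _)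
    intro s hs
    rw [Finset.mem_image] at hs
    obtain ⟨j, hjS, rfl⟩ := hs
    rw [hS, Finset.mem_filter] at hjS
    have hd := abs_lt.mp hjS.2
    have hx1 : |σ * x - σ * u| ≤ |σ| / (p : ℝ) ^ k := by
      rw [← mul_sub, abs_mul, div_eq_mul_one_div]
      apply mul_le_mul_of_nonneg_left _ (abs_nonneg _)
      rw [← hlen, abs_le]
      constructor <;> linarith [hx.1, hx.2]
    have hx2 := abs_le.mp hx1
    have hjq : (q : ℝ) ^ k * ((j : ℝ) / (q : ℝ) ^ k) = j := by field_simp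
    have hb1 : (j : ℝ) - (q : ℝ) ^ k * (α + σ * x) ≤ X := by
      have : (j : ℝ) - (q : ℝ) ^ k * (α + σ * x)
          = (q : ℝ) ^ k * (((j : ℝ) / (q : ℝ) ^ k - (α + σ * u)) + (σ * u - σ * x)) := by
        linear_combination -hjq
      rw [this, hX]
      have h2 : (q : ℝ) ^ k * w + (q : ℝ) ^ k * |σ| / (p : ℝ) ^ k
          = (q : ℝ) ^ k * (w + |σ| / (p : ℝ) ^ k) := by ring
      rw [h2]
      apply mul_le_mul_of_nonneg_left _ hqk.le
      linarith [hd.2, hx2.1]
    have hb2 : -X ≤ (j : ℝ) - (q : ℝ) ^ k * (α + σ * x) := by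
      have : (j : ℝ) - (q : ℝ) ^ k * (α + σ * x)
          = (q : ℝ) ^ k * (((j : ℝ) / (q : ℝ) ^ k - (α + σ * u)) + (σ * u - σ * x)) := by
        linear_combination -hjq
      rw [this, hX]
      have h2 : -((q : ℝ) ^ k * w + (q : ℝ) ^ k * |σ| / (p : ℝ) ^ k)
          = (q : ℝ) ^ k * (-(w + |σ| / (p : ℝ) ^ k)) := by ring
      rw [h2]
      apply mul_le_mul_of_nonneg_left _ hqk.le
      linarith [hd.1, hx2.2]
    rw [Finset.mem_Icc]
    constructor
    · have : (-R : ℝ) ≤ (j : ℝ) - j0 := by linarith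
      exact_mod_cast this
    · have : (j : ℝ) - j0 ≤ R := by linarith
      exact_mod_cast this
  refine (Finset.sum_le_sum hcol).trans ?_
  rw [← Finset.mul_sum, Finset.sum_comm]
  apply mul_le_mul_of_nonneg_left _ hpk.le
  have h1 : ∀ s ∈ Finset.Icc (-R) R, ∑ i ∈ Finset.range (p ^ k),
      ∫ x in (((i : ℤ) : ℝ) / (p : ℝ) ^ k)..((((i : ℤ) : ℝ) + 1) / (p : ℝ) ^ k),
          wt p q W k x ((α + s / (q : ℝ) ^ k) + σ * x) ≤ K := by
    intro s _
    rw [← split_unit' h k k]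
    exact hK _
  refine (Finset.sum_le_sum h1).trans ?_
  rw [Finset.sum_const, nsmul_eq_mul]
  apply mul_le_mul_of_nonneg_right _ hK0
  rw [Int.card_Icc]
  have hR0 : 0 ≤ R := by
    have : (0 : ℝ) ≤ R := by linarith
    exact_mod_cast this
  have h2 : (((R + 1 - -R).toNat : ℕ) : ℝ) = 2 * R + 1 := by
    have h3 : ((R + 1 - -R).toNat : ℤ) = 2 * R + 1 := by
      rw [Int.toNat_of_nonneg (by omega)]; ring
    have h4 : ((((R + 1 - -R).toNat : ℕ) : ℤ) : ℝ) = ((2 * R + 1 : ℤ) : ℝ) := congrArg _ h3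
    rw [Int.cast_natCast] at h4
    rw [h4]
    push_cast
    ring
  rw [h2]
  linarith

lemma sum_range_mul {M : Type*} [AddCommMonoid M] (m n : ℕ) (f : ℕ → M) :
    ∑ i ∈ Finset.range (m * n), f i = ∑ a ∈ Finset.range m, ∑ b ∈ Finset.range n, f (a * n + b) := by
  induction m with
  | zero => simp
  | succ m ih =>
    rw [Nat.succ_mul, Finset.sum_range_add, ih, Finset.sum_range_succ]

/-- total mass of one row -/
lemma row_mass (h : Good p q W B) (k : ℕ) (y : ℝ) :
    ∑ i ∈ Finset.range (p ^ k), wt p q W k ((i : ℝ) / (p : ℝ) ^ k) y = (p : ℝ) ^ k := by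
  have hp' : (0 : ℝ) < p := by exact_mod_cast h.hp
  induction k with
  | zero => simp [wt_zero]
  | succ k ih =>
    rw [pow_succ p k, sum_range_mul]
    have h1 : ∀ i ∈ Finset.range (p ^ k), ∑ a ∈ Finset.range p,
        wt p q W (k + 1) (((i * p + a : ℕ) : ℝ) / (p : ℝ) ^ (k + 1)) y
        = wt p q W k ((i : ℝ) / (p : ℝ) ^ k) y * p := by
      intro i _
      have hb0 : 0 ≤ dig q k y := Int.emod_nonneg _ (by exact_mod_cast h.hq.ne')
      have hbq : dig q k y < q := Int.emod_lt_of_pos _ (by exact_mod_cast h.hq)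
      have hs := h.sum (dig q k y) hb0 hbq
      have hgoal : wt p q W k ((i : ℝ) / (p : ℝ) ^ k) y * p
          = wt p q W k ((i : ℝ) / (p : ℝ) ^ k) y * ∑ a ∈ Finset.range p, W (a : ℤ) (dig q k y) := by
        rw [hs]
      rw [hgoal, Finset.mul_sum]
      refine Finset.sum_congr rfl (fun a ha => ?_)
      have ha' : a < p := Finset.mem_range.mp ha
      have hfl : ⌊(p : ℝ) ^ (k + 1) * (((i * p + a : ℕ) : ℝ) / (p : ℝ) ^ (k + 1))⌋
          = ((i * p + a : ℕ) : ℤ) := by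
        have : (p : ℝ) ^ (k + 1) * (((i * p + a : ℕ) : ℝ) / (p : ℝ) ^ (k + 1))
            = (((i * p + a : ℕ) : ℤ) : ℝ) := by
          push_cast; field_simp
        rw [this, Int.floor_intCast]
      rw [wt_succ]
      congr 1
      · refine wt_congr h.hp h.hq ?_ rfl
        rw [floor_of_level h.hp k 1, hfl]
        have e : (p : ℝ) ^ k * ((i : ℝ) / (p : ℝ) ^ k) = ((i : ℤ) : ℝ) := by
          push_cast; field_simp
        rw [e, Int.floor_intCast, pow_one]
        push_cast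
        rw [add_comm, Int.add_mul_ediv_right _ _ (by exact_mod_cast h.hp.ne')]
        rw [Int.ediv_eq_zero_of_lt (by positivity) (by exact_mod_cast ha')]
        simp
      · have hd : dig p k (((i * p + a : ℕ) : ℝ) / (p : ℝ) ^ (k + 1)) = (a : ℤ) := by
          unfold dig
          rw [hfl]
          push_cast
          rw [add_comm, Int.add_mul_emod_self_right]
          exact Int.emod_eq_of_lt (by positivity) (by exact_mod_cast ha')
        rw [hd]
    rw [Finset.sum_congr rfl h1, ← Finset.sum_mul, ih, pow_succ]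

/-- every cell of positive weight contains a point of a set stable under the cell maps -/
lemma cell_point (hp : 0 < p) (hq : 0 < q) {F : Set (ℝ × ℝ)} (hF : F.Nonempty)
    (hF01 : ∀ z ∈ F, (0 ≤ z.1 ∧ z.1 ≤ 1) ∧ (0 ≤ z.2 ∧ z.2 ≤ 1))
    (hst : ∀ a b : ℕ, a < p → b < q → W a b ≠ 0 → ∀ z ∈ F,
      ((z.1 + a) / p, (z.2 + b) / q) ∈ F) (k : ℕ) :
    ∀ i j : ℕ, i < p ^ k → j < q ^ k →
      wt p q W k ((i : ℝ) / (p : ℝ) ^ k) ((j : ℝ) / (q : ℝ) ^ k) ≠ 0 →
      ∃ z ∈ F, ((i : ℝ) / (p : ℝ) ^ k ≤ z.1 ∧ z.1 ≤ ((i : ℝ) + 1) / (p : ℝ) ^ k) ∧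
        ((j : ℝ) / (q : ℝ) ^ k ≤ z.2 ∧ z.2 ≤ ((j : ℝ) + 1) / (q : ℝ) ^ k) := by
  have hp' : (0 : ℝ) < p := by exact_mod_cast hp
  have hq' : (0 : ℝ) < q := by exact_mod_cast hq
  induction k with
  | zero =>
    intro i j hi hj _
    obtain ⟨z, hz⟩ := hF
    have hi0 : i = 0 := by simpa using hi
    have hj0 : j = 0 := by simpa using hj
    subst hi0 hj0
    refine ⟨z, hz, ?_⟩
    have := hF01 z hz
    simpa using this
  | succ k ih =>
    intro i j hi hj hne
    set a := i / p ^ k with ha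
    set i' := i % p ^ k with hi'
    set b := j / q ^ k with hb
    set j' := j % q ^ k with hj'
    have hi2 : i = a * p ^ k + i' := by rw [ha, hi', mul_comm]; exact (Nat.div_add_mod _ _).symm
    have hj2 : j = b * q ^ k + j' := by rw [hb, hj', mul_comm]; exact (Nat.div_add_mod _ _).symm
    have hap : a < p := by
      rw [ha, Nat.div_lt_iff_lt_mul (by positivity)]
      rw [pow_succ, mul_comm] at hi
      exact hi
    have hbq : b < q := by
      rw [hb, Nat.div_lt_iff_lt_mul (by positivity)]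
      rw [pow_succ, mul_comm] at hj
      exact hj
    have hi'lt : i' < p ^ k := Nat.mod_lt _ (by positivity)
    have hj'lt : j' < q ^ k := Nat.mod_lt _ (by positivity)
    have ex : (p : ℝ) ^ 1 * ((i : ℝ) / (p : ℝ) ^ (k + 1)) = (i' : ℝ) / (p : ℝ) ^ k + ((a : ℤ) : ℝ) := by
      rw [hi2]; push_cast; field_simp; ring
    have ey : (q : ℝ) ^ 1 * ((j : ℝ) / (q : ℝ) ^ (k + 1)) = (j' : ℝ) / (q : ℝ) ^ k + ((b : ℤ) : ℝ) := by
      rw [hj2]; push_cast; field_simp; ring
    have e1 : wt p q W (k + 1) ((i : ℝ) / (p : ℝ) ^ (k + 1)) ((j : ℝ) / (q : ℝ) ^ (k + 1))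
        = wt p q W 1 ((i : ℝ) / (p : ℝ) ^ (k + 1)) ((j : ℝ) / (q : ℝ) ^ (k + 1))
          * wt p q W k ((i' : ℝ) / (p : ℝ) ^ k) ((j' : ℝ) / (q : ℝ) ^ k) := by
      rw [add_comm k 1, wt_add, add_comm 1 k, ex, ey, wt_add_int_left, wt_add_int_right]
    rw [e1] at hne
    have hne1 := left_ne_zero_of_mul hne
    have hne2 := right_ne_zero_of_mul hne
    obtain ⟨z, hz, ⟨h1, h2⟩, h3, h4⟩ := ih i' j' hi'lt hj'lt hne2
    have hda : dig p 0 ((i : ℝ) / (p : ℝ) ^ (k + 1)) = (a : ℤ) := by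
      unfold dig
      rw [zero_add, ex, Int.floor_add_intCast]
      have hfl : ⌊(i' : ℝ) / (p : ℝ) ^ k⌋ = 0 := by
        rw [Int.floor_eq_zero_iff]
        constructor
        · positivity
        · rw [div_lt_one (by positivity)]
          exact_mod_cast hi'lt
      rw [hfl, zero_add]
      exact Int.emod_eq_of_lt (by positivity) (by exact_mod_cast hap)
    have hdb : dig q 0 ((j : ℝ) / (q : ℝ) ^ (k + 1)) = (b : ℤ) := by
      unfold dig
      rw [zero_add, ey, Int.floor_add_intCast]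
      have hfl : ⌊(j' : ℝ) / (q : ℝ) ^ k⌋ = 0 := by
        rw [Int.floor_eq_zero_iff]
        constructor
        · positivity
        · rw [div_lt_one (by positivity)]
          exact_mod_cast hj'lt
      rw [hfl, zero_add]
      exact Int.emod_eq_of_lt (by positivity) (by exact_mod_cast hbq)
    have hWab : W a b ≠ 0 := by
      have : wt p q W 1 ((i : ℝ) / (p : ℝ) ^ (k + 1)) ((j : ℝ) / (q : ℝ) ^ (k + 1)) = W a b := by
        unfold wt
        rw [Finset.prod_range_one, hda, hdb]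
      rw [this] at hne1
      exact hne1
    refine ⟨((z.1 + a) / p, (z.2 + b) / q), hst a b hap hbq hWab z hz, ?_, ?_⟩
    · have ex' : (i : ℝ) / (p : ℝ) ^ (k + 1) = ((i' : ℝ) / (p : ℝ) ^ k + a) / p := by
        rw [hi2]; push_cast; field_simp; ring
      have ex'' : ((i : ℝ) + 1) / (p : ℝ) ^ (k + 1) = (((i' : ℝ) + 1) / (p : ℝ) ^ k + a) / p := by
        rw [hi2]; push_cast; field_simp; ring
      rw [ex', ex'']
      constructor
      · exact div_le_div_of_nonneg_right (by simpa using h1) hp'.le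
      · exact div_le_div_of_nonneg_right (by simpa using h2) hp'.le
    · have ey' : (j : ℝ) / (q : ℝ) ^ (k + 1) = ((j' : ℝ) / (q : ℝ) ^ k + b) / q := by
        rw [hj2]; push_cast; field_simp; ring
      have ey'' : ((j : ℝ) + 1) / (q : ℝ) ^ (k + 1) = (((j' : ℝ) + 1) / (q : ℝ) ^ k + b) / q := by
        rw [hj2]; push_cast; field_simp; ring
      rw [ey', ey'']
      constructor
      · exact div_le_div_of_nonneg_right (by simpa using h3) hq'.le
      · exact div_le_div_of_nonneg_right (by simpa using h4) hq'.le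

end Pool.Agent.H806R3.Tube
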