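import Pool.Agent.H806R3.TubeE

set_option autoImplicit false

namespace Pool.Agent.H806R3.Tube

open MeasureTheory Set Finset

/-- the weight -/
noncomputable def W0 (a b : ℤ) : ℝ :=
  if a = 0 then (if b = 0 then 0 else 9 / 8) else (if b = 0 then 3 / 2 else 15 / 16)

lemma W0_good : Good 3 9 W0 (3 / 2) where
  hp := by norm_num
  hq := by norm_num
  nonneg a b := by unfold W0; split_ifs <;> norm_num
  le a b := by unfold W0; split_ifs <;> norm_num
  sum b _ _ := by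
    simp only [Finset.sum_range_succ, Finset.sum_range_zero, W0]
    by_cases hb : b = 0
    · subst hb
      norm_num
    · simp only [if_neg hb]
      norm_num

lemma W0_good' : Good 9 3 (fun a b => W0 b a) (3 / 2) where
  hp := by norm_num
  hq := by norm_num
  nonneg a b := by unfold W0; split_ifs <;> norm_num
  le a b := by unfold W0; split_ifs <;> norm_num
  sum b _ _ := by
    simp only [Finset.sum_range_succ, Finset.sum_range_zero, W0]
    by_cases hb : b = 0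
    · simp [hb]; norm_num
    · simp [hb]; norm_num

/-- open neighbourhood of radius `w` of the line `a x + b y = s` (when `a² + b² = 1`) -/
def Strip (a b s w : ℝ) : Set (ℝ × ℝ) := {z | |a * z.1 + b * z.2 - s| < w}

lemma isOpen_strip (a b s w : ℝ) : IsOpen (Strip a b s w) := by
  unfold Strip
  exact isOpen_lt (by fun_prop) continuous_const

/-- the uniform constant -/
noncomputable def KK : ℝ := 4590 * Real.exp 36

lemma KK_ge : 85 ≤ KK := by
  unfold KK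
  have := Real.one_le_exp (by norm_num : (0 : ℝ) ≤ 36)
  linarith

open Classical in
/-- mass of the level `k` corners in a strip -/
lemma mass_strip (k : ℕ) (a b s w : ℝ) (hab : a ^ 2 + b ^ 2 = 1) (hw : 0 ≤ w) :
    ∑ i ∈ Finset.range (3 ^ k), ∑ j ∈ Finset.range (9 ^ k),
      (if (((i : ℝ) / 3 ^ k, (j : ℝ) / 9 ^ k) : ℝ × ℝ) ∈ Strip a b s w then
        wt 3 9 W0 k ((i : ℝ) / 3 ^ k) ((j : ℝ) / 9 ^ k) else 0)
      ≤ 27 ^ k * (KK * (8 * w + 11 * (1 / 3) ^ k)) := by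
  have hKK := KK_ge
  have e27 : (27 : ℝ) ^ k = 3 ^ k * 9 ^ k := by rw [← mul_pow]; norm_num
  have e9 : (9 : ℝ) ^ k = 3 ^ k * 3 ^ k := by rw [← mul_pow]; norm_num
  have h3 : (1 : ℝ) ≤ 3 ^ k := one_le_pow₀ (by norm_num)
  have e13 : (1 / 3 : ℝ) ^ k * 3 ^ k = 1 := by rw [← mul_pow]; norm_num
  by_cases hc : 3 * |a| ≤ |b|
  · -- flat
    have hb2 : 9 / 10 ≤ b ^ 2 := by
      have h1 : 9 * a ^ 2 ≤ b ^ 2 := by
        have := pow_le_pow_left₀ (by positivity) hc 2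
        rw [mul_pow, sq_abs, sq_abs] at this
        linarith
      linarith
    have hb0 : b ≠ 0 := by
      intro h; rw [h] at hb2; norm_num at hb2
    have hbpos : 0 < |b| := abs_pos.mpr hb0
    have hb1 : 1 ≤ 2 * |b| := by
      have : (1 : ℝ) ^ 2 ≤ (2 * |b|) ^ 2 := by
        rw [mul_pow, sq_abs]; linarith
      exact le_of_sq_le_sq this (by positivity)
    set σ : ℝ := -(a / b) with hσ
    have hσabs : |σ| ≤ 1 / 3 := by
      rw [hσ, abs_neg, abs_div, div_le_iff₀ hbpos]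
      linarith
    have hst := strip_mass W0_good k (s / b) σ (w / |b|) KK (by positivity)
      (fun α' => flat_all W0_good W0_good' hσabs k α') (by linarith)
    have heq : ∀ i j : ℕ, ((((i : ℝ) / 3 ^ k, (j : ℝ) / 9 ^ k) : ℝ × ℝ) ∈ Strip a b s w) ↔
        |(j : ℝ) / ((9 : ℕ) : ℝ) ^ k - (s / b + σ * ((i : ℝ) / ((3 : ℕ) : ℝ) ^ k))| < w / |b| := by
      intro i j
      unfold Strip
      rw [Set.mem_ofPred_eq, lt_div_iff₀ hbpos, ← abs_mul]
      have : ((j : ℝ) / ((9 : ℕ) : ℝ) ^ k - (s / b + σ * ((i : ℝ) / ((3 : ℕ) : ℝ) ^ k))) * b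
          = a * ((i : ℝ) / 3 ^ k) + b * ((j : ℝ) / 9 ^ k) - s := by
        rw [hσ]
        push_cast
        field_simp
        ring
      rw [this]
    have hlhs : ∑ i ∈ Finset.range (3 ^ k), ∑ j ∈ Finset.range (9 ^ k),
      (if (((i : ℝ) / 3 ^ k, (j : ℝ) / 9 ^ k) : ℝ × ℝ) ∈ Strip a b s w then
        wt 3 9 W0 k ((i : ℝ) / 3 ^ k) ((j : ℝ) / 9 ^ k) else 0)
        = ∑ i ∈ Finset.range (3 ^ k), ∑ j ∈ (Finset.range (9 ^ k)).filter
        (fun j : ℕ => |(j : ℝ) / ((9 : ℕ) : ℝ) ^ k - (s / b + σ * ((i : ℝ) / ((3 : ℕ) : ℝ) ^ k))| < w / |b|),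
      wt 3 9 W0 k ((i : ℝ) / ((3 : ℕ) : ℝ) ^ k) ((j : ℝ) / ((9 : ℕ) : ℝ) ^ k) := by
      refine Finset.sum_congr rfl (fun i _ => ?_)
      rw [Finset.sum_filter]
      refine Finset.sum_congr rfl (fun j _ => ?_)
      simp only [heq]
      push_cast
      rfl
    rw [hlhs]
    refine hst.trans ?_
    push_cast
    have hwb : w / |b| ≤ 2 * w := by
      rw [div_le_iff₀ hbpos]; nlinarith
    have hX : (9 : ℝ) ^ k * (w / |b|) + 9 ^ k * |σ| / 3 ^ k ≤ 9 ^ k * (2 * w) + 3 ^ k := by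
      have h1 : (9 : ℝ) ^ k * (w / |b|) ≤ 9 ^ k * (2 * w) :=
        mul_le_mul_of_nonneg_left hwb (by positivity)
      have h2 : (9 : ℝ) ^ k * |σ| / 3 ^ k = 3 ^ k * |σ| := by
        rw [e9]; field_simp
      have h4 : (3 : ℝ) ^ k * |σ| ≤ 3 ^ k * 1 :=
        mul_le_mul_of_nonneg_left (by linarith) (by positivity)
      rw [h2]; linarith
    have hfin : 2 * ((9 : ℝ) ^ k * (w / |b|) + 9 ^ k * |σ| / 3 ^ k) + 5
        ≤ 9 ^ k * (8 * w + 11 * (1 / 3) ^ k) := by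
      have h6 : (9 : ℝ) ^ k * (1 / 3) ^ k = 3 ^ k := by
        rw [e9]
        calc (3 : ℝ) ^ k * 3 ^ k * (1 / 3) ^ k = 3 ^ k * ((1 / 3) ^ k * 3 ^ k) := by ring
          _ = 3 ^ k := by rw [e13, mul_one]
      have h7 : (9 : ℝ) ^ k * (8 * w + 11 * (1 / 3) ^ k) = 8 * (9 ^ k * w) + 11 * 3 ^ k := by
        rw [mul_add]
        have : (9 : ℝ) ^ k * (11 * (1 / 3) ^ k) = 11 * (9 ^ k * (1 / 3) ^ k) := by ring
        rw [this, h6]; ring
      rw [h7]
      have h8 : (0 : ℝ) ≤ 9 ^ k * w := by positivity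
      linarith
    calc (3 : ℝ) ^ k * ((2 * ((9 : ℝ) ^ k * (w / |b|) + 9 ^ k * |σ| / 3 ^ k) + 5) * KK)
        ≤ 3 ^ k * ((9 ^ k * (8 * w + 11 * (1 / 3) ^ k)) * KK) := by
          apply mul_le_mul_of_nonneg_left _ (by positivity)
          exact mul_le_mul_of_nonneg_right hfin (by linarith)
      _ = 27 ^ k * (KK * (8 * w + 11 * (1 / 3) ^ k)) := by rw [e27]; ring
  · -- steep
    push Not at hc
    have ha2 : 1 / 10 ≤ a ^ 2 := by
      have h1 : b ^ 2 ≤ 9 * a ^ 2 := by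
        have := pow_le_pow_left₀ (abs_nonneg b) hc.le 2
        rw [mul_pow, sq_abs, sq_abs] at this
        linarith
      linarith
    have ha0 : a ≠ 0 := by
      intro h; rw [h] at ha2; norm_num at ha2
    have hapos : 0 < |a| := abs_pos.mpr ha0
    have ha1 : 1 ≤ 4 * |a| := by
      have : (1 : ℝ) ^ 2 ≤ (4 * |a|) ^ 2 := by
        rw [mul_pow, sq_abs]; linarith
      exact le_of_sq_le_sq this (by positivity)
    set κ : ℝ := -(b / a) with hκ
    have hκabs : |κ| ≤ 3 := by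
      rw [hκ, abs_neg, abs_div, div_le_iff₀ hapos]
      linarith
    have hst := strip_mass W0_good' k (s / a) κ (w / |a|) 85 (by positivity)
      (fun α' => by
        have h1 := steep_bound W0_good' (κ := κ) (by linarith) k α'
        have h2 : (0 : ℝ) ≤ 84 * (1 / 2) ^ k := by positivity
        linarith) (by norm_num)
    have heq : ∀ i j : ℕ, ((((i : ℝ) / 3 ^ k, (j : ℝ) / 9 ^ k) : ℝ × ℝ) ∈ Strip a b s w) ↔
        |(i : ℝ) / ((3 : ℕ) : ℝ) ^ k - (s / a + κ * ((j : ℝ) / ((9 : ℕ) : ℝ) ^ k))| < w / |a| := by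
      intro i j
      unfold Strip
      rw [Set.mem_ofPred_eq, lt_div_iff₀ hapos, ← abs_mul]
      have : ((i : ℝ) / ((3 : ℕ) : ℝ) ^ k - (s / a + κ * ((j : ℝ) / ((9 : ℕ) : ℝ) ^ k))) * a
          = a * ((i : ℝ) / 3 ^ k) + b * ((j : ℝ) / 9 ^ k) - s := by
        rw [hκ]
        push_cast
        field_simp
        ring
      rw [this]
    have hlhs : ∑ i ∈ Finset.range (3 ^ k), ∑ j ∈ Finset.range (9 ^ k),
      (if (((i : ℝ) / 3 ^ k, (j : ℝ) / 9 ^ k) : ℝ × ℝ) ∈ Strip a b s w then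
        wt 3 9 W0 k ((i : ℝ) / 3 ^ k) ((j : ℝ) / 9 ^ k) else 0)
        = ∑ j ∈ Finset.range (9 ^ k), ∑ i ∈ (Finset.range (3 ^ k)).filter
        (fun i : ℕ => |(i : ℝ) / ((3 : ℕ) : ℝ) ^ k - (s / a + κ * ((j : ℝ) / ((9 : ℕ) : ℝ) ^ k))| < w / |a|),
      wt 9 3 (fun a b => W0 b a) k ((j : ℝ) / ((9 : ℕ) : ℝ) ^ k) ((i : ℝ) / ((3 : ℕ) : ℝ) ^ k) := by
      rw [Finset.sum_comm]
      refine Finset.sum_congr rfl (fun j _ => ?_)
      rw [Finset.sum_filter]
      refine Finset.sum_congr rfl (fun i _ => ?_)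
      simp only [heq, wt_swap (p := 3) (q := 9)]
      push_cast
      rfl
    rw [hlhs]
    refine hst.trans ?_
    push_cast
    have hwb : w / |a| ≤ 4 * w := by
      rw [div_le_iff₀ hapos]; nlinarith
    have h9' : (0 : ℝ) < 9 ^ k := by positivity
    have hX : (3 : ℝ) ^ k * (w / |a|) + 3 ^ k * |κ| / 9 ^ k ≤ 3 ^ k * (4 * w) + 3 := by
      have h1 : (3 : ℝ) ^ k * (w / |a|) ≤ 3 ^ k * (4 * w) :=
        mul_le_mul_of_nonneg_left hwb (by positivity)
      have h2 : (3 : ℝ) ^ k * |κ| / 9 ^ k ≤ 3 := by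
        rw [div_le_iff₀ h9']
        have h4 : (3 : ℝ) ^ k ≤ 9 ^ k := pow_le_pow_left₀ (by norm_num) (by norm_num) k
        nlinarith [abs_nonneg κ]
      linarith
    have hfin : 2 * ((3 : ℝ) ^ k * (w / |a|) + 3 ^ k * |κ| / 9 ^ k) + 5
        ≤ 3 ^ k * (8 * w + 11 * (1 / 3) ^ k) := by
      have h7 : (3 : ℝ) ^ k * (8 * w + 11 * (1 / 3) ^ k) = 8 * (3 ^ k * w) + 11 := by
        rw [mul_add]
        have : (3 : ℝ) ^ k * (11 * (1 / 3) ^ k) = 11 * ((1 / 3) ^ k * 3 ^ k) := by ring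
        rw [this, e13]; ring
      rw [h7]
      linarith
    calc (9 : ℝ) ^ k * ((2 * ((3 : ℝ) ^ k * (w / |a|) + 3 ^ k * |κ| / 9 ^ k) + 5) * 85)
        ≤ 9 ^ k * ((3 ^ k * (8 * w + 11 * (1 / 3) ^ k)) * KK) := by
          apply mul_le_mul_of_nonneg_left _ (by positivity)
          exact mul_le_mul hfin hKK (by norm_num) (by positivity)
      _ = 27 ^ k * (KK * (8 * w + 11 * (1 / 3) ^ k)) := by rw [e27]; ring

/-- finite covers by strips have total width bounded below -/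
lemma finite_cover_bound {F : Set (ℝ × ℝ)} (hF : F.Nonempty)
    (hF01 : ∀ z ∈ F, (0 ≤ z.1 ∧ z.1 ≤ 1) ∧ (0 ≤ z.2 ∧ z.2 ≤ 1))
    (hst : ∀ a b : ℕ, a < 3 → b < 9 → W0 a b ≠ 0 → ∀ z ∈ F,
      ((z.1 + a) / ((3 : ℕ) : ℝ), (z.2 + b) / ((9 : ℕ) : ℝ)) ∈ F)
    (S : Finset ℕ) (a b s w : ℕ → ℝ) (hab : ∀ n, a n ^ 2 + b n ^ 2 = 1) (hw : ∀ n, 0 ≤ w n)
    (hcov : F ⊆ ⋃ n ∈ S, Strip (a n) (b n) (s n) (w n)) :
    1 / (8 * KK) ≤ ∑ n ∈ S, w n := by
  classical
  have hKK := KK_ge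
  -- the inequality at each level
  have hlev : ∀ k : ℕ, 1 ≤ KK * (8 * ∑ n ∈ S, w n) + (KK * 27 * S.card) * (1 / 3) ^ k := by
    intro k
    have htot : ∑ i ∈ Finset.range (3 ^ k), ∑ j ∈ Finset.range (9 ^ k),
        wt 3 9 W0 k ((i : ℝ) / 3 ^ k) ((j : ℝ) / 9 ^ k) = (27 : ℝ) ^ k := by
      rw [Finset.sum_comm]
      have h1 : ∀ j ∈ Finset.range (9 ^ k), ∑ i ∈ Finset.range (3 ^ k),
          wt 3 9 W0 k ((i : ℝ) / 3 ^ k) ((j : ℝ) / 9 ^ k) = (3 : ℝ) ^ k := by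
        intro j _
        have := row_mass W0_good k ((j : ℝ) / 9 ^ k)
        push_cast at this
        exact this
      rw [Finset.sum_congr rfl h1]
      simp only [Finset.sum_const, Finset.card_range, nsmul_eq_mul]
      push_cast
      rw [← mul_pow]; norm_num
    have hle : ∑ i ∈ Finset.range (3 ^ k), ∑ j ∈ Finset.range (9 ^ k),
        wt 3 9 W0 k ((i : ℝ) / 3 ^ k) ((j : ℝ) / 9 ^ k)
        ≤ ∑ n ∈ S, ∑ i ∈ Finset.range (3 ^ k), ∑ j ∈ Finset.range (9 ^ k),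
          (if (((i : ℝ) / 3 ^ k, (j : ℝ) / 9 ^ k) : ℝ × ℝ) ∈
              Strip (a n) (b n) (s n) (w n + 2 * (1 / 3) ^ k) then
            wt 3 9 W0 k ((i : ℝ) / 3 ^ k) ((j : ℝ) / 9 ^ k) else 0) := by
      rw [Finset.sum_comm (s := S)]
      refine Finset.sum_le_sum (fun i hi => ?_)
      rw [Finset.sum_comm (s := S)]
      refine Finset.sum_le_sum (fun j hj => ?_)
      have hnn : 0 ≤ wt 3 9 W0 k ((i : ℝ) / 3 ^ k) ((j : ℝ) / 9 ^ k) :=
        wt_nonneg W0_good.nonneg _ _ _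
      by_cases h0 : wt 3 9 W0 k ((i : ℝ) / 3 ^ k) ((j : ℝ) / 9 ^ k) = 0
      · rw [h0]
        refine Finset.sum_nonneg (fun n _ => ?_)
        split_ifs <;> exact le_rfl
      · obtain ⟨z, hz, ⟨h1, h2⟩, h3, h4⟩ := cell_point (p := 3) (q := 9) (W := W0)
          (by norm_num) (by norm_num) hF hF01 hst k i j (Finset.mem_range.mp hi)
          (Finset.mem_range.mp hj) (by push_cast; exact h0)
        push_cast at h1 h2 h3 h4
        obtain ⟨n, hn⟩ := Set.mem_iUnion.mp (hcov hz)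
        obtain ⟨hnS, hzn⟩ := Set.mem_iUnion.mp hn
        have hmem : (((i : ℝ) / 3 ^ k, (j : ℝ) / 9 ^ k) : ℝ × ℝ) ∈
            Strip (a n) (b n) (s n) (w n + 2 * (1 / 3) ^ k) := by
          unfold Strip at hzn ⊢
          rw [Set.mem_ofPred_eq] at hzn ⊢
          have h5 : z.1 - (i : ℝ) / 3 ^ k ≤ (1 / 3) ^ k := by
            rw [one_div_pow]
            have : ((i : ℝ) + 1) / 3 ^ k = (i : ℝ) / 3 ^ k + 1 / 3 ^ k := by ring
            rw [this] at h2
            linarith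
          have h6 : z.2 - (j : ℝ) / 9 ^ k ≤ (1 / 3) ^ k := by
            have h7 : ((j : ℝ) + 1) / 9 ^ k = (j : ℝ) / 9 ^ k + (1 / 9) ^ k := by
              rw [one_div_pow]; ring
            have h8 : (1 / 9 : ℝ) ^ k ≤ (1 / 3) ^ k :=
              pow_le_pow_left₀ (by norm_num) (by norm_num) k
            rw [h7] at h4
            linarith
          have ha1 : |a n| ≤ 1 := by
            rw [← sq_le_one_iff_abs_le_one]; nlinarith [hab n, sq_nonneg (b n)]
          have hb1 : |b n| ≤ 1 := by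
            rw [← sq_le_one_iff_abs_le_one]; nlinarith [hab n, sq_nonneg (a n)]
          have h9 : |a n * (z.1 - (i : ℝ) / 3 ^ k)| ≤ (1 / 3) ^ k := by
            rw [abs_mul, abs_of_nonneg (by linarith : 0 ≤ z.1 - (i : ℝ) / 3 ^ k)]
            calc |a n| * (z.1 - (i : ℝ) / 3 ^ k) ≤ 1 * (z.1 - (i : ℝ) / 3 ^ k) :=
                  mul_le_mul_of_nonneg_right ha1 (by linarith)
              _ ≤ (1 / 3) ^ k := by linarith
          have h10 : |b n * (z.2 - (j : ℝ) / 9 ^ k)| ≤ (1 / 3) ^ k := by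
            rw [abs_mul, abs_of_nonneg (by linarith : 0 ≤ z.2 - (j : ℝ) / 9 ^ k)]
            calc |b n| * (z.2 - (j : ℝ) / 9 ^ k) ≤ 1 * (z.2 - (j : ℝ) / 9 ^ k) :=
                  mul_le_mul_of_nonneg_right hb1 (by linarith)
              _ ≤ (1 / 3) ^ k := by linarith
          have h11 : a n * ((i : ℝ) / 3 ^ k) + b n * ((j : ℝ) / 9 ^ k) - s n
              = (a n * z.1 + b n * z.2 - s n) - a n * (z.1 - (i : ℝ) / 3 ^ k)
                - b n * (z.2 - (j : ℝ) / 9 ^ k) := by ring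
          rw [h11]
          have h12 := abs_lt.mp hzn
          have h13 := abs_le.mp h9
          have h14 := abs_le.mp h10
          rw [abs_lt]
          constructor <;> linarith [h12.1, h12.2, h13.1, h13.2, h14.1, h14.2]
        have := Finset.single_le_sum (f := fun n => (if (((i : ℝ) / 3 ^ k, (j : ℝ) / 9 ^ k) : ℝ × ℝ) ∈
              Strip (a n) (b n) (s n) (w n + 2 * (1 / 3) ^ k) then
            wt 3 9 W0 k ((i : ℝ) / 3 ^ k) ((j : ℝ) / 9 ^ k) else 0)) (fun n _ => by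
              split_ifs <;> first | exact hnn | exact le_rfl) hnS
        simp only [if_pos hmem] at this
        exact this
    have hub : ∑ n ∈ S, ∑ i ∈ Finset.range (3 ^ k), ∑ j ∈ Finset.range (9 ^ k),
          (if (((i : ℝ) / 3 ^ k, (j : ℝ) / 9 ^ k) : ℝ × ℝ) ∈
              Strip (a n) (b n) (s n) (w n + 2 * (1 / 3) ^ k) then
            wt 3 9 W0 k ((i : ℝ) / 3 ^ k) ((j : ℝ) / 9 ^ k) else 0)
        ≤ ∑ n ∈ S, 27 ^ k * (KK * (8 * (w n + 2 * (1 / 3) ^ k) + 11 * (1 / 3) ^ k)) := by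
      refine Finset.sum_le_sum (fun n _ => ?_)
      exact mass_strip k (a n) (b n) (s n) _ (hab n) (by have := hw n; positivity)
    have h1 : (27 : ℝ) ^ k ≤ 27 ^ k * (KK * (8 * ∑ n ∈ S, w n) + (KK * 27 * S.card) * (1 / 3) ^ k) := by
      rw [← htot]
      refine (hle.trans hub).trans (le_of_eq ?_)
      rw [htot, ← Finset.mul_sum, ← Finset.mul_sum, Finset.mul_sum S w 8]
      have : ∑ n ∈ S, (8 * (w n + 2 * (1 / 3 : ℝ) ^ k) + 11 * (1 / 3) ^ k)
          = ∑ n ∈ S, 8 * w n + S.card * (27 * (1 / 3) ^ k) := by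
        rw [← nsmul_eq_mul, ← Finset.sum_const, ← Finset.sum_add_distrib]
        refine Finset.sum_congr rfl (fun n _ => ?_)
        ring
      rw [this]
      ring
    have h27 : (0 : ℝ) < 27 ^ k := by positivity
    have := le_of_mul_le_mul_left (by linarith : (27 : ℝ) ^ k * 1 ≤ 27 ^ k * (KK * (8 * ∑ n ∈ S, w n) + (KK * 27 * S.card) * (1 / 3) ^ k)) h27
    exact this
  -- let k → ∞
  have hlim : Filter.Tendsto (fun k : ℕ => KK * (8 * ∑ n ∈ S, w n) + (KK * 27 * S.card) * (1 / 3 : ℝ) ^ k)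
      Filter.atTop (nhds (KK * (8 * ∑ n ∈ S, w n) + (KK * 27 * S.card) * 0)) := by
    refine Filter.Tendsto.add tendsto_const_nhds (Filter.Tendsto.mul tendsto_const_nhds ?_)
    exact tendsto_pow_atTop_nhds_zero_of_lt_one (by norm_num) (by norm_num)
  have h1 : 1 ≤ KK * (8 * ∑ n ∈ S, w n) := by
    have := ge_of_tendsto' hlim hlev
    rw [mul_zero, add_zero] at this
    exact this
  rw [div_le_iff₀ (by linarith)]
  linarith

end Pool.Agent.H806R3.Tube
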